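import Mathlib
import Pool.Agent.H31R2.DH.Back

/-!
A scale free form of the theorem of Backlund (few zeros imply small values), and a
maximum principle for rectangles.
-/

set_option autoImplicit false

open Complex Filter Topology Metric Set
open H370 H370.Loc

namespace Pool.Agent.V7H88.BS

/-- multiplicities under a change of scale -/
lemma mult_scale {f : ℂ → ℂ} {c z : ℂ} {R : ℝ} (hR : 0 < R) :
    mult (fun w => f (c + R * w)) z = mult f (c + R * z) := by
  have hR' : (R : ℂ) ≠ 0 := by exact_mod_cast hR.ne'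
  have hd : HasDerivAt (fun w : ℂ => c + R * w) (R : ℂ) z := by
    simpa using ((hasDerivAt_id z).const_mul (R : ℂ)).const_add c
  have ha : AnalyticAt ℂ (fun w : ℂ => c + R * w) z := by fun_prop
  have h := analyticOrderAt_comp_of_deriv_ne_zero (f := f) ha (by rw [hd.deriv]; exact hR')
  unfold mult analyticOrderNatAt
  rw [← h]
  rfl

/-- few zeros imply small values -/
theorem backlund {R r l B ε : ℝ} (hl : 0 < l) (hlr : l < r) (hrR : r < R) (hB : 0 ≤ B) (hε : 0 < ε) :
    ∃ η L₀ : ℝ, 0 < η ∧ 0 < L₀ ∧ ∀ (f : ℂ → ℂ) (c : ℂ) (L : ℝ), L₀ ≤ L →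
      AnalyticOnNhd ℂ f (closedBall c R) →
      (∀ z ∈ closedBall c R, ‖f z‖ ≤ Real.exp (B * L)) →
      (∀ z ∈ closedBall c l, ‖f z‖ ≤ Real.exp (η * L)) →
      Real.exp (-(η * L)) ≤ ‖f c‖ →
      (∀ z ∈ ball c l, f z ≠ 0) →
      (∀ S : Finset ℂ, (∀ z ∈ S, z ∈ closedBall c R ∧ f z = 0) →
        ∑ z ∈ S, (mult f z : ℝ) ≤ η * L) →
      ∀ z ∈ closedBall c r, ‖f z‖ ≤ Real.exp (ε * L) := by
  have hR : 0 < R := by linarith
  have hr : 0 < r := by linarith
  have hrR1 : r / R < 1 := by rw [div_lt_one hR]; exact hrR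
  set δ : ℝ := (1 - r / R) / 4 with hδ
  have hδ0 : 0 < δ := by rw [hδ]; linarith
  have hrR0 : 0 < r / R := by positivity
  have hδ1 : δ ≤ 1 / 4 := by rw [hδ]; linarith
  set l' : ℝ := l / R with hl'
  have hl'0 : 0 < l' := by positivity
  have hl'r : l' ≤ r / R := by rw [hl']; gcongr
  have hl'1 : l' ≤ 1 := by linarith
  have hlog1δ : 0 ≤ Real.log (1 / δ) := Real.log_nonneg (by rw [le_div_iff₀ hδ0]; linarith)
  have hlog2l : 0 ≤ Real.log (2 / l') := Real.log_nonneg (by rw [le_div_iff₀ hl'0]; linarith)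
  set D : ℝ := 8 / δ ^ 2 * (B + Real.log (1 / δ) + 1) with hD
  have hD0 : 0 < D := by positivity
  obtain ⟨K, hK⟩ := exists_pow_lt_of_lt_one (show 0 < ε / 4 / D by positivity)
    (show 1 - δ / 2 < 1 by linarith)
  have hq0 : 0 ≤ 1 - δ / 2 := by linarith
  have hq1 : 1 - δ / 2 ≤ 1 := by linarith
  rw [lt_div_iff₀ hD0] at hK
  set G : ℝ := K * (4 / l') ^ K with hG
  have hG0 : 0 ≤ G := by positivity
  set E : ℝ := 1 + Real.log (2 / l') + 2 * (2 + Real.log (2 / l')) * G with hE
  have hE0 : 0 < E := by positivity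
  set C : ℝ := 2 * G + 8 / δ ^ 2 with hC
  have hC0 : 0 < C := by positivity
  refine ⟨min 1 (ε / 4 / E), 4 * C / ε, lt_min one_pos (by positivity), by positivity, ?_⟩
  intro f c L hL hf hM hA ha hz1 hn z hz
  set η := min 1 (ε / 4 / E) with hη
  have hη0 : 0 < η := lt_min one_pos (by positivity)
  have hη1 : η ≤ 1 := min_le_left _ _
  have hη2 : η * E ≤ ε / 4 := by
    have : η ≤ ε / 4 / E := min_le_right _ _
    rwa [le_div_iff₀ hE0] at this
  have hL0 : 0 < L := lt_of_lt_of_le (by positivity) hL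
  rw [div_le_iff₀ hε] at hL
  have hR' : (R : ℂ) ≠ 0 := by exact_mod_cast hR.ne'
  have hmem : ∀ {w : ℂ} {x : ℝ}, w ∈ closedBall (0:ℂ) x → c + R * w ∈ closedBall c (R * x) := by
    intro w x hw
    rw [mem_closedBall_zero_iff] at hw
    rw [mem_closedBall, dist_eq_norm, add_sub_cancel_left, norm_mul, Complex.norm_real,
      Real.norm_of_nonneg hR.le]
    gcongr
  have hmem1 : ∀ {w : ℂ} {x : ℝ}, x ≤ 1 → w ∈ closedBall (0:ℂ) x → c + R * w ∈ closedBall c R := by
    intro w x hx hw
    refine closedBall_subset_closedBall ?_ (hmem hw)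
    nlinarith
  have htot : (1 - 3 * δ) + 3 * δ = 1 := by ring
  have key := DH31.backlund_abs (f := fun w => f (c + R * w)) (c := 0) (ϱ := 1 - 3 * δ) (δ := δ) (l := l')
    (n := η * L) (M := Real.exp (B * L)) (A := Real.exp (η * L)) (a := Real.exp (η * L)) hl'0 hl'1
    (by rw [hδ]; linarith) (by linarith) hδ0 (Real.one_le_exp (by positivity))
    (Real.one_le_exp (by positivity)) (Real.one_le_exp (by positivity)) (by positivity)
    (by
      rw [htot]
      intro w hw
      have h1 : AnalyticAt ℂ f (c + R * w) := hf _ (hmem1 le_rfl hw)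
      exact AnalyticAt.fun_comp h1 (by fun_prop))
    (by
      rw [htot]
      intro w hw
      exact hM _ (hmem1 le_rfl hw))
    (by
      intro w hw
      apply hA
      have h1 := hmem hw
      refine closedBall_subset_closedBall ?_ h1
      rw [hl']
      field_simp
      linarith)
    (by
      simp only [mul_zero, add_zero]
      rw [one_div, ← Real.exp_neg]
      exact ha)
    (by
      intro w hw hw0
      rw [sub_zero]
      by_contra hcon
      push Not at hcon
      refine hz1 (c + R * w) ?_ hw0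
      rw [mem_ball, dist_eq_norm, add_sub_cancel_left, norm_mul, Complex.norm_real,
        Real.norm_of_nonneg hR.le]
      rw [hl', lt_div_iff₀ hR] at hcon
      linarith)
    (by
      intro S hS
      have hinj : Function.Injective (fun w : ℂ => c + R * w) := by
        intro x y hxy
        have : (R : ℂ) * x = R * y := add_left_cancel hxy
        exact mul_left_cancel₀ hR' this
      have h1 := hn (S.image (fun w : ℂ => c + R * w)) (by
        intro z hz
        obtain ⟨w, hw, rfl⟩ := Finset.mem_image.1 hz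
        have h2 := hS w hw
        exact ⟨hmem1 (by linarith) h2.1, h2.2⟩)
      rw [Finset.sum_image (fun x _ y _ h => hinj h)] at h1
      refine le_trans (le_of_eq ?_) h1
      refine Finset.sum_congr rfl fun w _ => ?_
      rw [mult_scale hR])
    K (z := (z - c) / R) (by
      rw [mem_closedBall_zero_iff, norm_div, Complex.norm_real, Real.norm_of_nonneg hR.le]
      rw [mem_closedBall, dist_eq_norm] at hz
      calc ‖z - c‖ / R ≤ r / R := by gcongr
        _ ≤ 1 - 3 * δ + δ := by rw [hδ]; linarith)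
  have hz' : c + R * ((z - c) / R) = z := by field_simp; ring
  simp only [hz'] at key
  refine key.trans ?_
  rw [Real.log_exp, Real.log_exp, ← Real.exp_add]
  apply Real.exp_le_exp.2
  have hp : 0 ≤ (1 - δ / 2) ^ K := by positivity
  have hp1 : (1 - δ / 2) ^ K ≤ 1 := pow_le_one₀ hq0 (by linarith)
  have e1 : η * L + η * L * Real.log (2 / l') + 2 * (η * L + η * L * Real.log (2 / l') + η * L) * G
      ≤ ε / 4 * L := by
    have : η * L + η * L * Real.log (2 / l') + 2 * (η * L + η * L * Real.log (2 / l') + η * L) * G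
      = η * E * L := by rw [hE]; ring
    rw [this]
    exact mul_le_mul_of_nonneg_right hη2 hL0.le
  have e2 : 8 / δ ^ 2 * (B * L + η * L * Real.log (1 / δ) + η * L) * (1 - δ / 2) ^ K ≤ ε / 4 * L := by
    have h1 : B * L + η * L * Real.log (1 / δ) + η * L ≤ L * (B + Real.log (1 / δ) + 1) := by
      have a1 : η * L * Real.log (1 / δ) ≤ 1 * L * Real.log (1 / δ) := by gcongr
      have a2 : η * L ≤ 1 * L := by gcongr
      linarith
    calc 8 / δ ^ 2 * (B * L + η * L * Real.log (1 / δ) + η * L) * (1 - δ / 2) ^ K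
        ≤ 8 / δ ^ 2 * (L * (B + Real.log (1 / δ) + 1)) * (1 - δ / 2) ^ K := by gcongr
      _ = ((1 - δ / 2) ^ K * D) * L := by rw [hD]; ring
      _ ≤ ε / 4 * L := mul_le_mul_of_nonneg_right hK.le hL0.le
  have e3 : 8 / δ ^ 2 * (1 - δ / 2) ^ K ≤ 8 / δ ^ 2 :=
    mul_le_of_le_one_right (by positivity) hp1
  have e4 : 4 * (B * L + η * L * Real.log (1 / δ) + η * L + 1) / δ *
      (1 - δ / 2) ^ K * (2 / δ) = 8 / δ ^ 2 * (B * L + η * L * Real.log (1 / δ) + η * L) *
      (1 - δ / 2) ^ K + 8 / δ ^ 2 * (1 - δ / 2) ^ K := by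
    field_simp
    ring
  rw [e4]
  have e5 : C ≤ ε / 4 * L := by linarith
  rw [hC] at e5
  have e6 : 2 * (η * L + η * L * Real.log (2 / l') + η * L + 1) * (K * (4 / l') ^ K) =
      2 * (η * L + η * L * Real.log (2 / l') + η * L) * G + 2 * G := by rw [hG]; ring
  rw [e6]
  linarith

/-- the maximum principle in a rectangle -/
lemma rect_max {f : ℂ → ℂ} {a b c d M : ℝ} (hab : a < b) (hcd : c < d)
    (hf : ∀ z : ℂ, z.re ∈ Icc a b → z.im ∈ Icc c d → DifferentiableAt ℂ f z)
    (h1 : ∀ y ∈ Icc c d, ‖f ⟨a, y⟩‖ ≤ M) (h2 : ∀ y ∈ Icc c d, ‖f ⟨b, y⟩‖ ≤ M)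
    (h3 : ∀ x ∈ Icc a b, ‖f ⟨x, c⟩‖ ≤ M) (h4 : ∀ x ∈ Icc a b, ‖f ⟨x, d⟩‖ ≤ M)
    {z : ℂ} (hz1 : z.re ∈ Icc a b) (hz2 : z.im ∈ Icc c d) : ‖f z‖ ≤ M := by
  have hcl : closure (Ioo a b ×ℂ Ioo c d) = Icc a b ×ℂ Icc c d := by
    rw [closure_reProdIm, closure_Ioo hab.ne, closure_Ioo hcd.ne]
  refine Complex.norm_le_of_forall_mem_frontier_norm_le (U := Ioo a b ×ℂ Ioo c d) ?_ ?_ ?_ ?_
  · exact Bornology.IsBounded.reProdIm (isBounded_Ioo a b) (isBounded_Ioo c d)
  · apply DifferentiableOn.diffContOnCl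
    rw [hcl]
    intro w hw
    exact (hf w hw.1 hw.2).differentiableWithinAt
  · intro w hw
    rw [frontier_reProdIm, closure_Ioo hab.ne, closure_Ioo hcd.ne, frontier_Ioo hab,
      frontier_Ioo hcd] at hw
    rcases hw with ⟨hw1, hw2⟩ | ⟨hw1, hw2⟩
    · rcases hw2 with hw2 | hw2
      · have := h3 w.re hw1
        rwa [← hw2, Complex.eta] at this
      · have := h4 w.re hw1
        rwa [← (mem_singleton_iff.1 hw2 : w.im = d), Complex.eta] at this
    · rcases hw1 with hw1 | hw1
      · have := h1 w.im hw2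
        rwa [← hw1, Complex.eta] at this
      · have := h2 w.im hw2
        rwa [← (mem_singleton_iff.1 hw1 : w.re = b), Complex.eta] at this
  · rw [hcl]
    exact ⟨hz1, hz2⟩

end Pool.Agent.V7H88.BS
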