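import Mathlib
import Pool.Agent.V7H88.BS.A

/-!
Linear differential operators with constant coefficients: Cauchy's estimate and the inversion.
-/

set_option autoImplicit false

open Complex Filter Topology Metric Set

namespace Pool.Agent.V7H88.BS

/-- `P(d/ds) f` -/
noncomputable def PD (P : Polynomial ℂ) (f : ℂ → ℂ) (s : ℂ) : ℂ :=
  ∑ j ∈ Finset.range (P.natDegree + 1), P.coeff j * iteratedDeriv j f s

/-- the constant in Cauchy's estimate -/
noncomputable def CP (P : Polynomial ℂ) (ρ : ℝ) : ℝ :=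
  ∑ j ∈ Finset.range (P.natDegree + 1), ‖P.coeff j‖ * ((j.factorial : ℝ) / ρ ^ j)

lemma CP_nonneg (P : Polynomial ℂ) {ρ : ℝ} (hρ : 0 < ρ) : 0 ≤ CP P ρ :=
  Finset.sum_nonneg fun _ _ => by positivity

lemma iter_analytic {f : ℂ → ℂ} {s : ℂ} (h : AnalyticAt ℂ f s) (j : ℕ) :
    AnalyticAt ℂ (iteratedDeriv j f) s := by
  rw [iteratedDeriv_eq_iterate]
  exact h.iterated_deriv j

lemma iter_hasDeriv {f : ℂ → ℂ} {s : ℂ} (h : AnalyticAt ℂ f s) (j : ℕ) :
    HasDerivAt (iteratedDeriv j f) (iteratedDeriv (j + 1) f s) s := by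
  rw [iteratedDeriv_succ]
  exact (iter_analytic h j).differentiableAt.hasDerivAt

lemma PD_analytic (P : Polynomial ℂ) {f : ℂ → ℂ} {s : ℂ} (h : AnalyticAt ℂ f s) :
    AnalyticAt ℂ (PD P f) s := by
  unfold PD
  exact Finset.analyticAt_fun_sum _ fun j _ => analyticAt_const.mul (iter_analytic h j)

lemma iter_bound {f : ℂ → ℂ} {s : ℂ} {ρ M : ℝ} (hρ : 0 < ρ)
    (hf : ∀ z ∈ closedBall s ρ, DifferentiableAt ℂ f z) (hM : ∀ z ∈ closedBall s ρ, ‖f z‖ ≤ M) (j : ℕ) :
    ‖iteratedDeriv j f s‖ ≤ (j.factorial : ℝ) / ρ ^ j * M := by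
  have h := Complex.norm_iteratedDeriv_le_of_forall_mem_sphere_norm_le (c := s) (R := ρ) (C := M) (f := f)
    j hρ (by
      apply DifferentiableOn.diffContOnCl
      rw [closure_ball _ hρ.ne']
      exact fun z hz => (hf z hz).differentiableWithinAt)
    (fun z hz => hM z (sphere_subset_closedBall hz))
  refine h.trans (le_of_eq ?_)
  ring

lemma PD_bound (P : Polynomial ℂ) {f : ℂ → ℂ} {s : ℂ} {ρ M : ℝ} (hρ : 0 < ρ)
    (hf : ∀ z ∈ closedBall s ρ, DifferentiableAt ℂ f z) (hM : ∀ z ∈ closedBall s ρ, ‖f z‖ ≤ M) :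
    ‖PD P f s‖ ≤ CP P ρ * M := by
  unfold PD CP
  rw [Finset.sum_mul]
  refine (norm_sum_le _ _).trans (Finset.sum_le_sum fun j _ => ?_)
  rw [norm_mul, mul_assoc]
  exact mul_le_mul_of_nonneg_left (iter_bound hρ hf hM j) (norm_nonneg _)

/-- the inversion of `P(d/ds)` along a segment -/
theorem invert (P : Polynomial ℂ) (hP : P ≠ 0) {ℓ : ℝ} (hℓ : 0 < ℓ) : ∃ C : ℝ, 0 < C ∧
    ∀ (f : ℂ → ℂ) (z₀ z₁ : ℂ) (Y G : ℝ), ‖z₁ - z₀‖ ≤ ℓ → 0 ≤ Y → 0 ≤ G →
      (∀ x ∈ Icc (0:ℝ) 1, AnalyticAt ℂ f (z₀ + x * (z₁ - z₀))) →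
      (∀ j < P.natDegree, ‖iteratedDeriv j f z₀‖ ≤ Y) →
      (∀ x ∈ Icc (0:ℝ) 1, ‖PD P f (z₀ + x * (z₁ - z₀))‖ ≤ G) →
      ‖f z₁‖ ≤ C * (Y + G) := by
  set d := P.natDegree with hd
  set cd : ℂ := P.coeff d with hcd
  have hcd0 : cd ≠ 0 := by
    rw [hcd, hd, Polynomial.coeff_natDegree]
    exact Polynomial.leadingCoeff_ne_zero.2 hP
  have hcdn : 0 < ‖cd‖ := norm_pos_iff.2 hcd0
  set S : ℝ := (∑ j ∈ Finset.range d, ‖P.coeff j‖) / ‖cd‖ with hS
  have hS0 : 0 ≤ S := div_nonneg (Finset.sum_nonneg fun _ _ => norm_nonneg _) hcdn.le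
  set K : ℝ := ℓ * (1 + S) with hK
  have hK0 : 0 < K := by positivity
  set a : ℝ := ℓ / ‖cd‖ / K with ha
  have ha0 : 0 ≤ a := by positivity
  refine ⟨Real.exp K * (1 + a) + 1 / ‖cd‖, by positivity, ?_⟩
  intro f z₀ z₁ Y G hz hY hG hf hj hPD
  have hsplit : ∀ z, PD P f z = ∑ j ∈ Finset.range d, P.coeff j * iteratedDeriv j f z +
      cd * iteratedDeriv d f z := by
    intro z
    unfold PD
    rw [← hd, Finset.sum_range_succ]
  rcases Nat.eq_zero_or_pos d with h0 | hpos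
  · -- degree zero
    have h1 := hPD 1 (by norm_num)
    have e : z₀ + ((1:ℝ):ℂ) * (z₁ - z₀) = z₁ := by push_cast; ring
    rw [e, hsplit, h0] at h1
    simp only [Finset.range_zero, Finset.sum_empty, iteratedDeriv_zero, zero_add, norm_mul] at h1
    have h2 : ‖f z₁‖ ≤ 1 / ‖cd‖ * G := by
      rw [one_div, inv_mul_eq_div, le_div_iff₀ hcdn]
      linarith
    refine h2.trans ?_
    have h3 : 0 ≤ Real.exp K * (1 + a) * (Y + G) := by positivity
    have h4 : 0 ≤ 1 / ‖cd‖ * Y := by positivity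
    nlinarith
  · -- Gronwall
    have : NeZero d := ⟨hpos.ne'⟩
    let γ : ℝ → ℂ := fun x => z₀ + x * (z₁ - z₀)
    let V : ℝ → (Fin d → ℂ) := fun x j => iteratedDeriv j f (γ x)
    let V' : ℝ → (Fin d → ℂ) := fun x j => iteratedDeriv (j + 1) f (γ x) * (z₁ - z₀)
    have hγ : ∀ x : ℝ, HasDerivAt γ (z₁ - z₀) x := by
      intro x
      have h1 : HasDerivAt (fun y : ℝ => (y : ℂ)) 1 x := Complex.ofRealCLM.hasDerivAt
      have h2 := (h1.mul_const (z₁ - z₀)).const_add z₀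
      rw [one_mul] at h2
      exact h2
    have hV : ∀ x ∈ Icc (0:ℝ) 1, HasDerivAt V (V' x) x := by
      intro x hx
      rw [hasDerivAt_pi]
      intro j
      exact HasDerivAt.comp (h₂ := iteratedDeriv j f) (h := γ) x (iter_hasDeriv (hf x hx) j) (hγ x)
    have hbound : ∀ x ∈ Ico (0:ℝ) 1, ‖V' x‖ ≤ K * ‖V x‖ + ℓ / ‖cd‖ * G := by
      intro x hx
      have hx' : x ∈ Icc (0:ℝ) 1 := ⟨hx.1, hx.2.le⟩
      have hcomp : ∀ j : ℕ, j < d → ‖iteratedDeriv j f (γ x)‖ ≤ ‖V x‖ := fun j hj =>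
        norm_le_pi_norm (V x) ⟨j, hj⟩
      have hVn : 0 ≤ ‖V x‖ := norm_nonneg _
      rw [pi_norm_le_iff_of_nonneg (by positivity)]
      intro j
      have hmain : ‖iteratedDeriv (j + 1) f (γ x)‖ ≤ (1 + S) * ‖V x‖ + G / ‖cd‖ := by
        by_cases h : (j : ℕ) + 1 < d
        · refine (hcomp _ h).trans ?_
          have : 0 ≤ S * ‖V x‖ := by positivity
          have : 0 ≤ G / ‖cd‖ := by positivity
          linarith
        · have hjd : (j : ℕ) + 1 = d := by have := j.2; omega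
          rw [hjd]
          have h1 := hPD x hx'
          have h2 : cd * iteratedDeriv d f (γ x) = PD P f (γ x) -
              ∑ j ∈ Finset.range d, P.coeff j * iteratedDeriv j f (γ x) := by
            rw [hsplit]; ring
          have h3 : ‖cd‖ * ‖iteratedDeriv d f (γ x)‖ ≤ G + S * ‖cd‖ * ‖V x‖ := by
            rw [← norm_mul, h2]
            refine (norm_sub_le _ _).trans (add_le_add h1 ?_)
            have h4 : S * ‖cd‖ = ∑ j ∈ Finset.range d, ‖P.coeff j‖ := by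
              rw [hS]; field_simp
            rw [h4, Finset.sum_mul]
            refine (norm_sum_le _ _).trans (Finset.sum_le_sum fun i hi => ?_)
            rw [norm_mul]
            exact mul_le_mul_of_nonneg_left (hcomp i (Finset.mem_range.1 hi)) (norm_nonneg _)
          have h5 : ‖iteratedDeriv d f (γ x)‖ ≤ G / ‖cd‖ + S * ‖V x‖ := by
            have : G / ‖cd‖ + S * ‖V x‖ = (G + S * ‖cd‖ * ‖V x‖) / ‖cd‖ := by field_simp
            rw [this, le_div_iff₀ hcdn]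
            linarith
          linarith
      show ‖iteratedDeriv (j + 1) f (γ x) * (z₁ - z₀)‖ ≤ _
      rw [norm_mul]
      calc ‖iteratedDeriv (j + 1) f (γ x)‖ * ‖z₁ - z₀‖ ≤ ((1 + S) * ‖V x‖ + G / ‖cd‖) * ℓ := by
            gcongr
        _ = K * ‖V x‖ + ℓ / ‖cd‖ * G := by rw [hK]; ring
    have hgr := norm_le_gronwallBound_of_norm_deriv_right_le (f := V) (f' := V') (δ := Y) (K := K)
      (ε := ℓ / ‖cd‖ * G) (a := 0) (b := 1)
      (fun x hx => (hV x hx).continuousAt.continuousWithinAt)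
      (fun x hx => (hV x ⟨hx.1, hx.2.le⟩).hasDerivWithinAt)
      (by
        rw [pi_norm_le_iff_of_nonneg hY]
        intro j
        have e : γ 0 = z₀ := by simp [γ]
        show ‖iteratedDeriv j f (γ 0)‖ ≤ Y
        rw [e]
        exact hj j j.2) hbound 1 (by norm_num)
    have e1 : γ 1 = z₁ := by simp [γ]
    have h1 : ‖f z₁‖ ≤ ‖V 1‖ := by
      have := norm_le_pi_norm (V 1) ⟨0, hpos⟩
      simpa [V, e1] using this
    rw [gronwallBound_of_K_ne_0 hK0.ne'] at hgr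
    simp only [sub_zero, mul_one] at hgr
    have h2 : ℓ / ‖cd‖ * G / K * (Real.exp K - 1) ≤ a * G * Real.exp K := by
      have : ℓ / ‖cd‖ * G / K = a * G := by rw [ha]; ring
      rw [this]
      have : 0 ≤ a * G := by positivity
      nlinarith [Real.exp_pos K]
    have h3 := h1.trans (hgr.trans (add_le_add_right h2 _))
    refine h3.trans ?_
    have e5 : 0 ≤ 1 / ‖cd‖ * (Y + G) := by positivity
    have e6 : 0 ≤ Real.exp K * G := by positivity
    have e7 : 0 ≤ Real.exp K * a * Y := by positivity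
    nlinarith

end Pool.Agent.V7H88.BS
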