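import Mathlib

/-!
Elementary inequalities between real numbers.
-/

set_option autoImplicit false

namespace Pool.Agent.V7H88.BS

lemma ra1 {y : ℝ} (hy : 0 < y) (hy1 : y ≤ 1 / 20) : y ^ 2 ≤ y / 20 := by nlinarith

lemma ra2 {x : ℝ} (h1 : -(1/2) ≤ x) (h2 : x ≤ 1 / 2) : x ^ 2 ≤ 1 / 4 := by nlinarith

lemma ra3 {k B : ℝ} (hk : 1 ≤ k) (hB : 1 ≤ B) : 15 ≤ (15 + 2 * k) * B := by nlinarith

lemma ra4 {k p : ℝ} (hk : 1 ≤ k) (hp : 0 ≤ p) : p ≤ (15 + 2 * k) * p := by nlinarith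

lemma ra5 {a p : ℝ} (ha : 1 ≤ a) (hp : 0 ≤ p) : p ≤ a * p := by nlinarith

lemma ra6 {x : ℝ} (h1 : -1 ≤ x) (h2 : x ≤ 1) : x ^ 2 ≤ 1 := by nlinarith

lemma ra7 {x : ℝ} (h1 : -2 ≤ x) (h2 : x ≤ 2) : x ^ 2 ≤ 4 := by nlinarith

lemma ra8 {a p : ℝ} (ha : 1 ≤ a) (hp : 1 ≤ p) : 1 ≤ a * p := by nlinarith

lemma ra9 {a p : ℝ} (ha : 1 ≤ a) (hp : 1 ≤ p) : 15 ≤ (a + 15) * p := by nlinarith

lemma rb1 {κ W : ℝ} (hκ : 0 < κ) (h1 : κ * W = κ + 2) : κ * (1 - W ^ 2) ≤ -1 := by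
  nlinarith

lemma rb2 {a p : ℝ} (ha : 1 ≤ a) (hp : a + 15 ≤ p) : p ≤ p * p := by nlinarith

lemma rb3 {V ε : ℝ} (hε1 : ε ≤ 1) (hV : V * ε = 20) (hε : 0 < ε) : 20 ≤ V := by nlinarith

lemma rb4 {V : ℝ} (hV : 20 ≤ V) : (2 * V - 2) ^ 2 ≥ 3 * V ^ 2 := by nlinarith

lemma rb5 {V : ℝ} (hV : 20 ≤ V) : 1 ≤ V ^ 2 := by nlinarith

lemma rb6' {c V ε : ℝ} (hc : 0 < c) (hV : 20 ≤ V) (hcV : c * V = ε / 20) :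
    c * (5 + 4 * (2 * V)) ≤ ε / 2 := by
  have h1 : c * 5 ≤ c * V * (1 / 4) := by nlinarith
  nlinarith

lemma rb7 {c L x v : ℝ} (hL : 0 < L) (h : 3 ≤ c * (v ^ 2 - x ^ 2)) :
    c * L * (x ^ 2 - v ^ 2) ≤ -(3 * L) := by nlinarith

lemma rb8 {T : ℝ} (hT : 16 ≤ T) : 15 < T ^ 2 := by nlinarith

lemma rb9 {a M e : ℝ} (ha : 1 ≤ a) (hM : 1 ≤ M) (he : 1 ≤ e) : M ≤ a * M * e := by
  have h1 : 0 ≤ a * M := by positivity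
  have h2 : M ≤ a * M := by nlinarith
  nlinarith

lemma rc1 {a M e : ℝ} (ha : 1 ≤ a) (hM : 1 ≤ M) (he : 1 ≤ e) : 1 ≤ a * M * e := hM.trans (rb9 ha hM he)

lemma rc2 {c x W : ℝ} (hc : 0 < c) (hc1 : c ≤ 1) (h1 : 0 ≤ x) (h2 : x ≤ 1) (hcW : c * W ^ 2 = 4) :
    3 ≤ c * (W ^ 2 - x ^ 2) := by
  have h3 : x ^ 2 ≤ 1 := by nlinarith
  have h4 : c * x ^ 2 ≤ 1 * 1 := by gcongr
  nlinarith

lemma rc3 {y v W : ℝ} (h14 : |v - y| ≤ 2) (hy : |y| ≤ W - 2) : v ^ 2 ≤ y ^ 2 + 4 + 4 * W := by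
  have h15 := abs_le.1 h14
  have hW0 : 0 ≤ W := by linarith [abs_nonneg y]
  have h16 : y * (v - y) ≤ 2 * W := by
    calc y * (v - y) ≤ |y| * |v - y| := by rw [← abs_mul]; exact le_abs_self _
      _ ≤ W * 2 := by gcongr; linarith
      _ = 2 * W := by ring
  have h17 : (v - y) ^ 2 ≤ 4 := by nlinarith
  have h18 : v ^ 2 = y ^ 2 + 2 * (y * (v - y)) + (v - y) ^ 2 := by ring
  linarith

lemma rd1 {c T : ℝ} (hc : 1 ≤ c) (hT : 2 * c + 2 ≤ T) : c * (1 + 2 * T) + T ≤ T ^ 3 := by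
  have h8 : c ≤ T / 2 := by linarith
  have h9 : c * (1 + 2 * T) ≤ T / 2 * (1 + 2 * T) := by
    have : 0 < 1 + 2 * T := by linarith
    gcongr
  nlinarith [sq_nonneg (T - 2)]

lemma rd2 {a p : ℝ} (ha : 1 ≤ a) (hp : 1 ≤ p) : a + p ≤ (a + 1) * p := by nlinarith

lemma rd3 {σ y x v : ℝ} (hy : 0 < y) (hy1 : y ≤ 1 / 20) (hσ3 : 3 ≤ σ) (hσy : 3 ≤ (σ - 2) * y)
    (h1 : 1 / 2 + y ≤ x) (h2 : x ≤ σ) (hv : -1 ≤ v) (hv' : v ≤ 1) :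
    (x - σ) ^ 2 + v ^ 2 ≤ (σ - 1 / 2 - 5 * y / 8 - y / 16) ^ 2 := by
  have h2 : (x - σ) ^ 2 ≤ (σ - 1 / 2 - y) ^ 2 := by
    apply sq_le_sq' <;> linarith
  have h3 : v ^ 2 ≤ 1 := by nlinarith
  nlinarith

lemma rd4 {σ δ x v B : ℝ} (hδ : 0 < δ) (hδ1 : δ ≤ 1) (hσ3 : 3 ≤ σ) (hσδ : 3 ≤ (σ - 2) * δ)
    (h1 : 1 / 2 + δ ≤ x) (h2 : x ≤ B) (hB : B ≤ σ) (hv : -1 ≤ v) (hv' : v ≤ 1) :
    (x - σ) ^ 2 + v ^ 2 ≤ (σ - 1 / 2 - 3 * δ / 4 - δ / 16) ^ 2 := by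
  have h2 : (x - σ) ^ 2 ≤ (σ - 1 / 2 - δ) ^ 2 := by
    apply sq_le_sq' <;> linarith
  have h3 : v ^ 2 ≤ 1 := by nlinarith
  nlinarith

lemma rd5 {d p : ℝ} (hd : 0 ≤ d) (hp : 1 ≤ p) : 1 ≤ 2 * (1 + d) * p := by nlinarith

lemma rd6 {d p : ℝ} (hp : 1 ≤ p) : d * p + d * p ≤ 2 * (1 + d) * p := by nlinarith

lemma re1 {k c T : ℝ} (hk : 1 ≤ k) (_hc : 1 ≤ c) (hT : 1 ≤ T) :
    k * c * T * (18 * T) + k * 1 ≤ (18 * k * c + k) * T ^ 2 := by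
  have : k * 1 ≤ k * T ^ 2 := by
    have : 1 ≤ T ^ 2 := one_le_pow₀ hT
    gcongr
  linarith [show (18 * k * c + k) * T ^ 2 = k * c * T * (18 * T) + k * T ^ 2 by ring]

lemma re2 {k c a p : ℝ} (hk : 1 ≤ k) (hp : 1 ≤ p) :
    k * c * p * a + k * 1 ≤ (k * c * a + k) * p := by
  have : k * 1 ≤ k * p := by gcongr
  linarith [show (k * c * a + k) * p = k * c * p * a + k * p by ring]

lemma re3 {c p q : ℝ} (hq : 0 < q) (h : 2 ≤ p * c) : 2 * q ≤ c * (p * q) := by nlinarith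

lemma re4 {y x : ℝ} (hy : 0 < y) (hy1 : y ≤ 1 / 20) (h1 : 1 / 2 + y / 10 ≤ x) (h2 : x ≤ 1 / 2 + y) (t : ℝ) :
    (x - 3 / 2) ^ 2 + (t - t) ^ 2 ≤ (1 - y / 10) ^ 2 := by
  have h2 : (x - 3 / 2) ^ 2 ≤ (1 - y / 10) ^ 2 := by
    apply sq_le_sq' <;> linarith
  have : (t - t) ^ 2 = 0 := by ring
  linarith

lemma re5 {e p q : ℝ} (h1 : e ≤ q) (hq : 0 ≤ q) (hp : 1 ≤ p) : e ≤ q * p := by nlinarith

lemma re6 {k p : ℝ} (hk : 1 ≤ k) (hp : 1 ≤ p) : 1 ≤ 2 * (k + 1) * p := by nlinarith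

lemma re7 {k c p : ℝ} (hk : 1 ≤ k) (hc : 1 ≤ c) (hp : 1 ≤ p) : 1 ≤ (k * c + k) * p := by
  have h1 : 1 ≤ k * c := by nlinarith
  nlinarith

end Pool.Agent.V7H88.BS
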