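import Mathlib
import Pool.Agent.V7H88.BS.B
import Pool.Agent.V7H88.BS.R
import Pool.Agent.H31R2.DH.BackZeta
import Pool.Agent.TH804.MS1

/-!
Local convexity estimates for the zeta function.
-/

set_option autoImplicit false
set_option maxHeartbeats 4000000

open Complex Filter Topology Metric Set

namespace Pool.Agent.V7H88.BS

lemma ne_one_of_im {s : ℂ} (h : 1 ≤ s.im) : s ≠ 1 := by
  rintro rfl
  norm_num at h

lemma zeta_diff {s : ℂ} (h : 1 ≤ s.im) : DifferentiableAt ℂ riemannZeta s :=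
  differentiableAt_riemannZeta (ne_one_of_im h)

lemma zeta_an {s : ℂ} (h : 1 ≤ s.im) : AnalyticAt ℂ riemannZeta s :=
  DH31.zeta_analyticAt (by linarith)

/-- crude growth -/
lemma growth {σ t T : ℝ} (h1 : 1 / 4 ≤ σ) (h2 : σ ≤ 2) (h3 : 1 ≤ t) (h4 : t ≤ 2 * T) (hT : 4 ≤ T) :
    ‖riemannZeta ⟨σ, t⟩‖ ≤ 15 * T := by
  have h := Pool.Agent.H388LH.zeta_growth (s := ⟨σ, t⟩) h1 h3
  have h5 := Complex.norm_le_abs_re_add_abs_im (⟨σ, t⟩ : ℂ)
  have e1 : (⟨σ, t⟩ : ℂ).re = σ := rfl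
  have e2 : (⟨σ, t⟩ : ℂ).im = t := rfl
  rw [e1, e2, abs_of_pos (by linarith), abs_of_pos (by linarith)] at h5
  linarith

lemma rpow_eq_exp {T : ℝ} (hT : 0 < T) (p : ℝ) : T ^ p = Real.exp (p * Real.log T) := by
  rw [Real.rpow_def_of_pos hT, mul_comm]

/-- the norm of the Gaussian factor -/
lemma gauss_norm (c x y : ℝ) : ‖cexp (c * (⟨x, y⟩ : ℂ) ^ 2)‖ = Real.exp (c * (x ^ 2 - y ^ 2)) := by
  rw [Complex.norm_exp]
  congr 1
  rw [Complex.re_ofReal_mul, sq, Complex.mul_re]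
  ring

/-- local three lines -/
theorem three_lines : ∃ C : ℝ, 1 ≤ C ∧ ∀ y T B : ℝ, 0 < y → y ≤ 1 / 20 → 4 ≤ T → 1 ≤ B →
    (∀ t : ℝ, |t - T| ≤ 1 → ‖riemannZeta ⟨1 / 2 + y, t⟩‖ ≤ B) →
    ‖riemannZeta ⟨1 / 2, T⟩‖ ≤ C * T ^ (3 / 5 * y) * B := by
  obtain ⟨K, hK, hrefl⟩ := Pool.Agent.TH804.MS.refl
  refine ⟨15 + 2 * K, by linarith, fun y T B hy hy1 hT hB h => ?_⟩
  have hT0 : 0 < T := by linarith
  set Λ := Real.log T with hΛ
  have hΛ0 : 0 < Λ := Real.log_pos (by linarith)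
  let g : ℂ → ℂ := fun z => riemannZeta (⟨1 / 2, T⟩ + z) * cexp ((Λ / 2 : ℝ) * z) *
    cexp ((2 * Λ : ℝ) * z ^ 2)
  have hg : ∀ x v : ℝ, ‖g ⟨x, v⟩‖ = ‖riemannZeta ⟨1 / 2 + x, T + v⟩‖ *
      Real.exp (Λ / 2 * x + 2 * Λ * (x ^ 2 - v ^ 2)) := by
    intro x v
    have e : (⟨1 / 2, T⟩ : ℂ) + ⟨x, v⟩ = ⟨1 / 2 + x, T + v⟩ := rfl
    simp only [g]
    rw [norm_mul, norm_mul, gauss_norm, e, Complex.norm_exp, Complex.re_ofReal_mul, Real.exp_add,
      mul_assoc]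
  set M : ℝ := (15 + 2 * K) * T ^ (3 / 5 * y) * B with hM
  have hM1 : (15 + 2 * K) * B ≤ M := by
    have : 1 ≤ T ^ (3 / 5 * y) := Real.one_le_rpow (by linarith) (by positivity)
    have h2 : 0 ≤ (15 + 2 * K) * B := by positivity
    calc (15 + 2 * K) * B = (15 + 2 * K) * B * 1 := by ring
      _ ≤ (15 + 2 * K) * B * T ^ (3 / 5 * y) := by gcongr
      _ = M := by rw [hM]; ring
  have hy2 : y ^ 2 ≤ y / 20 := ra1 hy hy1
  have hexp : ∀ v : ℝ, Real.exp (Λ / 2 * y + 2 * Λ * (y ^ 2 - v ^ 2)) ≤ T ^ (3 / 5 * y) := by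
    intro v
    rw [rpow_eq_exp hT0]
    apply Real.exp_le_exp.2
    have : 0 ≤ Λ * v ^ 2 := by positivity
    have h3 : Λ * y ^ 2 ≤ Λ * (y / 20) := by gcongr
    clear * - this h3
    linarith
  have hside : ∀ x v : ℝ, |x| ≤ y → |v| = 1 → ‖g ⟨x, v⟩‖ ≤ M := by
    intro x v hx hv
    rw [hg]
    have hx' := abs_le.1 hx
    have hv' : v ^ 2 = 1 := by rw [← sq_abs, hv]; norm_num
    have hv2 := abs_le.1 hv.le
    have h1 := growth (σ := 1 / 2 + x) (t := T + v) (T := T) (by linarith) (by linarith) (by linarith)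
      (by linarith) hT
    have hx2 : x ^ 2 ≤ 1 / 4 := ra2 (by linarith) (by linarith)
    have h2 : Λ / 2 * x + 2 * Λ * (x ^ 2 - v ^ 2) ≤ -Λ := by
      rw [hv']
      have : Λ / 2 * x ≤ Λ / 2 * 1 := by
        apply mul_le_mul_of_nonneg_left _ (by positivity); linarith
      have h3 : Λ * x ^ 2 ≤ Λ * (1 / 4) := by gcongr
      clear * - this h3
      linarith
    have h3 : Real.exp (Λ / 2 * x + 2 * Λ * (x ^ 2 - v ^ 2)) ≤ T⁻¹ := by
      refine (Real.exp_le_exp.2 h2).trans (le_of_eq ?_)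
      rw [Real.exp_neg, hΛ, Real.exp_log hT0]
    calc ‖riemannZeta ⟨1 / 2 + x, T + v⟩‖ * Real.exp (Λ / 2 * x + 2 * Λ * (x ^ 2 - v ^ 2))
        ≤ (15 * T) * T⁻¹ := by gcongr
      _ = 15 := by field_simp
      _ ≤ (15 + 2 * K) * B := ra3 hK hB
      _ ≤ M := hM1
  have hright : ∀ v : ℝ, |v| ≤ 1 → ‖g ⟨y, v⟩‖ ≤ M := by
    intro v hv
    rw [hg]
    have h1 := h (T + v) (by rw [add_sub_cancel_left]; exact hv)
    calc _ ≤ B * T ^ (3 / 5 * y) := by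
          have := hexp v
          gcongr
      _ ≤ M := by
          rw [hM]
          have : 0 ≤ T ^ (3 / 5 * y) * B := by positivity
          have h9 := ra4 hK this
          clear * - h9
          linarith
  have hleft : ∀ v : ℝ, |v| ≤ 1 → ‖g ⟨-y, v⟩‖ ≤ M := by
    intro v hv
    have hv' := abs_le.1 hv
    rw [hg]
    have h1 := hrefl y (T + v) hy.le (by linarith) (by linarith)
    have h2 := h (T + v) (by rw [add_sub_cancel_left]; exact hv)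
    have h3 : (T + v) ^ y ≤ 2 * T ^ y := by
      calc (T + v) ^ y ≤ (2 * T) ^ y := Real.rpow_le_rpow (by linarith) (by linarith) hy.le
        _ = 2 ^ y * T ^ y := Real.mul_rpow (by norm_num) hT0.le
        _ ≤ 2 ^ (1:ℝ) * T ^ y := by
            apply mul_le_mul_of_nonneg_right _ (by positivity)
            exact Real.rpow_le_rpow_of_exponent_le (by norm_num) (by linarith)
        _ = 2 * T ^ y := by rw [Real.rpow_one]
    have h4 : ‖riemannZeta ⟨1 / 2 + -y, T + v⟩‖ ≤ K * (2 * T ^ y) * B := by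
      rw [← sub_eq_add_neg]
      refine h1.trans ?_
      gcongr
    have h5 : Real.exp (Λ / 2 * (-y) + 2 * Λ * ((-y) ^ 2 - v ^ 2)) * T ^ y =
        Real.exp (Λ / 2 * y + 2 * Λ * (y ^ 2 - v ^ 2)) := by
      rw [rpow_eq_exp hT0, ← Real.exp_add]
      congr 1
      ring
    calc ‖riemannZeta ⟨1 / 2 + -y, T + v⟩‖ * Real.exp (Λ / 2 * (-y) + 2 * Λ * ((-y) ^ 2 - v ^ 2))
        ≤ K * (2 * T ^ y) * B * Real.exp (Λ / 2 * (-y) + 2 * Λ * ((-y) ^ 2 - v ^ 2)) := by gcongr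
      _ = 2 * K * B * (Real.exp (Λ / 2 * (-y) + 2 * Λ * ((-y) ^ 2 - v ^ 2)) * T ^ y) := by ring
      _ = 2 * K * B * Real.exp (Λ / 2 * y + 2 * Λ * (y ^ 2 - v ^ 2)) := by rw [h5]
      _ ≤ 2 * K * B * T ^ (3 / 5 * y) := by
          have := hexp v
          gcongr
      _ ≤ M := by
          rw [hM]
          have : 0 ≤ T ^ (3 / 5 * y) * B := by positivity
          clear * - this
          linarith
  have hfin := rect_max (f := g) (a := -y) (b := y) (c := -1) (d := 1) (M := M) (by linarith)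
    (by norm_num)
    (by
      intro z hz1 hz2
      have him : 1 ≤ ((⟨1 / 2, T⟩ : ℂ) + z).im := by
        rw [Complex.add_im]
        show 1 ≤ T + z.im
        linarith [hz2.1]
      have h1 : DifferentiableAt ℂ (fun z => riemannZeta (⟨1 / 2, T⟩ + z)) z :=
        DifferentiableAt.comp (g := riemannZeta) (f := fun z : ℂ => (⟨1 / 2, T⟩ : ℂ) + z) z
          (zeta_diff him) (by fun_prop)
      exact (h1.mul (by fun_prop)).mul (by fun_prop))
    (fun v hv => hleft v (abs_le.2 hv)) (fun v hv => hright v (abs_le.2 hv))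
    (fun x hx => hside x _ (abs_le.2 hx) (by norm_num))
    (fun x hx => hside x _ (abs_le.2 hx) (by norm_num))
    (z := 0) (by simp [hy.le]) (by simp)
  simpa [g] using hfin

/-- small values on the critical line imply small values on the right of it -/
theorem right_small {κ V : ℝ} (hκ : 0 < κ) (hκ1 : κ ≤ 1) (hV : 0 ≤ V) :
    ∃ H T₁ : ℝ, V ≤ H ∧ 4 ≤ T₁ ∧ ∀ T : ℝ, T₁ ≤ T →
      (∀ t : ℝ, |t - T| ≤ H → ‖riemannZeta ⟨1 / 2, t⟩‖ ≤ T ^ κ) →
      ∀ s : ℂ, 1 / 2 ≤ s.re → |s.im - T| ≤ V → ‖riemannZeta s‖ ≤ T ^ (2 * κ) := by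
  obtain ⟨A, hA1, hA⟩ := DH31.zeta_bounds (a := 3 / 2) (by norm_num)
  set W : ℝ := 1 + 2 / κ with hW
  have hW1 : 1 ≤ W := by rw [hW]; have : 0 < 2 / κ := by positivity
                         linarith
  have hWκ : κ * (1 - W ^ 2) ≤ -1 := by
    have h1 : κ * W = κ + 2 := by rw [hW]; field_simp
    exact rb1 hκ h1
  refine ⟨V + W, 4 + 2 * (V + W) + (A + 15) ^ (1 / κ), by linarith, ?_, ?_⟩
  · have : 0 ≤ (A + 15) ^ (1 / κ) := by positivity
    linarith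
  intro T hT h s hs1 hs2
  have hAp : 0 ≤ (A + 15) ^ (1 / κ) := by positivity
  have hT4 : 4 ≤ T := by linarith
  have hT0 : 0 < T := by linarith
  have hAT : A + 15 ≤ T ^ κ := by
    have := Real.rpow_le_rpow hAp (by linarith : (A + 15) ^ (1 / κ) ≤ T) hκ.le
    rwa [← Real.rpow_mul (by linarith), one_div_mul_cancel hκ.ne', Real.rpow_one] at this
  have hT1 : 1 ≤ T ^ κ := by linarith
  have h2κ : T ^ (2 * κ) = T ^ κ * T ^ κ := by rw [← Real.rpow_add hT0]; congr 1; ring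
  rcases le_or_gt (3 / 2) s.re with h3 | h3
  · calc ‖riemannZeta s‖ ≤ A := (hA s h3).1
      _ ≤ T ^ κ := by linarith
      _ ≤ T ^ (2 * κ) := by rw [h2κ]; exact rb2 hA1 hAT
  set Λ := Real.log T with hΛ
  have hΛ0 : 0 < Λ := Real.log_pos (by linarith)
  set t₀ := s.im with ht₀
  have hs2' := abs_le.1 hs2
  let g : ℂ → ℂ := fun z => riemannZeta (⟨1 / 2, t₀⟩ + z) * cexp ((κ * Λ : ℝ) * z ^ 2)
  have hg : ∀ x v : ℝ, ‖g ⟨x, v⟩‖ = ‖riemannZeta ⟨1 / 2 + x, t₀ + v⟩‖ *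
      Real.exp (κ * Λ * (x ^ 2 - v ^ 2)) := by
    intro x v
    have e : (⟨1 / 2, t₀⟩ : ℂ) + ⟨x, v⟩ = ⟨1 / 2 + x, t₀ + v⟩ := rfl
    simp only [g]
    rw [norm_mul, gauss_norm, e]
  have hside : ∀ x v : ℝ, 0 ≤ x → x ≤ 1 → |v| = W → ‖g ⟨x, v⟩‖ ≤ (A + 15) * T ^ κ := by
    intro x v hx hx1 hv
    rw [hg]
    have hv' : v ^ 2 = W ^ 2 := by rw [← sq_abs, hv]
    have hv2 := abs_le.1 hv.le
    have h1 := growth (σ := 1 / 2 + x) (t := t₀ + v) (T := T) (by linarith) (by linarith) (by linarith)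
      (by linarith) hT4
    have h2 : κ * Λ * (x ^ 2 - v ^ 2) ≤ -Λ := by
      rw [hv']
      have h5 : x ^ 2 ≤ 1 := ra6 (by linarith) hx1
      have h6 : κ * Λ * (x ^ 2 - W ^ 2) ≤ κ * Λ * (1 - W ^ 2) := by gcongr
      have h7 : (κ * (1 - W ^ 2)) * Λ ≤ (-1) * Λ := by gcongr
      linarith
    have h3 : Real.exp (κ * Λ * (x ^ 2 - v ^ 2)) ≤ T⁻¹ := by
      refine (Real.exp_le_exp.2 h2).trans (le_of_eq ?_)
      rw [Real.exp_neg, hΛ, Real.exp_log hT0]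
    calc ‖riemannZeta ⟨1 / 2 + x, t₀ + v⟩‖ * Real.exp (κ * Λ * (x ^ 2 - v ^ 2))
        ≤ (15 * T) * T⁻¹ := by gcongr
      _ = 15 := by field_simp
      _ ≤ (A + 15) * T ^ κ := ra9 hA1 hT1
  have hfin := rect_max (f := g) (a := 0) (b := 1) (c := -W) (d := W) (M := (A + 15) * T ^ κ)
    (by norm_num) (by linarith)
    (by
      intro z hz1 hz2
      have him : 1 ≤ ((⟨1 / 2, t₀⟩ : ℂ) + z).im := by
        rw [Complex.add_im]
        show 1 ≤ t₀ + z.im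
        linarith [hz2.1]
      have h1 : DifferentiableAt ℂ (fun z => riemannZeta (⟨1 / 2, t₀⟩ + z)) z :=
        DifferentiableAt.comp (g := riemannZeta) (f := fun z : ℂ => (⟨1 / 2, t₀⟩ : ℂ) + z) z
          (zeta_diff him) (by fun_prop)
      exact h1.mul (by fun_prop))
    (by
      intro v hv
      rw [hg]
      have h1 := h (t₀ + v) (by rw [abs_le]; constructor <;> linarith [hv.1, hv.2])
      rw [add_zero]
      have h2 : Real.exp (κ * Λ * (0 ^ 2 - v ^ 2)) ≤ 1 := by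
        rw [Real.exp_le_one_iff]
        have : 0 ≤ κ * Λ * v ^ 2 := by positivity
        clear * - this
        linarith
      calc _ ≤ T ^ κ * 1 := by gcongr
        _ = T ^ κ := mul_one _
        _ ≤ (A + 15) * T ^ κ := ra5 (by linarith) (by linarith))
    (by
      intro v hv
      rw [hg]
      have h1 := (hA ⟨1 / 2 + 1, t₀ + v⟩ (by show (3:ℝ) / 2 ≤ 1 / 2 + 1; norm_num)).1
      have h2 : Real.exp (κ * Λ * (1 ^ 2 - v ^ 2)) ≤ T ^ κ := by
        rw [rpow_eq_exp hT0]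
        apply Real.exp_le_exp.2
        have : 0 ≤ κ * Λ * v ^ 2 := by positivity
        clear * - this
        linarith
      calc _ ≤ A * T ^ κ := by gcongr
        _ ≤ (A + 15) * T ^ κ := by
            apply mul_le_mul_of_nonneg_right _ (by linarith)
            linarith)
    (fun x hx => hside x _ hx.1 hx.2 (by rw [abs_neg, abs_of_pos (by linarith)]))
    (fun x hx => hside x _ hx.1 hx.2 (by rw [abs_of_pos (by linarith)]))
    (z := ⟨s.re - 1 / 2, 0⟩) ⟨by show (0:ℝ) ≤ s.re - 1 / 2; linarith, by show s.re - 1 / 2 ≤ (1:ℝ); linarith⟩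
      ⟨by show -W ≤ (0:ℝ); linarith, by show (0:ℝ) ≤ W; linarith⟩
  rw [hg] at hfin
  have e : (⟨1 / 2 + (s.re - 1 / 2), t₀ + 0⟩ : ℂ) = s := by
    apply Complex.ext
    · show 1 / 2 + (s.re - 1 / 2) = s.re
      ring
    · show t₀ + 0 = s.im
      rw [add_zero]
  rw [e] at hfin
  have h8 : 1 ≤ Real.exp (κ * Λ * ((s.re - 1 / 2) ^ 2 - 0 ^ 2)) := by
    apply Real.one_le_exp
    have : 0 ≤ κ * Λ * (s.re - 1 / 2) ^ 2 := by positivity
    clear * - this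
    linarith
  calc ‖riemannZeta s‖ ≤ ‖riemannZeta s‖ * Real.exp (κ * Λ * ((s.re - 1 / 2) ^ 2 - 0 ^ 2)) :=
        le_mul_of_one_le_right (norm_nonneg _) h8
    _ ≤ (A + 15) * T ^ κ := hfin
    _ ≤ T ^ (2 * κ) := by rw [h2κ]; gcongr

/-- the zeta function near a weighted maximum -/
theorem peak {ε : ℝ} (hε : 0 < ε) (hε1 : ε ≤ 1) :
    ∃ W T₁ : ℝ, 0 < W ∧ 4 + 2 * W ≤ T₁ ∧ ∀ T : ℝ, T₁ ≤ T → 1 ≤ ‖riemannZeta ⟨1 / 2, T⟩‖ →
      ∃ T₀ : ℝ, |T₀ - T| ≤ W ∧ ‖riemannZeta ⟨1 / 2, T⟩‖ ≤ ‖riemannZeta ⟨1 / 2, T₀⟩‖ ∧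
        ∀ s : ℂ, 1 / 2 ≤ s.re → s.re ≤ 3 / 2 → |s.im - T₀| ≤ 2 →
          ‖riemannZeta s‖ ≤ T ^ ε * ‖riemannZeta ⟨1 / 2, T₀⟩‖ := by
  obtain ⟨A, hA1, hA⟩ := DH31.zeta_bounds (a := 3 / 2) (by norm_num)
  set V : ℝ := 20 / ε with hV
  have hVε : V * ε = 20 := by rw [hV]; field_simp
  have hV20 : 20 ≤ V := rb3 hε1 hVε hε
  set c : ℝ := 1 / V ^ 2 with hc
  have hc0 : 0 < c := by positivity
  have hcV : c * V ^ 2 = 1 := by rw [hc]; field_simp
  set W : ℝ := 2 * V with hW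
  have hcW : c * W ^ 2 = 4 := by rw [hW]; linear_combination 4 * hcV
  have hcW2 : 3 ≤ c * (W - 2) ^ 2 := by
    have h1 : (W - 2) ^ 2 ≥ 3 * V ^ 2 := by rw [hW]; exact rb4 hV20
    calc (3:ℝ) = 3 * (c * V ^ 2) := by rw [hcV]; ring
      _ = c * (3 * V ^ 2) := by ring
      _ ≤ c * (W - 2) ^ 2 := by gcongr
  have hc1 : c ≤ 1 := by
    rw [hc, div_le_one (by positivity)]; exact rb5 hV20
  have hcV' : c * V = ε / 20 := by
    have : c * V * V = 1 := by linear_combination hcV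
    have h2 : c * V * (V * ε) = ε := by linear_combination ε * this
    rw [hVε] at h2
    linarith
  have hcc : c * (5 + 4 * W) ≤ ε / 2 := by
    rw [hW]
    exact rb6' hc0 hV20 hcV'
  refine ⟨W, 16 + 2 * W + A ^ (2 / ε), by linarith, ?_, ?_⟩
  · have : 0 ≤ A ^ (2 / ε) := by positivity
    linarith
  intro T hT h1
  have hAp : 0 ≤ A ^ (2 / ε) := by positivity
  have hT4 : 4 ≤ T := by linarith
  have hT0 : 0 < T := by linarith
  have hAT : A ≤ T ^ (ε / 2) := by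
    have := Real.rpow_le_rpow hAp (by linarith : A ^ (2 / ε) ≤ T) (by positivity : 0 ≤ ε / 2)
    rwa [← Real.rpow_mul (by linarith), show 2 / ε * (ε / 2) = 1 by field_simp, Real.rpow_one] at this
  set Λ := Real.log T with hΛ
  have hΛ0 : 0 < Λ := Real.log_pos (by linarith)
  have hexpΛ : Real.exp Λ = T := Real.exp_log hT0
  let g : ℂ → ℂ := fun z => riemannZeta (⟨1 / 2, T⟩ + z) * cexp ((c * Λ : ℝ) * z ^ 2)
  have hg : ∀ x v : ℝ, ‖g ⟨x, v⟩‖ = ‖riemannZeta ⟨1 / 2 + x, T + v⟩‖ *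
      Real.exp (c * Λ * (x ^ 2 - v ^ 2)) := by
    intro x v
    have e : (⟨1 / 2, T⟩ : ℂ) + ⟨x, v⟩ = ⟨1 / 2 + x, T + v⟩ := rfl
    simp only [g]
    rw [norm_mul, gauss_norm, e]
  have hgd : ∀ z : ℂ, z.re ∈ Icc (0:ℝ) 1 → z.im ∈ Icc (-W) W → DifferentiableAt ℂ g z := by
    intro z hz1 hz2
    have him : 1 ≤ ((⟨1 / 2, T⟩ : ℂ) + z).im := by
      rw [Complex.add_im]
      show 1 ≤ T + z.im
      linarith [hz2.1]
    have h1 : DifferentiableAt ℂ (fun z => riemannZeta (⟨1 / 2, T⟩ + z)) z :=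
      DifferentiableAt.comp (g := riemannZeta) (f := fun z : ℂ => (⟨1 / 2, T⟩ : ℂ) + z) z
        (zeta_diff him) (by fun_prop)
    exact h1.mul (by fun_prop)
  -- far values are small
  have hfar : ∀ x v : ℝ, 0 ≤ x → x ≤ 1 → |v| ≤ W → 3 ≤ c * (v ^ 2 - x ^ 2) → ‖g ⟨x, v⟩‖ < 1 := by
    intro x v hx hx1 hv hcv
    rw [hg]
    have hv2 := abs_le.1 hv
    have h1 := growth (σ := 1 / 2 + x) (t := T + v) (T := T) (by linarith) (by linarith) (by linarith)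
      (by linarith) hT4
    have h2 : c * Λ * (x ^ 2 - v ^ 2) ≤ -(3 * Λ) := rb7 hΛ0 hcv
    have h3 : Real.exp (c * Λ * (x ^ 2 - v ^ 2)) ≤ (T ^ 3)⁻¹ := by
      refine (Real.exp_le_exp.2 h2).trans (le_of_eq ?_)
      rw [Real.exp_neg, show (3 * Λ) = ((3:ℕ) : ℝ) * Λ by norm_num, Real.exp_nat_mul, hexpΛ]
    calc ‖riemannZeta ⟨1 / 2 + x, T + v⟩‖ * Real.exp (c * Λ * (x ^ 2 - v ^ 2))
        ≤ (15 * T) * (T ^ 3)⁻¹ := by gcongr
      _ = 15 / T ^ 2 := by field_simp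
      _ < 1 := by
          rw [div_lt_one (by positivity)]
          exact rb8 (by linarith)
  -- the maximum
  obtain ⟨y₀, hy₀, hmax⟩ := (isCompact_Icc (a := -W) (b := W)).exists_isMaxOn
    (nonempty_Icc.2 (by linarith)) (f := fun v : ℝ => ‖g ⟨0, v⟩‖) (by
      intro v hv
      have h1 : ContinuousAt g ⟨0, v⟩ := (hgd ⟨0, v⟩ ⟨le_rfl, zero_le_one⟩ hv).continuousAt
      have h2 : ContinuousAt (fun v : ℝ => (⟨0, v⟩ : ℂ)) v := by
        have : (fun v : ℝ => (⟨0, v⟩ : ℂ)) = fun v : ℝ => (v : ℂ) * I := by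
          funext v
          apply Complex.ext <;> simp
        rw [this]
        fun_prop
      exact (ContinuousAt.comp (f := fun v : ℝ => (⟨0, v⟩ : ℂ)) (g := g) h1 h2).norm.continuousWithinAt)
  set M : ℝ := ‖g ⟨0, y₀⟩‖ with hM
  have hmax' : ∀ v ∈ Icc (-W) W, ‖g ⟨0, v⟩‖ ≤ M := fun v hv => hmax hv
  have hM0 : ‖riemannZeta ⟨1 / 2, T⟩‖ ≤ M := by
    have h2 := hmax' 0 ⟨by linarith, by linarith⟩
    rw [hg] at h2
    simpa using h2
  have hM1 : 1 ≤ M := h1.trans hM0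
  have hy₀W : |y₀| ≤ W - 2 := by
    by_contra hcon
    push Not at hcon
    have h2 : (W - 2) ^ 2 ≤ y₀ ^ 2 := by
      rw [← sq_abs y₀]
      exact pow_le_pow_left₀ (by linarith) hcon.le 2
    have h3 := hfar 0 y₀ le_rfl zero_le_one (abs_le.2 hy₀) (by
      calc (3:ℝ) ≤ c * (W - 2) ^ 2 := hcW2
        _ ≤ c * (y₀ ^ 2 - 0 ^ 2) := by gcongr; linarith)
    linarith
  have hMT : M = ‖riemannZeta ⟨1 / 2, T + y₀⟩‖ * Real.exp (-(c * Λ * y₀ ^ 2)) := by
    rw [hM, hg, add_zero]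
    congr 2
    ring
  refine ⟨T + y₀, by rw [add_sub_cancel_left]; linarith, ?_, ?_⟩
  · refine hM0.trans ?_
    rw [hMT]
    have : Real.exp (-(c * Λ * y₀ ^ 2)) ≤ 1 := by
      rw [Real.exp_le_one_iff]
      have : 0 ≤ c * Λ * y₀ ^ 2 := by positivity
      linarith
    exact mul_le_of_le_one_right (norm_nonneg _) this
  intro s hs1 hs2 hs3
  have hy₀' := abs_le.1 hy₀W
  have hs3' := abs_le.1 hs3
  set v : ℝ := s.im - T with hv
  have hvW : v ∈ Icc (-W) W := ⟨by linarith, by linarith⟩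
  have hfin := rect_max (f := g) (a := 0) (b := 1) (c := -W) (d := W) (M := A * M * Real.exp (c * Λ))
    (by norm_num) (by linarith) hgd
    (by
      intro v hv
      refine (hmax' v hv).trans ?_
      exact rb9 hA1 hM1 (Real.one_le_exp (by positivity)))
    (by
      intro v hv
      rw [hg]
      have h1 := (hA ⟨1 / 2 + 1, T + v⟩ (by show (3:ℝ) / 2 ≤ 1 / 2 + 1; norm_num)).1
      have h2 : Real.exp (c * Λ * (1 ^ 2 - v ^ 2)) ≤ Real.exp (c * Λ) := by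
        apply Real.exp_le_exp.2
        have : 0 ≤ c * Λ * v ^ 2 := by positivity
        clear * - this
        linarith
      calc _ ≤ A * Real.exp (c * Λ) := by gcongr
        _ ≤ A * M * Real.exp (c * Λ) := by
            gcongr
            exact le_mul_of_one_le_right (by linarith) hM1)
    (by
      intro x hx
      refine (hfar x (-W) hx.1 hx.2 (by rw [abs_neg, abs_of_pos (by linarith)]) ?_).le.trans ?_
      · rw [neg_sq]
        exact rc2 hc0 hc1 hx.1 hx.2 hcW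
      · exact rc1 hA1 hM1 (Real.one_le_exp (by positivity)))
    (by
      intro x hx
      refine (hfar x W hx.1 hx.2 (by rw [abs_of_pos (by linarith)]) ?_).le.trans ?_
      · exact rc2 hc0 hc1 hx.1 hx.2 hcW
      · exact rc1 hA1 hM1 (Real.one_le_exp (by positivity)))
    (z := ⟨s.re - 1 / 2, v⟩) ⟨by show (0:ℝ) ≤ s.re - 1 / 2; linarith, by show s.re - 1 / 2 ≤ (1:ℝ); linarith⟩
      hvW
  rw [hg] at hfin
  have e : (⟨1 / 2 + (s.re - 1 / 2), T + v⟩ : ℂ) = s := by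
    apply Complex.ext
    · show 1 / 2 + (s.re - 1 / 2) = s.re
      ring
    · show T + v = s.im
      rw [hv]; ring
  rw [e] at hfin
  set x : ℝ := s.re - 1 / 2 with hx
  have h9 : ‖riemannZeta s‖ ≤ A * M * Real.exp (c * Λ) * Real.exp (c * Λ * v ^ 2) := by
    have h10 : Real.exp (c * Λ * (x ^ 2 - v ^ 2)) * Real.exp (c * Λ * v ^ 2) =
        Real.exp (c * Λ * x ^ 2) := by rw [← Real.exp_add]; congr 1; ring
    have h11 : 1 ≤ Real.exp (c * Λ * x ^ 2) := Real.one_le_exp (by positivity)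
    calc ‖riemannZeta s‖ ≤ ‖riemannZeta s‖ * Real.exp (c * Λ * x ^ 2) :=
          le_mul_of_one_le_right (norm_nonneg _) h11
      _ = ‖riemannZeta s‖ * Real.exp (c * Λ * (x ^ 2 - v ^ 2)) * Real.exp (c * Λ * v ^ 2) := by
          rw [← h10]; ring
      _ ≤ _ := by gcongr
  refine h9.trans ?_
  rw [hMT]
  have h12 : v ^ 2 ≤ y₀ ^ 2 + 4 + 4 * W :=
    rc3 (by rw [hv, abs_le]; constructor <;> linarith) hy₀W
  have h18 : Real.exp (c * Λ) * Real.exp (c * Λ * v ^ 2) * Real.exp (-(c * Λ * y₀ ^ 2)) ≤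
      T ^ (ε / 2) := by
    rw [← Real.exp_add, ← Real.exp_add, rpow_eq_exp hT0]
    apply Real.exp_le_exp.2
    have h19 : c * Λ * v ^ 2 ≤ c * Λ * (y₀ ^ 2 + 4 + 4 * W) := by gcongr
    have h20 : c * (5 + 4 * W) * Λ ≤ ε / 2 * Λ := by gcongr
    linarith
  have hTε : T ^ ε = T ^ (ε / 2) * T ^ (ε / 2) := by rw [← Real.rpow_add hT0]; congr 1; ring
  calc A * (‖riemannZeta ⟨1 / 2, T + y₀⟩‖ * Real.exp (-(c * Λ * y₀ ^ 2))) * Real.exp (c * Λ) *
        Real.exp (c * Λ * v ^ 2)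
      = A * (Real.exp (c * Λ) * Real.exp (c * Λ * v ^ 2) * Real.exp (-(c * Λ * y₀ ^ 2))) *
        ‖riemannZeta ⟨1 / 2, T + y₀⟩‖ := by ring
    _ ≤ T ^ (ε / 2) * T ^ (ε / 2) * ‖riemannZeta ⟨1 / 2, T + y₀⟩‖ := by gcongr
    _ = T ^ ε * ‖riemannZeta ⟨1 / 2, T + y₀⟩‖ := by rw [hTε]

end Pool.Agent.V7H88.BS
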