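import Mathlib
import Pool.Agent.V7H88.BS.C

/-!
`P(d/ds) ζ` far to the right.
-/

set_option autoImplicit false
set_option maxHeartbeats 4000000

open Complex Filter Topology Metric Set

namespace Pool.Agent.V7H88.BS

open LSeries

/-- the coefficients of `P(d/ds) ζ` -/
noncomputable def bb (P : Polynomial ℂ) (n : ℕ) : ℂ := P.eval (-Complex.log n)

lemma logMul_iter (m n : ℕ) : (logMul^[m] (1 : ℕ → ℂ)) n = (Complex.log n) ^ m := by
  induction m with
  | zero => simp
  | succ m ih =>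
    rw [Function.iterate_succ_apply']
    simp only [logMul]
    rw [ih, pow_succ]
    ring

lemma absc_pow (m : ℕ) : abscissaOfAbsConv (logMul^[m] (1 : ℕ → ℂ)) = 1 := by
  rw [absicssaOfAbsConv_logPowMul, LSeries.abscissaOfAbsConv_one]

lemma iter_zeta (m : ℕ) {s : ℂ} (hs : 1 < s.re) :
    iteratedDeriv m riemannZeta s = (-1) ^ m * LSeries (logMul^[m] (1 : ℕ → ℂ)) s := by
  have h1 : iteratedDeriv m riemannZeta s = iteratedDeriv m (LSeries (1 : ℕ → ℂ)) s := by
    have ho : {z : ℂ | 1 < z.re} ∈ 𝓝 s := (isOpen_lt continuous_const Complex.continuous_re).mem_nhds hs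
    have he : riemannZeta =ᶠ[𝓝 s] LSeries (1 : ℕ → ℂ) := by
      filter_upwards [ho] with z hz
      exact (LSeries_one_eq_riemannZeta hz).symm
    exact he.iteratedDeriv_eq m
  rw [h1, LSeries_iteratedDeriv m (by rw [LSeries.abscissaOfAbsConv_one]; exact_mod_cast hs)]

lemma PD_zeta (P : Polynomial ℂ) {s : ℂ} (hs : 1 < s.re) : PD P riemannZeta s = LSeries (bb P) s := by
  unfold PD
  have hsum : ∀ j : ℕ, LSeriesSummable (logMul^[j] (1 : ℕ → ℂ)) s := fun j =>
    LSeriesSummable_of_abscissaOfAbsConv_lt_re (by rw [absc_pow]; exact_mod_cast hs)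
  have h1 : bb P = ∑ j ∈ Finset.range (P.natDegree + 1),
      (P.coeff j * (-1) ^ j) • (logMul^[j] (1 : ℕ → ℂ)) := by
    funext n
    rw [Finset.sum_apply]
    simp only [Pi.smul_apply, smul_eq_mul, logMul_iter]
    rw [bb, Polynomial.eval_eq_sum_range]
    refine Finset.sum_congr rfl fun j _ => ?_
    rw [neg_pow, mul_assoc]
  rw [h1, LSeries_sum fun j _ => (hsum j).smul _]
  refine Finset.sum_congr rfl fun j _ => ?_
  rw [LSeries_smul, iter_zeta j hs]
  ring

lemma bb_summable (P : Polynomial ℂ) {s : ℂ} (hs : 1 < s.re) : LSeriesSummable (bb P) s := by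
  have h1 : bb P = ∑ j ∈ Finset.range (P.natDegree + 1),
      (P.coeff j * (-1) ^ j) • (logMul^[j] (1 : ℕ → ℂ)) := by
    funext n
    rw [Finset.sum_apply]
    simp only [Pi.smul_apply, smul_eq_mul, logMul_iter]
    rw [bb, Polynomial.eval_eq_sum_range]
    refine Finset.sum_congr rfl fun j _ => ?_
    rw [neg_pow, mul_assoc]
  rw [h1]
  refine LSeriesSummable.sum fun j _ => ?_
  exact LSeriesSummable.smul _ (LSeriesSummable_of_abscissaOfAbsConv_lt_re (by rw [absc_pow]; exact_mod_cast hs))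

lemma bb_absc (P : Polynomial ℂ) : abscissaOfAbsConv (bb P) ≤ 1 :=
  LSeries.abscissaOfAbsConv_le_of_forall_lt_LSeriesSummable fun y hy => bb_summable P (by simpa using hy)

/-- the first coefficient dominates -/
lemma dominate {f : ℕ → ℂ} (hf : abscissaOfAbsConv f < ⊤) (h0 : f 0 = 0) (hne : ∃ n, f n ≠ 0) (σ₁ : ℝ) :
    ∃ σ m : ℝ, σ₁ ≤ σ ∧ 0 < m ∧ ∀ s : ℂ, s.re = σ → m ≤ ‖LSeries f s‖ := by
  classical
  set N := Nat.find hne with hN
  have hN1 : f N ≠ 0 := Nat.find_spec hne
  have hN2 : ∀ k < N, f k = 0 := fun k hk => by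
    by_contra h
    exact Nat.find_min hne hk h
  obtain ⟨n, hn⟩ : ∃ n, N = n + 1 := by
    rcases Nat.exists_eq_succ_of_ne_zero (n := N) (by intro h; rw [h] at hN1; exact hN1 h0) with ⟨n, hn⟩
    exact ⟨n, hn⟩
  let g : ℕ → ℂ := fun k => if n + 1 < k then ((‖f k‖ : ℝ) : ℂ) else 0
  have hgf : ∀ k, ‖g k‖ ≤ ‖f k‖ := by
    intro k
    simp only [g]
    split_ifs
    · rw [Complex.norm_real, norm_norm]
    · rw [norm_zero]; exact norm_nonneg _
  have hgsum : ∀ s : ℂ, LSeriesSummable f s → LSeriesSummable g s := by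
    intro s hs
    refine Summable.of_norm_bounded hs.norm fun k => ?_
    rw [LSeries.norm_term_eq, LSeries.norm_term_eq]
    split_ifs
    · exact le_rfl
    · have := hgf k
      gcongr
  have hg : abscissaOfAbsConv g < ⊤ := by
    refine lt_of_le_of_lt ?_ hf
    refine LSeries.abscissaOfAbsConv_le_of_forall_lt_LSeriesSummable' fun y hy => ?_
    exact hgsum _ (LSeriesSummable_of_abscissaOfAbsConv_lt_re (by simpa using hy))
  have ht := LSeries.tendsto_cpow_mul_atTop (f := g) (n := n) (fun m hm => by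
    simp only [g]; rw [if_neg (by omega)]) hg
  have hg1 : g (n + 1) = 0 := by simp [g]
  rw [hg1] at ht
  have ht2 := (tendsto_zero_iff_norm_tendsto_zero.1 ht).eventually
    (gt_mem_nhds (show 0 < ‖f N‖ / 2 by have := norm_pos_iff.2 hN1; linarith))
  obtain ⟨y, hy1, hy2⟩ := exists_between hf
  lift y to ℝ using ⟨hy2.ne, ((OrderBot.bot_le _).trans_lt hy1).ne'⟩
  obtain ⟨σ, hσ1, hσ2, hσ3⟩ := ((ht2.and ((eventually_ge_atTop σ₁).and (eventually_ge_atTop y)))).exists
  have hn0 : (0:ℝ) < (n:ℝ) + 1 := by positivity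
  have hn1 : ‖((n : ℂ) + 1) ^ (σ : ℂ)‖ = ((n:ℝ) + 1) ^ σ := by
    have : ((n : ℂ) + 1) = (((n:ℝ) + 1 : ℝ) : ℂ) := by push_cast; rfl
    rw [this, Complex.norm_cpow_eq_rpow_re_of_pos hn0, Complex.ofReal_re]
  refine ⟨σ, ‖f N‖ / 2 / ((n:ℝ) + 1) ^ σ, hσ2, ?_, ?_⟩
  · have := norm_pos_iff.2 hN1
    positivity
  intro s hs
  have hsf : LSeriesSummable f s := LSeriesSummable_of_abscissaOfAbsConv_lt_re (by
    rw [hs]; exact lt_of_lt_of_le hy1 (by exact_mod_cast hσ3))
  have hsσ : LSeriesSummable f σ := LSeriesSummable_of_abscissaOfAbsConv_lt_re (by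
    rw [Complex.ofReal_re]; exact lt_of_lt_of_le hy1 (by exact_mod_cast hσ3))
  have hgσ : LSeriesSummable g σ := hgsum _ hsσ
  have e1 : LSeries f s = term f s N + ∑' k, ite (k = N) 0 (term f s k) := by
    unfold LSeries
    exact hsf.tsum_eq_add_tsum_ite N
  have e2 : ‖term f s N‖ = ‖f N‖ / ((n:ℝ) + 1) ^ σ := by
    rw [LSeries.norm_term_eq, if_neg (by rw [hn]; omega), hs, hn]
    push_cast
    rfl
  have e3 : ∀ k, ‖ite (k = N) 0 (term f s k)‖ ≤ (term g σ k).re := by
    intro k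
    rcases lt_trichotomy k N with h | h | h
    · rw [if_neg h.ne]
      have hfk := hN2 k h
      have : term f s k = 0 := by
        rcases Nat.eq_zero_or_pos k with h' | h'
        · rw [h', LSeries.term_zero]
        · rw [LSeries.term_of_ne_zero (by omega), hfk, zero_div]
      rw [this, norm_zero]
      have h2 : g k = 0 := by simp only [g]; rw [if_neg (by omega)]
      have : term g σ k = 0 := by
        rcases Nat.eq_zero_or_pos k with h' | h'
        · rw [h', LSeries.term_zero]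
        · rw [LSeries.term_of_ne_zero (by omega), h2, zero_div]
      rw [this]
      simp
    · rw [if_pos h, norm_zero]
      have h2 : g k = 0 := by simp only [g]; rw [if_neg (by omega)]
      have : term g σ k = 0 := by
        rcases Nat.eq_zero_or_pos k with h' | h'
        · rw [h', LSeries.term_zero]
        · rw [LSeries.term_of_ne_zero (by omega), h2, zero_div]
      rw [this]
      simp
    · rw [if_neg h.ne', LSeries.norm_term_eq, if_neg (by omega), hs,
        LSeries.term_of_ne_zero (by omega)]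
      have h2 : g k = ((‖f k‖ : ℝ) : ℂ) := by simp only [g]; rw [if_pos (by omega)]
      have h3 : (k : ℂ) ^ (σ : ℂ) = (((k:ℝ) ^ σ : ℝ) : ℂ) := by
        rw [Complex.ofReal_cpow (by positivity)]
        push_cast
        rfl
      rw [h2, h3, ← Complex.ofReal_div, Complex.ofReal_re]
  have hsre : Summable fun k => (term g σ k).re := Complex.reCLM.summable hgσ
  have e4 : ‖∑' k, ite (k = N) 0 (term f s k)‖ ≤ ∑' k, (term g σ k).re :=
    tsum_of_norm_bounded hsre.hasSum e3
  have e5 : ∑' k, (term g σ k).re ≤ ‖LSeries g σ‖ := by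
    have : ∑' k, (term g σ k).re = (LSeries g σ).re := by
      unfold LSeries
      exact (Complex.re_tsum hgσ).symm
    rw [this]
    exact Complex.re_le_norm _
  have e6 : ‖LSeries g σ‖ ≤ ‖f N‖ / 2 / ((n:ℝ) + 1) ^ σ := by
    have h7 := hσ1.le
    rw [norm_mul, hn1] at h7
    rw [le_div_iff₀ (by positivity)]
    linarith
  have e7 : ‖term f s N‖ ≤ ‖LSeries f s‖ + ‖∑' k, ite (k = N) 0 (term f s k)‖ := by
    have : term f s N = LSeries f s - ∑' k, ite (k = N) 0 (term f s k) := by rw [e1]; ring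
    rw [this]
    exact norm_sub_le _ _
  rw [e2] at e7
  have e8 : ‖f N‖ / ((n:ℝ) + 1) ^ σ = ‖f N‖ / 2 / ((n:ℝ) + 1) ^ σ + ‖f N‖ / 2 / ((n:ℝ) + 1) ^ σ := by ring
  linarith

/-- the derivative of `P(d/ds) ζ` far to the right -/
lemma deriv_lower (P : Polynomial ℂ) (hP : P ≠ 0) (σ₁ : ℝ) :
    ∃ σ m : ℝ, σ₁ ≤ σ ∧ 2 ≤ σ ∧ 0 < m ∧ ∀ s : ℂ, s.re = σ → m ≤ ‖deriv (PD P riemannZeta) s‖ := by
  have hab : abscissaOfAbsConv (logMul (bb P)) < ⊤ := by
    rw [LSeries.abscissaOfAbsConv_logMul]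
    exact lt_of_le_of_lt (bb_absc P) (by exact_mod_cast EReal.coe_lt_top 1)
  have hne : ∃ n, logMul (bb P) n ≠ 0 := by
    by_contra hcon
    push Not at hcon
    have hroot : ∀ n : ℕ, 2 ≤ n → P.eval (-Complex.log n) = 0 := by
      intro n hn
      have h1 := hcon n
      simp only [logMul] at h1
      rcases mul_eq_zero.1 h1 with h | h
      · exfalso
        have h2 : Complex.log (n : ℂ) = ((Real.log n : ℝ) : ℂ) := Complex.natCast_log.symm
        rw [h2] at h
        have h3 : Real.log n = 0 := by exact_mod_cast h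
        have h4 : 0 < Real.log n := Real.log_pos (by exact_mod_cast hn)
        linarith
      · exact h
    apply hP
    refine Polynomial.eq_zero_of_infinite_isRoot P ?_
    have hinj : Function.Injective (fun n : ℕ => -Complex.log ((n + 2 : ℕ) : ℂ)) := by
      intro a b hab
      have h1 : Complex.log ((a + 2 : ℕ) : ℂ) = Complex.log ((b + 2 : ℕ) : ℂ) := neg_injective hab
      have h2 : ((a + 2 : ℕ) : ℂ) = ((b + 2 : ℕ) : ℂ) := by
        have := congrArg Complex.exp h1
        rwa [Complex.exp_log (by exact_mod_cast (by omega : a + 2 ≠ 0)),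
          Complex.exp_log (by exact_mod_cast (by omega : b + 2 ≠ 0))] at this
      have h3 : a + 2 = b + 2 := by exact_mod_cast h2
      omega
    refine (Set.infinite_range_of_injective hinj).mono ?_
    rintro z ⟨n, rfl⟩
    exact hroot (n + 2) (by omega)
  obtain ⟨σ, m, h1, h2, h3⟩ := dominate hab (by simp [logMul]) hne (max σ₁ 2)
  refine ⟨σ, m, (le_max_left _ _).trans h1, (le_max_right _ _).trans h1, h2, fun s hs => ?_⟩
  have hs1 : 1 < s.re := by rw [hs]; linarith [(le_max_right σ₁ 2).trans h1]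
  have h4 : deriv (PD P riemannZeta) s = deriv (LSeries (bb P)) s := by
    apply Filter.EventuallyEq.deriv_eq
    have ho : {z : ℂ | 1 < z.re} ∈ 𝓝 s := (isOpen_lt continuous_const Complex.continuous_re).mem_nhds hs1
    filter_upwards [ho] with z hz
    exact PD_zeta P hz
  rw [h4, LSeries_deriv (lt_of_le_of_lt (bb_absc P) (by exact_mod_cast hs1)), norm_neg]
  exact h3 s hs

/-- `P(d/ds) ζ` is bounded far to the right -/
lemma PD_right_bound (P : Polynomial ℂ) : ∃ A : ℝ, 1 ≤ A ∧ ∀ s : ℂ, 2 ≤ s.re → ‖PD P riemannZeta s‖ ≤ A := by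
  obtain ⟨A, hA1, hA⟩ := DH31.zeta_bounds (a := 3 / 2) (by norm_num)
  refine ⟨1 + CP P (1 / 2) * A, ?_, ?_⟩
  · have := CP_nonneg P (ρ := 1 / 2) (by norm_num)
    have : 0 ≤ CP P (1 / 2) * A := by positivity
    linarith
  intro s hs
  have hz : ∀ z ∈ closedBall s (1 / 2), 3 / 2 ≤ z.re := by
    intro z hz
    have h1 := Complex.abs_re_le_norm (z - s)
    rw [mem_closedBall, dist_eq_norm] at hz
    have h2 := abs_le.1 (h1.trans hz)
    rw [Complex.sub_re] at h2
    linarith
  have h := PD_bound P (f := riemannZeta) (s := s) (ρ := 1 / 2) (M := A) (by norm_num)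
    (fun z h => differentiableAt_riemannZeta (by
      intro h1
      have := hz z h
      rw [h1] at this
      norm_num at this))
    (fun z h => (hA z (hz z h)).1)
  linarith

/-- points at which `P(d/ds) ζ - a` is not small -/
lemma centre (P : Polynomial ℂ) (hP : P ≠ 0) (σ₁ ρ : ℝ) (hρ : 0 < ρ) (hρ1 : ρ ≤ 1) :
    ∃ σ m : ℝ, σ₁ ≤ σ ∧ 3 ≤ σ ∧ 0 < m ∧ ∀ (t : ℝ) (a : ℂ), ∃ c : ℂ, ‖c - ⟨σ, t⟩‖ ≤ ρ ∧
      m ≤ ‖PD P riemannZeta c - a‖ := by
  obtain ⟨σ, m, h1, -, h3, h4⟩ := deriv_lower P hP (max σ₁ 3)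
  have h13 : 3 ≤ σ := (le_max_right _ _).trans h1
  refine ⟨σ, m * ρ / 2, (le_max_left _ _).trans h1, h13, by positivity, fun t a => ?_⟩
  by_contra hcon
  push Not at hcon
  have hre : ∀ z ∈ closedBall (⟨σ, t⟩ : ℂ) ρ, 2 ≤ z.re := by
    intro z hz
    have h1 := Complex.abs_re_le_norm (z - ⟨σ, t⟩)
    rw [mem_closedBall, dist_eq_norm] at hz
    have h2 := abs_le.1 (h1.trans hz)
    rw [Complex.sub_re] at h2
    have : (⟨σ, t⟩ : ℂ).re = σ := rfl
    linarith
  have han : ∀ z ∈ closedBall (⟨σ, t⟩ : ℂ) ρ, AnalyticAt ℂ (PD P riemannZeta) z := by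
    intro z hz
    apply PD_analytic
    have h2 := hre z hz
    have hd : DifferentiableOn ℂ riemannZeta ({1}ᶜ : Set ℂ) := fun z hz =>
      (differentiableAt_riemannZeta hz).differentiableWithinAt
    refine hd.analyticAt (isOpen_compl_singleton.mem_nhds ?_)
    intro h
    rw [mem_singleton_iff] at h
    rw [h] at h2
    norm_num at h2
  have h5 := Complex.norm_deriv_le_of_forall_mem_sphere_norm_le (c := (⟨σ, t⟩ : ℂ)) (R := ρ)
    (C := m * ρ / 2) (f := fun z => PD P riemannZeta z - a) hρ (by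
      apply DifferentiableOn.diffContOnCl
      rw [closure_ball _ hρ.ne']
      intro z hz
      exact ((han z hz).differentiableAt.sub_const a).differentiableWithinAt) (by
      intro z hz
      rw [mem_sphere, dist_eq_norm] at hz
      exact (hcon z hz.le).le)
  have h6 := h4 ⟨σ, t⟩ rfl
  rw [deriv_sub_const] at h5
  have h7 : m * ρ / 2 / ρ = m / 2 := by field_simp
  rw [h7] at h5
  linarith

end Pool.Agent.V7H88.BS
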