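import Mathlib
import Pool.Agent.V7H88.BS.D

/-!
The values of `P(d/ds) ζ` to the right of the critical line.
-/

set_option autoImplicit false
set_option maxHeartbeats 4000000

open Complex Filter Topology Metric Set
open H370

namespace Pool.Agent.V7H88.BS

lemma ev_rpow (K : ℝ) {p : ℝ} (hp : 0 < p) : ∀ᶠ T : ℝ in atTop, K ≤ T ^ p :=
  (tendsto_rpow_atTop hp).eventually_ge_atTop K

lemma ev_log (K : ℝ) : ∀ᶠ T : ℝ in atTop, K ≤ Real.log T :=
  Real.tendsto_log_atTop.eventually_ge_atTop K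

lemma norm_le_of_sq {w : ℂ} {ρ : ℝ} (hρ : 0 ≤ ρ) (h : w.re ^ 2 + w.im ^ 2 ≤ ρ ^ 2) : ‖w‖ ≤ ρ := by
  have h1 : ‖w‖ ^ 2 = w.re ^ 2 + w.im ^ 2 := by
    rw [Complex.sq_norm, Complex.normSq_apply]; ring
  rw [← h1] at h
  exact le_of_sq_le_sq h hρ

lemma ball_coord {c z : ℂ} {r : ℝ} (hz : z ∈ closedBall c r) :
    |z.re - c.re| ≤ r ∧ |z.im - c.im| ≤ r := by
  rw [mem_closedBall, dist_eq_norm] at hz
  have h1 := Complex.abs_re_le_norm (z - c)
  have h2 := Complex.abs_im_le_norm (z - c)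
  rw [Complex.sub_re] at h1
  rw [Complex.sub_im] at h2
  exact ⟨h1.trans hz, h2.trans hz⟩

/-- crude growth of `P(d/ds) ζ` -/
lemma PD_growth (P : Polynomial ℂ) : ∃ C : ℝ, 1 ≤ C ∧ ∀ s : ℂ, 1 / 2 ≤ s.re → 2 ≤ s.im →
    ‖PD P riemannZeta s‖ ≤ C * (1 + ‖s‖) := by
  refine ⟨1 + CP P (1 / 4) * 6, ?_, fun s h1 h2 => ?_⟩
  · have := CP_nonneg P (ρ := 1 / 4) (by norm_num)
    linarith
  have hco : ∀ z ∈ closedBall s (1 / 4), 1 / 4 ≤ z.re ∧ 1 ≤ z.im := by
    intro z hz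
    obtain ⟨h3, h4⟩ := ball_coord hz
    have h3' := abs_le.1 h3
    have h4' := abs_le.1 h4
    constructor <;> linarith
  have h := PD_bound P (f := riemannZeta) (s := s) (ρ := 1 / 4) (M := 6 * (1 + ‖s‖)) (by norm_num)
    (fun z hz => zeta_diff (hco z hz).2) (by
      intro z hz
      refine (Pool.Agent.H388LH.zeta_growth (hco z hz).1 (hco z hz).2).trans ?_
      have h5 : ‖z‖ ≤ ‖s‖ + 1 / 4 := by
        rw [mem_closedBall, dist_eq_norm] at hz
        calc ‖z‖ = ‖s + (z - s)‖ := by congr 1; ring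
          _ ≤ ‖s‖ + ‖z - s‖ := norm_add_le _ _
          _ ≤ _ := by linarith
      linarith)
  have h6 : 0 ≤ 1 + ‖s‖ := by positivity
  calc ‖PD P riemannZeta s‖ ≤ CP P (1 / 4) * (6 * (1 + ‖s‖)) := h
    _ ≤ _ := by nlinarith

/-- from `P(d/ds) ζ` on the right of the critical line to `ζ` on the line -/
lemma right_inv (P : Polynomial ℂ) (hP : P ≠ 0) {y σ : ℝ} (hy : 0 < y) (hy1 : y ≤ 1 / 20) (hσ : 3 ≤ σ) :
    ∃ C : ℝ, 1 ≤ C ∧ ∀ T G : ℝ, 4 ≤ T → 1 ≤ G →
      (∀ s : ℂ, 1 / 2 + y ≤ s.re → s.re ≤ σ → |s.im - T| ≤ 1 → ‖PD P riemannZeta s‖ ≤ G) →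
      ‖riemannZeta ⟨1 / 2, T⟩‖ ≤ C * T ^ (3 / 5 * y) * G := by
  obtain ⟨C₁, hC₁, hinv⟩ := invert P hP (ℓ := σ) (by linarith)
  obtain ⟨C₂, hC₂, h3⟩ := three_lines
  obtain ⟨A, hA1, hA⟩ := DH31.zeta_bounds (a := 3 / 2) (by norm_num)
  set Y : ℝ := ∑ j ∈ Finset.range (P.natDegree + 1), (j.factorial : ℝ) / (1 / 2) ^ j * A with hY
  have hY0 : 0 ≤ Y := Finset.sum_nonneg fun _ _ => by positivity
  refine ⟨1 + C₂ * (1 + C₁ * (Y + 1)), by nlinarith [mul_pos hC₁ (by linarith : 0 < Y + 1)], ?_⟩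
  intro T G hT hG h
  have hmain : ∀ t : ℝ, |t - T| ≤ 1 → ‖riemannZeta ⟨1 / 2 + y, t⟩‖ ≤ (1 + C₁ * (Y + 1)) * G := by
    intro t ht
    have ht' := abs_le.1 ht
    have hseg : ∀ x : ℝ, (⟨σ, t⟩ : ℂ) + x * ((⟨1 / 2 + y, t⟩ : ℂ) - ⟨σ, t⟩) =
        ⟨σ + x * (1 / 2 + y - σ), t⟩ := by
      intro x
      apply Complex.ext
      · simp
      · simp
    have hnorm : ‖(⟨1 / 2 + y, t⟩ : ℂ) - ⟨σ, t⟩‖ ≤ σ := by
      apply norm_le_of_sq (by linarith)
      simp only [Complex.sub_re, Complex.sub_im]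
      nlinarith
    have h4 := hinv riemannZeta ⟨σ, t⟩ ⟨1 / 2 + y, t⟩ Y G hnorm hY0 (by linarith)
      (by
        intro x hx
        rw [hseg]
        exact zeta_an (by show 1 ≤ t; linarith))
      (by
        intro j hj
        have h5 := iter_bound (f := riemannZeta) (s := (⟨σ, t⟩ : ℂ)) (ρ := 1 / 2) (M := A) (by norm_num)
          (fun z hz => zeta_diff (by
            have := (abs_le.1 (ball_coord hz).2).1
            have e : (⟨σ, t⟩ : ℂ).im = t := rfl
            rw [e] at this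
            linarith))
          (fun z hz => (hA z (by
            have := (abs_le.1 (ball_coord hz).1).1
            have e : (⟨σ, t⟩ : ℂ).re = σ := rfl
            rw [e] at this
            linarith)).1) j
        refine h5.trans ?_
        exact Finset.single_le_sum (f := fun j : ℕ => (j.factorial : ℝ) / (1 / 2) ^ j * A)
          (fun _ _ => by positivity) (Finset.mem_range.2 (by omega)))
      (by
        intro x hx
        rw [hseg]
        refine h _ ?_ ?_ ht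
        · show 1 / 2 + y ≤ σ + x * (1 / 2 + y - σ)
          nlinarith [hx.1, hx.2]
        · show σ + x * (1 / 2 + y - σ) ≤ σ
          nlinarith [hx.1, hx.2])
    refine h4.trans ?_
    have h5 : Y + G ≤ (Y + 1) * G := by nlinarith
    calc C₁ * (Y + G) ≤ C₁ * ((Y + 1) * G) := by gcongr
      _ ≤ (1 + C₁ * (Y + 1)) * G := by nlinarith
  have hB : 1 ≤ (1 + C₁ * (Y + 1)) * G := by
    have : 0 ≤ C₁ * (Y + 1) := by positivity
    nlinarith
  have h6 := h3 y T ((1 + C₁ * (Y + 1)) * G) hy hy1 hT hB hmain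
  refine h6.trans ?_
  have h7 : 0 ≤ T ^ (3 / 5 * y) := by positivity
  have h8 : 0 ≤ T ^ (3 / 5 * y) * G := by positivity
  nlinarith

/-- zero free discs far to the right -/
lemma free_disc (P : Polynomial ℂ) (m : ℝ) (hm : 0 < m) : ∃ l : ℝ, 0 < l ∧ l ≤ 1 / 4 ∧
    ∀ (c a : ℂ), 5 / 2 + 1 / 4 ≤ c.re → m ≤ ‖PD P riemannZeta c - a‖ →
      ∀ z ∈ ball c l, PD P riemannZeta z - a ≠ 0 := by
  obtain ⟨A, hA1, hA⟩ := PD_right_bound P
  refine ⟨min (1 / 4) (m / (4 * A)), lt_min (by norm_num) (by positivity), min_le_left _ _, ?_⟩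
  intro c a hc hm' z hz h0
  set l := min (1 / 4) (m / (4 * A)) with hl
  have hl1 : l ≤ 1 / 4 := min_le_left _ _
  have hl2 : l ≤ m / (4 * A) := min_le_right _ _
  have han : ∀ w : ℂ, 2 ≤ w.re → AnalyticAt ℂ (PD P riemannZeta) w := by
    intro w hw
    apply PD_analytic
    have hd : DifferentiableOn ℂ riemannZeta ({1}ᶜ : Set ℂ) := fun z hz =>
      (differentiableAt_riemannZeta hz).differentiableWithinAt
    refine hd.analyticAt (isOpen_compl_singleton.mem_nhds ?_)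
    intro h
    rw [mem_singleton_iff] at h
    rw [h] at hw
    norm_num at hw
  have hre : ∀ w ∈ ball c l, 5 / 2 ≤ w.re := by
    intro w hw
    have h1 := (abs_le.1 (ball_coord (ball_subset_closedBall hw)).1).1
    linarith
  have hder : ∀ w ∈ ball c l, ‖deriv (PD P riemannZeta) w‖ ≤ 2 * A := by
    intro w hw
    have hw' := hre w hw
    have hco : ∀ u ∈ closedBall w (1 / 2), 2 ≤ u.re := by
      intro u hu
      have h1 := (abs_le.1 (ball_coord hu).1).1
      linarith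
    have h1 := Complex.norm_deriv_le_of_forall_mem_sphere_norm_le (c := w) (R := 1 / 2)
      (C := A) (f := PD P riemannZeta) (by norm_num) (by
        apply DifferentiableOn.diffContOnCl
        rw [closure_ball _ (by norm_num)]
        intro u hu
        exact (han u (hco u hu)).differentiableAt.differentiableWithinAt)
      (fun u hu => hA u (hco u (sphere_subset_closedBall hu)))
    linarith
  have hlpos : 0 < l := lt_min (by norm_num) (by positivity)
  have h1 := (convex_ball c l).norm_image_sub_le_of_norm_deriv_le (f := PD P riemannZeta) (C := 2 * A)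
    (fun w hw => (han w (by linarith [hre w hw])).differentiableAt) hder (mem_ball_self hlpos) hz
  have h2 : PD P riemannZeta c - a = -(PD P riemannZeta z - PD P riemannZeta c) := by
    have : a = PD P riemannZeta z := by linear_combination -h0
    rw [this]; ring
  rw [h2, norm_neg] at hm'
  have h3 : ‖z - c‖ < l := by rwa [mem_ball, dist_eq_norm] at hz
  have h4 : 2 * A * ‖z - c‖ ≤ 2 * A * (m / (4 * A)) := by gcongr; linarith
  have h5 : 2 * A * (m / (4 * A)) = m / 2 := by field_simp; norm_num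
  linarith

/-- **many values to the right of the critical line** -/
theorem right_many (P : Polynomial ℂ) (hP : P ≠ 0) {κ : ℝ} (hκ : 0 < κ) :
    ∃ η : ℝ, 0 < η ∧ η ≤ 1 ∧ ∀ᶠ T : ℝ in atTop, T ^ κ ≤ ‖riemannZeta ⟨1 / 2, T⟩‖ →
      ∀ a : ℂ, ‖a‖ ≤ T ^ η → ∃ S : Finset ℂ,
        (∀ s ∈ S, 1 / 2 + η ≤ s.re ∧ s.re ≤ 1 / η ∧ |s.im - T| ≤ 1 / η ∧ PD P riemannZeta s = a) ∧
        η * Real.log T ≤ ∑ s ∈ S, (mult (fun z => PD P riemannZeta z - a) s : ℝ) := by
  set y : ℝ := min (1 / 20) (κ / 3) with hy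
  have hy0 : 0 < y := lt_min (by norm_num) (by positivity)
  have hy1 : y ≤ 1 / 20 := min_le_left _ _
  have hy2 : y ≤ κ / 3 := min_le_right _ _
  set ε : ℝ := κ / 8 with hε
  have hε0 : 0 < ε := by positivity
  obtain ⟨σ, m, hσ1, hσ3, hm, hcen⟩ := centre P hP (2 + 3 / y) (y / 16) (by positivity) (by linarith)
  obtain ⟨C, hC1, hinv⟩ := right_inv P hP hy0 hy1 hσ3
  obtain ⟨l, hl0, hl1, hfree⟩ := free_disc P m hm
  obtain ⟨A, hA1, hA⟩ := PD_right_bound P
  obtain ⟨C', hC'1, hgr⟩ := PD_growth P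
  have hσy : 3 ≤ (σ - 2) * y := by
    have : 3 / y ≤ σ - 2 := by linarith
    rwa [div_le_iff₀ hy0] at this
  set R : ℝ := σ - 1 / 2 - y / 2 - y / 16 with hR
  set r : ℝ := σ - 1 / 2 - 5 * y / 8 with hr
  obtain ⟨ηb, L₀, hηb, hL₀, hback⟩ := backlund (R := R) (r := r) (l := l) (B := 3) (ε := ε) hl0
    (by rw [hr]; linarith) (by rw [hr, hR]; linarith) (by norm_num) hε0
  set η : ℝ := min (min (y / 2) (ηb / 2)) (min ε (1 / (2 * σ + 3))) with hη
  have hη0 : 0 < η := lt_min (lt_min (by positivity) (by positivity)) (lt_min hε0 (by positivity))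
  have hηy : η ≤ y / 2 := (min_le_left _ _).trans (min_le_left _ _)
  have hηb2 : η ≤ ηb / 2 := (min_le_left _ _).trans (min_le_right _ _)
  have hηε : η ≤ ε := (min_le_right _ _).trans (min_le_left _ _)
  have hησ : η ≤ 1 / (2 * σ + 3) := (min_le_right _ _).trans (min_le_right _ _)
  have hσ0 : 0 < 2 * σ + 3 := by linarith
  have h1η : 2 * σ + 3 ≤ 1 / η := by
    rw [le_div_iff₀ hη0]
    rw [le_div_iff₀ hσ0] at hησ
    linarith
  refine ⟨η, hη0, by linarith, ?_⟩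
  filter_upwards [ev_log L₀, eventually_ge_atTop (4 * σ + 10), ev_rpow (2 * C' + 2) (p := 1) one_pos,
    ev_rpow (A + 1) (p := ηb / 2) (by positivity), ev_rpow (1 / m) hηb,
    ev_rpow (2 * C + 1) (p := κ / 2) (by positivity)] with T hL hT hT1 hTA hTm hTC hlarge a ha
  rw [Real.rpow_one] at hT1
  have hT0 : 0 < T := by linarith
  have hT4 : 4 ≤ T := by linarith
  have hT1' : 1 ≤ T := by linarith
  set L := Real.log T with hLdef
  have hLpos : 0 < L := Real.log_pos (by linarith)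
  by_contra hcon
  push Not at hcon
  have hTη : T ^ η ≤ T ^ (ηb / 2) := Real.rpow_le_rpow_of_exponent_le hT1' hηb2
  have hTηε : T ^ η ≤ T ^ ε := Real.rpow_le_rpow_of_exponent_le hT1' hηε
  have hTη1 : T ^ η ≤ T := by
    calc T ^ η ≤ T ^ (1:ℝ) := Real.rpow_le_rpow_of_exponent_le hT1' (by linarith)
      _ = T := Real.rpow_one T
  obtain ⟨c, hc1, hc2⟩ := hcen T a
  have hcc := ball_coord (c := (⟨σ, T⟩ : ℂ)) (z := c) (r := y / 16) (by
    rw [mem_closedBall, dist_eq_norm]; exact hc1)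
  have hcre := abs_le.1 hcc.1
  have hcim := abs_le.1 hcc.2
  have e1 : (⟨σ, T⟩ : ℂ).re = σ := rfl
  have e2 : (⟨σ, T⟩ : ℂ).im = T := rfl
  rw [e1] at hcre
  rw [e2] at hcim
  -- the big disc
  have hbig : ∀ z ∈ closedBall c R, 1 / 2 + y / 2 ≤ z.re ∧ z.re ≤ 2 * σ + 1 ∧ |z.im - T| ≤ σ + 1 ∧
      2 ≤ z.im := by
    intro z hz
    obtain ⟨h1, h2⟩ := ball_coord hz
    have h1' := abs_le.1 h1
    have h2' := abs_le.1 h2
    refine ⟨by linarith, by linarith, ?_, by linarith⟩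
    rw [abs_le]; constructor <;> linarith
  have key := hback (fun z => PD P riemannZeta z - a) c L hL
    (fun z hz => (PD_analytic P (zeta_an (by linarith [(hbig z hz).2.2.2]))).sub analyticAt_const)
    (by
      intro z hz
      obtain ⟨h1, h2, h3, h4⟩ := hbig z hz
      have h3' := abs_le.1 h3
      have h5 := hgr z (by linarith) h4
      have h6 : ‖z‖ ≤ 2 * T := by
        refine (Complex.norm_le_abs_re_add_abs_im z).trans ?_
        rw [abs_of_nonneg (by linarith), abs_of_nonneg (by linarith)]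
        linarith
      have h7 : Real.exp (3 * L) = T ^ 3 := by
        rw [show (3:ℝ) * L = ((3:ℕ):ℝ) * L by norm_num, Real.exp_nat_mul, hLdef, Real.exp_log hT0]
      rw [h7]
      calc ‖PD P riemannZeta z - a‖ ≤ ‖PD P riemannZeta z‖ + ‖a‖ := norm_sub_le _ _
        _ ≤ C' * (1 + 2 * T) + T := by
            refine add_le_add (h5.trans ?_) (ha.trans hTη1)
            gcongr
        _ ≤ T ^ 3 := rd1 hC'1 hT1)
    (by
      intro z hz
      have h1 := (abs_le.1 (ball_coord hz).1).1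
      have h2 := hA z (by linarith)
      have h3 : Real.exp (ηb * L) = T ^ (ηb / 2) * T ^ (ηb / 2) := by
        rw [← Real.rpow_add hT0, rpow_eq_exp hT0]; congr 1; ring
      rw [h3]
      have h4 : 1 ≤ T ^ (ηb / 2) := by linarith
      calc ‖PD P riemannZeta z - a‖ ≤ ‖PD P riemannZeta z‖ + ‖a‖ := norm_sub_le _ _
        _ ≤ A + T ^ (ηb / 2) := add_le_add h2 (ha.trans hTη)
        _ ≤ (A + 1) * T ^ (ηb / 2) := rd2 hA1 h4
        _ ≤ T ^ (ηb / 2) * T ^ (ηb / 2) := by gcongr)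
    (by
      have h1 : Real.exp (-(ηb * L)) = (T ^ ηb)⁻¹ := by
        rw [rpow_eq_exp hT0, Real.exp_neg]
      rw [h1]
      have h2 : 0 < T ^ ηb := by positivity
      have h3 : (T ^ ηb)⁻¹ ≤ m := by
        rw [inv_le_comm₀ h2 hm, ← one_div]
        exact hTm
      exact h3.trans hc2)
    (hfree c a (by linarith) hc2)
    (by
      intro S hS
      have h1 := hcon S (by
        intro s hs
        obtain ⟨h2, h3⟩ := hS s hs
        obtain ⟨h4, h5, h6, h7⟩ := hbig s h2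
        refine ⟨by linarith, by linarith, by linarith, ?_⟩
        exact sub_eq_zero.1 h3)
      have h2 : η * L ≤ ηb * L := by
        apply mul_le_mul_of_nonneg_right _ hLpos.le
        linarith
      exact h1.le.trans h2)
  have hGb : ∀ s : ℂ, 1 / 2 + y ≤ s.re → s.re ≤ σ → |s.im - T| ≤ 1 →
      ‖PD P riemannZeta s‖ ≤ 2 * T ^ ε := by
    intro s hs1 hs2 hs3
    have hs3' := abs_le.1 hs3
    have hin : s ∈ closedBall c r := by
      rw [mem_closedBall, dist_eq_norm]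
      have h1 : ‖s - ⟨σ, T⟩‖ ≤ r - y / 16 := by
        apply norm_le_of_sq (by rw [hr]; linarith)
        rw [Complex.sub_re, Complex.sub_im, e1, e2, hr]
        exact rd3 hy0 hy1 hσ3 hσy hs1 hs2 hs3'.1 hs3'.2
      calc ‖s - c‖ = ‖(s - ⟨σ, T⟩) - (c - ⟨σ, T⟩)‖ := by congr 1; ring
        _ ≤ ‖s - ⟨σ, T⟩‖ + ‖c - ⟨σ, T⟩‖ := norm_sub_le _ _
        _ ≤ r := by linarith
    have h1 := key s hin
    have h2 : Real.exp (ε * L) = T ^ ε := by rw [rpow_eq_exp hT0]
    rw [h2] at h1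
    calc ‖PD P riemannZeta s‖ = ‖(PD P riemannZeta s - a) + a‖ := by congr 1; ring
      _ ≤ ‖PD P riemannZeta s - a‖ + ‖a‖ := norm_add_le _ _
      _ ≤ T ^ ε + T ^ ε := add_le_add h1 (ha.trans hTηε)
      _ = 2 * T ^ ε := by ring
  have hTε1 : 1 ≤ T ^ ε := Real.one_le_rpow hT1' hε0.le
  have hfin := hinv T (2 * T ^ ε) hT4 (by linarith) hGb
  have h1 : T ^ (3 / 5 * y) * T ^ ε ≤ T ^ (κ / 2) := by
    rw [← Real.rpow_add hT0]
    apply Real.rpow_le_rpow_of_exponent_le hT1'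
    rw [hε]; linarith
  have h2 : ‖riemannZeta ⟨1 / 2, T⟩‖ ≤ 2 * C * T ^ (κ / 2) := by
    calc _ ≤ C * T ^ (3 / 5 * y) * (2 * T ^ ε) := hfin
      _ = 2 * C * (T ^ (3 / 5 * y) * T ^ ε) := by ring
      _ ≤ _ := by gcongr
  have h3 : T ^ κ = T ^ (κ / 2) * T ^ (κ / 2) := by rw [← Real.rpow_add hT0]; congr 1; ring
  have h4 : 0 < T ^ (κ / 2) := by positivity
  have h5 : 2 * C * T ^ (κ / 2) < T ^ κ := by
    rw [h3]
    apply mul_lt_mul_of_pos_right _ h4
    linarith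
  linarith

/-- **few values to the right of the critical line** -/
theorem right_few (P : Polynomial ℂ) (hP : P ≠ 0) {δ θ : ℝ} (B : ℝ) (hδ : 0 < δ) (hδ1 : δ ≤ 1) (hθ : 0 < θ) :
    ∃ κ H : ℝ, 0 < κ ∧ κ ≤ 1 ∧ 0 < H ∧ ∀ᶠ T : ℝ in atTop,
      (∀ t : ℝ, |t - T| ≤ H → ‖riemannZeta ⟨1 / 2, t⟩‖ ≤ T ^ κ) →
      ∀ (a : ℂ) (S : Finset ℂ),
        (∀ s ∈ S, 1 / 2 + δ ≤ s.re ∧ s.re ≤ B ∧ |s.im - T| ≤ 1 ∧ PD P riemannZeta s = a) →
        ∑ s ∈ S, (mult (fun z => PD P riemannZeta z - a) s : ℝ) ≤ θ * Real.log T := by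
  obtain ⟨σ, m, hσ1, hσ3, hm, hcen⟩ := centre P hP (max B 0 + 2 + 3 / δ) (δ / 16) (by positivity)
    (by linarith)
  have hσB : B ≤ σ := by
    have := le_max_left B 0
    have : 0 < 3 / δ := by positivity
    linarith
  have hσδ : 3 ≤ (σ - 2) * δ := by
    have := le_max_right B 0
    have : 3 / δ ≤ σ - 2 := by linarith
    rwa [div_le_iff₀ hδ] at this
  set R : ℝ := σ - 1 / 2 - δ / 2 with hR
  set r : ℝ := σ - 1 / 2 - 3 * δ / 4 with hr
  have hr0 : 0 < r := by rw [hr]; linarith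
  have hrR : r < R := by rw [hr, hR]; linarith
  set q : ℝ := Real.log (R / r) with hq
  have hq0 : 0 < q := Real.log_pos (by rw [lt_div_iff₀ hr0]; linarith)
  set κ : ℝ := min 1 (θ * q / 4) with hκ
  have hκ0 : 0 < κ := lt_min one_pos (by positivity)
  have hκ1 : κ ≤ 1 := min_le_left _ _
  have hκ2 : κ ≤ θ * q / 4 := min_le_right _ _
  obtain ⟨H, T₁, hH, hT₁, hsm⟩ := right_small (κ := κ) (V := σ + 3) hκ0 hκ1 (by linarith)
  set D : ℝ := CP P (δ / 4) with hD
  have hD0 : 0 ≤ D := CP_nonneg P (by positivity)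
  set K : ℝ := 2 * (1 + D) with hK
  refine ⟨κ, H, hκ0, hκ1, by linarith, ?_⟩
  filter_upwards [eventually_ge_atTop T₁, eventually_ge_atTop (2 * σ + 10),
    ev_log (2 * |Real.log (K / m)| / (θ * q))] with T hTT hT hL hsmall a S hS
  have hT0 : 0 < T := by linarith
  have hT1' : 1 ≤ T := by linarith
  have hz := hsm T hTT hsmall
  set L := Real.log T with hLdef
  have hLpos : 0 < L := Real.log_pos (by linarith)
  rcases S.eq_empty_or_nonempty with rfl | ⟨s₀, hs₀⟩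
  · simp only [Finset.sum_empty]
    positivity
  -- upper bound for `P(d/ds) ζ`
  have hup : ∀ z : ℂ, 1 / 2 + 7 * δ / 16 ≤ z.re → |z.im - T| ≤ σ + 2 → ‖PD P riemannZeta z‖ ≤ D * T ^ (2 * κ) := by
    intro z h1 h2
    have h2' := abs_le.1 h2
    refine PD_bound P (by positivity) (fun w hw => ?_) (fun w hw => ?_)
    · have h3 := abs_le.1 (ball_coord hw).2
      exact zeta_diff (by linarith)
    · have h3 := abs_le.1 (ball_coord hw).2
      have h4 := abs_le.1 (ball_coord hw).1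
      refine hz w (by linarith) ?_
      rw [abs_le]; constructor <;> linarith
  have ha : ‖a‖ ≤ D * T ^ (2 * κ) := by
    obtain ⟨h1, h2, h3, h4⟩ := hS s₀ hs₀
    rw [← h4]
    exact hup s₀ (by linarith) (by linarith)
  obtain ⟨c, hc1, hc2⟩ := hcen T a
  have hcc := ball_coord (c := (⟨σ, T⟩ : ℂ)) (z := c) (r := δ / 16) (by
    rw [mem_closedBall, dist_eq_norm]; exact hc1)
  have hcre := abs_le.1 hcc.1
  have hcim := abs_le.1 hcc.2
  have e1 : (⟨σ, T⟩ : ℂ).re = σ := rfl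
  have e2 : (⟨σ, T⟩ : ℂ).im = T := rfl
  rw [e1] at hcre
  rw [e2] at hcim
  have hbig : ∀ z ∈ closedBall c R, 1 / 2 + 7 * δ / 16 ≤ z.re ∧ |z.im - T| ≤ σ + 2 := by
    intro z hz
    obtain ⟨h1, h2⟩ := ball_coord hz
    have h1' := abs_le.1 h1
    have h2' := abs_le.1 h2
    refine ⟨by linarith, ?_⟩
    rw [abs_le]; constructor <;> linarith
  have hT2κ : 1 ≤ T ^ (2 * κ) := Real.one_le_rpow hT1' (by positivity)
  set M : ℝ := K * T ^ (2 * κ) with hM
  have hfc : PD P riemannZeta c - a ≠ 0 := by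
    intro h
    rw [h, norm_zero] at hc2
    linarith
  have hj := H370.Loc.jensen_mult (f := fun z => PD P riemannZeta z - a) (c := c) (r := r) (R := R) (M := M)
    hr0 hrR (by rw [hM, hK]; exact rd5 hD0 hT2κ)
    (fun z hz => (PD_analytic P (zeta_an (by
      have := abs_le.1 (hbig z hz).2
      linarith))).sub analyticAt_const) hfc
    (by
      intro z hz
      have h1 := hup z (hbig z hz).1 (hbig z hz).2
      calc ‖PD P riemannZeta z - a‖ ≤ ‖PD P riemannZeta z‖ + ‖a‖ := norm_sub_le _ _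
        _ ≤ D * T ^ (2 * κ) + D * T ^ (2 * κ) := add_le_add h1 ha
        _ ≤ M := by rw [hM, hK]; exact rd6 hT2κ)
    S (by
      intro s hs
      obtain ⟨h1, h2, h3, h4⟩ := hS s hs
      have h3' := abs_le.1 h3
      rw [mem_closedBall, dist_eq_norm]
      have h5 : ‖s - ⟨σ, T⟩‖ ≤ r - δ / 16 := by
        apply norm_le_of_sq (by rw [hr]; linarith)
        rw [Complex.sub_re, Complex.sub_im, e1, e2, hr]
        exact rd4 hδ hδ1 hσ3 hσδ h1 h2 hσB h3'.1 h3'.2
      calc ‖s - c‖ = ‖(s - ⟨σ, T⟩) - (c - ⟨σ, T⟩)‖ := by congr 1; ring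
        _ ≤ ‖s - ⟨σ, T⟩‖ + ‖c - ⟨σ, T⟩‖ := norm_sub_le _ _
        _ ≤ r := by linarith)
  refine hj.trans ?_
  rw [← hq, div_le_iff₀ hq0]
  have hK0 : 0 < K := by rw [hK]; linarith
  have hfc0 : 0 < ‖PD P riemannZeta c - a‖ := lt_of_lt_of_le hm hc2
  have h1 : Real.log (M / ‖PD P riemannZeta c - a‖) ≤ Real.log (K / m * T ^ (2 * κ)) := by
    apply Real.log_le_log (by positivity)
    rw [hM]
    calc K * T ^ (2 * κ) / ‖PD P riemannZeta c - a‖ ≤ K * T ^ (2 * κ) / m := by gcongr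
      _ = K / m * T ^ (2 * κ) := by ring
  rw [Real.log_mul (by positivity) (by positivity), Real.log_rpow hT0, ← hLdef] at h1
  have h2 : 2 * |Real.log (K / m)| ≤ θ * q * L := by
    rw [div_le_iff₀ (by positivity)] at hL
    linarith
  have h3 := le_abs_self (Real.log (K / m))
  have h4 : 2 * κ * L ≤ θ * q / 2 * L := by
    apply mul_le_mul_of_nonneg_right _ hLpos.le
    linarith
  linarith

end Pool.Agent.V7H88.BS
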