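import Mathlib
import Pool.Agent.V7H88.BS.E
import Pool.Agent.H370R2.DirGood

/-!
The left of the critical line: reflection, and `P(d/ds) ζ` far to the left.
-/

set_option autoImplicit false
set_option maxHeartbeats 4000000

open Complex Filter Topology Metric Set
open H370 H370.DL
open H345 (XX)

namespace Pool.Agent.V7H88.BS

/-- the polynomial `P̄(-X)` -/
noncomputable def QQ (P : Polynomial ℂ) : Polynomial ℂ :=
  ∑ j ∈ Finset.range (P.natDegree + 1),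
    Polynomial.C ((-1) ^ j * (starRingEnd ℂ) (P.coeff j)) * Polynomial.X ^ j

lemma QQ_coeff (P : Polynomial ℂ) {j : ℕ} (hj : j ∈ Finset.range (P.natDegree + 1)) :
    (QQ P).coeff j = (-1) ^ j * (starRingEnd ℂ) (P.coeff j) := by
  unfold QQ
  rw [Polynomial.finsetSum_coeff]
  simp only [Polynomial.coeff_C_mul_X_pow]
  rw [Finset.sum_ite_eq]
  rw [if_pos hj]

lemma QQ_deg (P : Polynomial ℂ) (hP : P ≠ 0) : (QQ P).natDegree = P.natDegree := by
  apply Polynomial.natDegree_eq_of_le_of_coeff_ne_zero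
  · unfold QQ
    apply Polynomial.natDegree_sum_le_of_forall_le
    intro j hj
    refine (Polynomial.natDegree_C_mul_X_pow_le _ _).trans ?_
    have := Finset.mem_range.1 hj
    omega
  · rw [QQ_coeff P (Finset.self_mem_range_succ _)]
    have h1 : P.coeff P.natDegree ≠ 0 := by
      rw [Polynomial.coeff_natDegree]
      exact Polynomial.leadingCoeff_ne_zero.2 hP
    have h2 : (starRingEnd ℂ) (P.coeff P.natDegree) ≠ 0 := by
      rwa [Ne, map_eq_zero]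
    exact mul_ne_zero (pow_ne_zero _ (by norm_num)) h2

lemma QQ_ne (P : Polynomial ℂ) (hP : P ≠ 0) : QQ P ≠ 0 := by
  intro h
  have h1 := QQ_coeff P (Finset.self_mem_range_succ _)
  rw [h, Polynomial.coeff_zero] at h1
  have h2 : P.coeff P.natDegree ≠ 0 := by
    rw [Polynomial.coeff_natDegree]
    exact Polynomial.leadingCoeff_ne_zero.2 hP
  have h3 : (starRingEnd ℂ) (P.coeff P.natDegree) ≠ 0 := by
    rwa [Ne, map_eq_zero]
  exact mul_ne_zero (pow_ne_zero _ (by norm_num)) h3 h1.symm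

lemma deriv_refl (f : ℂ → ℂ) (s : ℂ) : deriv (refl f) s = -refl (deriv f) s := by
  have h1 : refl f = (starRingEnd ℂ) ∘ (fun z => f (1 - z)) ∘ (starRingEnd ℂ) := rfl
  rw [h1, deriv_conj_conj]
  simp only [Function.comp_apply]
  rw [deriv_comp_const_sub, map_neg]
  rfl

lemma iter_refl (f : ℂ → ℂ) (j : ℕ) (s : ℂ) :
    iteratedDeriv j (refl f) s = (-1) ^ j * refl (iteratedDeriv j f) s := by
  induction j generalizing s with
  | zero => simp
  | succ j ih =>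
    rw [iteratedDeriv_succ]
    have h1 : iteratedDeriv j (refl f) = fun s => (-1) ^ j * refl (iteratedDeriv j f) s := funext ih
    rw [h1, deriv_const_mul_field, deriv_refl, iteratedDeriv_succ, pow_succ]
    ring

lemma PD_refl (P : Polynomial ℂ) (hP : P ≠ 0) (f : ℂ → ℂ) (w : ℂ) :
    PD (QQ P) (refl f) w = refl (PD P f) w := by
  unfold PD
  rw [QQ_deg P hP]
  have h1 : refl (fun s => ∑ j ∈ Finset.range (P.natDegree + 1), P.coeff j * iteratedDeriv j f s) w =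
      ∑ j ∈ Finset.range (P.natDegree + 1), (starRingEnd ℂ) (P.coeff j) *
        (starRingEnd ℂ) (iteratedDeriv j f (1 - (starRingEnd ℂ) w)) := by
    show (starRingEnd ℂ) (∑ j ∈ Finset.range (P.natDegree + 1), P.coeff j *
      iteratedDeriv j f (1 - (starRingEnd ℂ) w)) = _
    rw [map_sum]
    refine Finset.sum_congr rfl fun j _ => ?_
    rw [map_mul]
  rw [h1]
  refine Finset.sum_congr rfl fun j hj => ?_
  rw [QQ_coeff P hj, iter_refl]
  have h2 : ((-1 : ℂ)) ^ j * (-1) ^ j = 1 := by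
    rw [← mul_pow]; norm_num
  calc (-1) ^ j * (starRingEnd ℂ) (P.coeff j) * ((-1) ^ j * refl (iteratedDeriv j f) w)
      = ((-1) ^ j * (-1) ^ j) * ((starRingEnd ℂ) (P.coeff j) * refl (iteratedDeriv j f) w) := by ring
    _ = _ := by rw [h2, one_mul]; rfl

/-- the quotients of the derivatives -/
lemma quot (j : ℕ) : ∀ r C₀ : ℝ, 0 < r → 0 ≤ C₀ → ∃ C : ℝ, 0 ≤ C ∧ ∀ (u : ℂ → ℂ) (w₀ : ℂ) (Λ : ℝ), 1 ≤ Λ →
    (∀ w ∈ closedBall w₀ r, AnalyticAt ℂ u w ∧ u w ≠ 0 ∧ ‖logDeriv u w - Λ‖ ≤ C₀) →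
    ∀ w ∈ closedBall w₀ (r / 2), ‖iteratedDeriv j u w / u w - (Λ : ℂ) ^ j‖ * Λ ≤ C * Λ ^ j := by
  induction j with
  | zero =>
    intro r C₀ hr hC₀
    refine ⟨0, le_rfl, fun u w₀ Λ hΛ h w hw => ?_⟩
    have h1 := (h w (closedBall_subset_closedBall (by linarith) hw)).2.1
    rw [iteratedDeriv_zero, div_self h1]
    simp
  | succ j ih =>
    intro r C₀ hr hC₀
    obtain ⟨C, hC, hih⟩ := ih (r / 2) C₀ (by positivity) hC₀
    refine ⟨4 * C / r + C₀ * (C + 1) + C, by positivity, fun u w₀ Λ hΛ h w hw => ?_⟩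
    have hsub : closedBall w (r / 2) ⊆ closedBall w₀ r := by
      intro z hz
      rw [mem_closedBall] at hz hw ⊢
      linarith [dist_triangle z w w₀]
    have h1 := hih u w Λ hΛ (fun z hz => h z (hsub hz))
    have hrr : r / 2 / 2 = r / 4 := by ring
    rw [hrr] at h1
    have hΛ0 : 0 < Λ := by linarith
    obtain ⟨ha, hu, hld⟩ := h w (hsub (mem_closedBall_self (by positivity)))
    set q : ℂ → ℂ := fun z => iteratedDeriv j u z / u z with hq
    have hqan : ∀ z ∈ closedBall w (r / 2), DifferentiableAt ℂ q z := by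
      intro z hz
      obtain ⟨ha, hu, -⟩ := h z (hsub hz)
      exact ((iter_analytic ha j).div ha hu).differentiableAt
    have hqd : deriv q w = iteratedDeriv (j + 1) u w / u w - q w * logDeriv u w := by
      have e1 := (iter_hasDeriv ha j).div ha.differentiableAt.hasDerivAt hu
      have e2 : deriv q w = _ := e1.deriv
      rw [e2, logDeriv_apply, hq]
      field_simp
    have hcau := Complex.norm_deriv_le_of_forall_mem_sphere_norm_le (c := w) (R := r / 4)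
      (C := C * Λ ^ j / Λ) (f := fun z => q z - (Λ : ℂ) ^ j) (by positivity) (by
        apply DifferentiableOn.diffContOnCl
        rw [closure_ball _ (by positivity)]
        intro z hz
        exact ((hqan z (closedBall_subset_closedBall (by linarith) hz)).sub_const _).differentiableWithinAt) (by
        intro z hz
        rw [le_div_iff₀ hΛ0]
        exact h1 z (sphere_subset_closedBall hz))
    rw [deriv_sub_const] at hcau
    have hw1 := h1 w (mem_closedBall_self (by positivity))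
    have hq1 : ‖q w‖ * Λ ≤ C * Λ ^ j + Λ ^ j * Λ := by
      have : ‖q w‖ ≤ ‖q w - (Λ : ℂ) ^ j‖ + ‖(Λ : ℂ) ^ j‖ := by
        calc ‖q w‖ = ‖(q w - (Λ : ℂ) ^ j) + (Λ : ℂ) ^ j‖ := by congr 1; ring
          _ ≤ _ := norm_add_le _ _
      have e : ‖(Λ : ℂ) ^ j‖ = Λ ^ j := by
        rw [norm_pow, Complex.norm_real, Real.norm_of_nonneg hΛ0.le]
      rw [e] at this
      nlinarith
    have hid : iteratedDeriv (j + 1) u w / u w - (Λ : ℂ) ^ (j + 1) =
        deriv q w + (logDeriv u w - Λ) * q w + Λ * (q w - (Λ : ℂ) ^ j) := by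
      rw [hqd]; ring
    have hΛj : 0 ≤ Λ ^ j := by positivity
    have hΛj1 : Λ ^ j ≤ Λ ^ (j + 1) := by
      rw [pow_succ]; nlinarith
    rw [hid]
    have hb : ‖deriv q w + (logDeriv u w - Λ) * q w + Λ * (q w - (Λ : ℂ) ^ j)‖ ≤
        C * Λ ^ j / Λ / (r / 4) + C₀ * ‖q w‖ + Λ * ‖q w - (Λ : ℂ) ^ j‖ := by
      refine (norm_add_le _ _).trans (add_le_add ((norm_add_le _ _).trans (add_le_add hcau ?_)) ?_)
      · rw [norm_mul]; gcongr
      · rw [norm_mul, Complex.norm_real, Real.norm_of_nonneg hΛ0.le]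
    calc _ ≤ (C * Λ ^ j / Λ / (r / 4) + C₀ * ‖q w‖ + Λ * ‖q w - (Λ : ℂ) ^ j‖) * Λ := by gcongr
      _ = 4 * C / r * Λ ^ j + C₀ * (‖q w‖ * Λ) + Λ * (‖q w - (Λ : ℂ) ^ j‖ * Λ) := by
          field_simp
      _ ≤ 4 * C / r * Λ ^ (j + 1) + C₀ * (C * Λ ^ j + Λ ^ j * Λ) + Λ * (C * Λ ^ j) := by
          gcongr
      _ ≤ 4 * C / r * Λ ^ (j + 1) + C₀ * (C * Λ ^ (j + 1) + Λ ^ j * Λ) + Λ * (C * Λ ^ j) := by
          gcongr
      _ = _ := by rw [pow_succ]; ring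

/-- the highest derivative dominates -/
lemma PD_lower (Q : Polynomial ℂ) (hQ : Q ≠ 0) {r C₀ : ℝ} (hr : 0 < r) (hC₀ : 0 ≤ C₀) :
    ∃ c Λ₁ : ℝ, 0 < c ∧ 1 ≤ Λ₁ ∧ ∀ (u : ℂ → ℂ) (w₀ : ℂ) (Λ : ℝ), Λ₁ ≤ Λ →
      (∀ w ∈ closedBall w₀ r, AnalyticAt ℂ u w ∧ u w ≠ 0 ∧ ‖logDeriv u w - Λ‖ ≤ C₀) →
      c * ‖u w₀‖ ≤ ‖PD Q u w₀‖ := by
  choose Cf hCf0 hCf using fun j => quot j r C₀ hr hC₀
  set d := Q.natDegree with hd
  set cd : ℝ := ‖Q.coeff d‖ with hcd
  have hcd0 : 0 < cd := by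
    rw [hcd, norm_pos_iff, hd, Polynomial.coeff_natDegree]
    exact Polynomial.leadingCoeff_ne_zero.2 hQ
  set D : ℝ := ∑ j ∈ Finset.range d, ‖Q.coeff j‖ * (Cf j + 1) + cd * Cf d with hD
  have hD0 : 0 ≤ D := by
    apply add_nonneg
    · exact Finset.sum_nonneg fun j _ => mul_nonneg (norm_nonneg _) (by linarith [hCf0 j])
    · exact mul_nonneg hcd0.le (hCf0 d)
  refine ⟨cd / 2, 2 * D / cd + 1, by positivity, ?_, fun u w₀ Λ hΛ h => ?_⟩
  · have : 0 ≤ 2 * D / cd := by positivity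
    linarith
  have h2D : 0 ≤ 2 * D / cd := by positivity
  have hΛ1 : 1 ≤ Λ := by linarith
  have hΛ0 : 0 < Λ := by linarith
  have hw₀ : w₀ ∈ closedBall w₀ (r / 2) := mem_closedBall_self (by positivity)
  have hu : u w₀ ≠ 0 := (h w₀ (mem_closedBall_self hr.le)).2.1
  have hun : 0 < ‖u w₀‖ := norm_pos_iff.2 hu
  have hj := fun j => hCf j u w₀ Λ hΛ1 h w₀ hw₀
  have hΛn : ∀ j : ℕ, ‖(Λ : ℂ) ^ j‖ = Λ ^ j := fun j => by
    rw [norm_pow, Complex.norm_real, Real.norm_of_nonneg hΛ0.le]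
  have e1 : PD Q u w₀ / u w₀ = ∑ j ∈ Finset.range d, Q.coeff j * (iteratedDeriv j u w₀ / u w₀) +
      Q.coeff d * (iteratedDeriv d u w₀ / u w₀) := by
    unfold PD
    rw [← hd, Finset.sum_range_succ, add_div, Finset.sum_div]
    congr 1
    · exact Finset.sum_congr rfl fun j _ => by ring
    · ring
  have e2 : ‖PD Q u w₀ / u w₀ - Q.coeff d * (Λ : ℂ) ^ d‖ * Λ ≤ D * Λ ^ d := by
    have e3 : PD Q u w₀ / u w₀ - Q.coeff d * (Λ : ℂ) ^ d =
        ∑ j ∈ Finset.range d, Q.coeff j * (iteratedDeriv j u w₀ / u w₀) +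
        Q.coeff d * (iteratedDeriv d u w₀ / u w₀ - (Λ : ℂ) ^ d) := by
      rw [e1]; ring
    rw [e3, hD, add_mul, Finset.sum_mul]
    refine (mul_le_mul_of_nonneg_right (norm_add_le _ _) hΛ0.le).trans ?_
    rw [add_mul]
    refine add_le_add ?_ ?_
    · refine (mul_le_mul_of_nonneg_right (norm_sum_le _ _) hΛ0.le).trans ?_
      rw [Finset.sum_mul]
      refine Finset.sum_le_sum fun j hjr => ?_
      have hjd : j < d := Finset.mem_range.1 hjr
      rw [norm_mul, mul_assoc, mul_assoc]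
      apply mul_le_mul_of_nonneg_left _ (norm_nonneg _)
      have h1 : ‖iteratedDeriv j u w₀ / u w₀‖ ≤ ‖iteratedDeriv j u w₀ / u w₀ - (Λ : ℂ) ^ j‖ + Λ ^ j := by
        rw [← hΛn j]
        calc ‖iteratedDeriv j u w₀ / u w₀‖ = ‖(iteratedDeriv j u w₀ / u w₀ - (Λ : ℂ) ^ j) + (Λ : ℂ) ^ j‖ := by
              congr 1; ring
          _ ≤ _ := norm_add_le _ _
      have h2 := hj j
      have h3 : Λ ^ (j + 1) ≤ Λ ^ d := pow_le_pow_right₀ hΛ1 hjd
      have h4 : Λ ^ j ≤ Λ ^ (j + 1) := pow_le_pow_right₀ hΛ1 (by omega)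
      have h5 := hCf0 j
      calc ‖iteratedDeriv j u w₀ / u w₀‖ * Λ
          ≤ (‖iteratedDeriv j u w₀ / u w₀ - (Λ : ℂ) ^ j‖ + Λ ^ j) * Λ := by gcongr
        _ = ‖iteratedDeriv j u w₀ / u w₀ - (Λ : ℂ) ^ j‖ * Λ + Λ ^ (j + 1) := by rw [pow_succ]; ring
        _ ≤ Cf j * Λ ^ j + Λ ^ (j + 1) := by gcongr
        _ ≤ Cf j * Λ ^ d + Λ ^ d := by
            have : Cf j * Λ ^ j ≤ Cf j * Λ ^ d := by
              apply mul_le_mul_of_nonneg_left _ h5; linarith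
            linarith
        _ = (Cf j + 1) * Λ ^ d := by ring
    · rw [norm_mul, mul_assoc, mul_assoc]
      exact mul_le_mul_of_nonneg_left (hj d) (norm_nonneg _)
  have e4 : D * Λ ^ d ≤ cd / 2 * Λ ^ d * Λ := by
    have h1 : 2 * D ≤ cd * Λ := by
      have : 2 * D / cd ≤ Λ := by linarith
      rw [div_le_iff₀ hcd0] at this
      linarith
    have h2 : 0 ≤ Λ ^ d := by positivity
    nlinarith
  have e5 : ‖PD Q u w₀ / u w₀ - Q.coeff d * (Λ : ℂ) ^ d‖ ≤ cd / 2 * Λ ^ d :=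
    le_of_mul_le_mul_right (e2.trans e4) hΛ0
  have e6 : cd * Λ ^ d ≤ ‖PD Q u w₀ / u w₀‖ + cd / 2 * Λ ^ d := by
    have h1 : ‖Q.coeff d * (Λ : ℂ) ^ d‖ = cd * Λ ^ d := by rw [norm_mul, hΛn]
    rw [← h1]
    calc ‖Q.coeff d * (Λ : ℂ) ^ d‖ =
        ‖PD Q u w₀ / u w₀ - (PD Q u w₀ / u w₀ - Q.coeff d * (Λ : ℂ) ^ d)‖ := by congr 1; ring
      _ ≤ ‖PD Q u w₀ / u w₀‖ + ‖PD Q u w₀ / u w₀ - Q.coeff d * (Λ : ℂ) ^ d‖ := norm_sub_le _ _
      _ ≤ _ := by linarith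
  have e7 : cd / 2 ≤ ‖PD Q u w₀ / u w₀‖ := by
    have : 1 ≤ Λ ^ d := one_le_pow₀ hΛ1
    nlinarith
  rw [norm_div, le_div_iff₀ hun] at e7
  exact e7

end Pool.Agent.V7H88.BS
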