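import Mathlib
import Pool.Agent.V7H88.BS.F

/-!
The reflected zeta function: size of the factor of the functional equation, and the way back
from `P(d/ds) ζ` on the left to `ζ` on the critical line.
-/

set_option autoImplicit false
set_option maxHeartbeats 4000000

open Complex Filter Topology Metric Set
open H370 H370.DL
open H345 (XX)

namespace Pool.Agent.V7H88.BS

lemma u_eq {w : ℂ} (hw : 0 < w.im) : refl riemannZeta w = XX w * riemannZeta w := by
  have hcim : ((starRingEnd ℂ) w).im = -w.im := Complex.conj_im w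
  have h2 := H345.zeta_fe ((starRingEnd ℂ) w) (by
    intro n hn
    have := congrArg Complex.im hn
    rw [hcim] at this
    simp at this
    linarith) (by
    intro hn
    have := congrArg Complex.im hn
    rw [hcim] at this
    simp at this
    linarith)
  unfold DL.refl
  rw [h2, H345.Chi.XX_conj, riemannZeta_conj, map_mul, Complex.conj_conj, Complex.conj_conj]

lemma XX_an {w : ℂ} (h0 : 0 < w.re) (h1 : 1 < w.im) : AnalyticAt ℂ XX w := by
  have ho : IsOpen {z : ℂ | 0 < z.re ∧ 1 < z.im} :=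
    (isOpen_lt continuous_const Complex.continuous_re).inter (isOpen_lt continuous_const Complex.continuous_im)
  have hd : DifferentiableOn ℂ XX {z : ℂ | 0 < z.re ∧ 1 < z.im} := fun z hz =>
    (H345.Chi.hasDerivAt_XX hz.1 hz.2.le).differentiableAt.differentiableWithinAt
  exact hd.analyticAt (ho.mem_nhds ⟨h0, h1⟩)

lemma u_an {w : ℂ} (h : 1 ≤ w.im) : AnalyticAt ℂ (refl riemannZeta) w := by
  apply analyticAt_refl
  apply zeta_an
  rw [Complex.sub_im, Complex.conj_im, Complex.one_im]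
  linarith

/-- size of the factor of the functional equation -/
lemma XX_T : ∃ K : ℝ, 1 ≤ K ∧ ∀ (T : ℝ) (w : ℂ), 2 ≤ T → T / 2 ≤ w.im → w.im ≤ 2 * T →
    1 / 2 ≤ w.re → w.re ≤ 4 →
    K⁻¹ * T ^ (w.re - 1 / 2) ≤ ‖XX w‖ ∧ ‖XX w‖ ≤ K * T ^ (w.re - 1 / 2) := by
  obtain ⟨K₀, hK₀, h⟩ := H345.Chi.XX_size
  have hexp : 1 ≤ Real.exp K₀ := Real.one_le_exp hK₀.le
  refine ⟨16 * Real.exp K₀, by linarith, fun T w hT h1 h2 h3 h4 => ?_⟩
  have hT0 : 0 < T := by linarith
  obtain ⟨h5, h6⟩ := h w h3 h4 (by linarith)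
  set p : ℝ := w.re - 1 / 2 with hp
  have hp0 : 0 ≤ p := by linarith
  have hp4 : p ≤ 4 := by linarith
  have h2p : (2:ℝ) ^ p ≤ 16 := by
    calc (2:ℝ) ^ p ≤ 2 ^ (4:ℝ) := Real.rpow_le_rpow_of_exponent_le (by norm_num) hp4
      _ = 16 := by norm_num
  have h2p0 : 0 < (2:ℝ) ^ p := by positivity
  have hTp : 0 < T ^ p := by positivity
  constructor
  · refine le_trans ?_ h5
    have h7 : T ^ p / 16 ≤ w.im ^ p := by
      calc T ^ p / 16 ≤ T ^ p / 2 ^ p := by gcongr
        _ = (T / 2) ^ p := by rw [Real.div_rpow hT0.le (by norm_num)]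
        _ ≤ w.im ^ p := Real.rpow_le_rpow (by linarith) h1 hp0
    rw [Real.exp_neg, mul_inv]
    calc (16:ℝ)⁻¹ * (Real.exp K₀)⁻¹ * T ^ p = (Real.exp K₀)⁻¹ * (T ^ p / 16) := by ring
      _ ≤ _ := by gcongr
  · refine h6.trans ?_
    have h7 : w.im ^ p ≤ 16 * T ^ p := by
      calc w.im ^ p ≤ (2 * T) ^ p := Real.rpow_le_rpow (by linarith) h2 hp0
        _ = 2 ^ p * T ^ p := Real.mul_rpow (by norm_num) hT0.le
        _ ≤ _ := by gcongr
    calc Real.exp K₀ * w.im ^ p ≤ Real.exp K₀ * (16 * T ^ p) := by gcongr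
      _ = _ := by ring

/-- the logarithmic derivative of the reflected zeta function -/
lemma ld_bound {a₁ : ℝ} (ha : 1 < a₁) : ∃ r C₀ : ℝ, 0 < r ∧ r ≤ 1 / 2 ∧ 0 ≤ C₀ ∧ ∀ w₀ : ℂ, a₁ ≤ w₀.re →
    w₀.re ≤ 3 → 4 ≤ w₀.im → ∀ w ∈ closedBall w₀ r, AnalyticAt ℂ (refl riemannZeta) w ∧
      refl riemannZeta w ≠ 0 ∧ ‖logDeriv (refl riemannZeta) w - (Real.log w₀.im : ℝ)‖ ≤ C₀ := by
  obtain ⟨K, hK, hL⟩ := H345.Chi.L2_bound
  set ρ : ℝ := min ((a₁ - 1) / 4) (1 / 4) with hρ
  have hρ0 : 0 < ρ := lt_min (by linarith) (by norm_num)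
  have hρ1 : ρ ≤ 1 / 4 := min_le_right _ _
  have hρ2 : ρ ≤ (a₁ - 1) / 4 := min_le_left _ _
  obtain ⟨A, hA1, hA⟩ := DH31.zeta_bounds (a := 1 + ρ) (by linarith)
  refine ⟨ρ, K + 1 + A / ρ * A, hρ0, by linarith, by positivity, ?_⟩
  intro w₀ h1 h2 h3 w hw
  obtain ⟨hw1, hw2⟩ := ball_coord hw
  have hw1' := abs_le.1 hw1
  have hw2' := abs_le.1 hw2
  have him : 3 < w.im := by linarith
  have hre : 1 + 2 * ρ ≤ w.re := by linarith
  have hre4 : w.re ≤ 4 := by linarith
  have hXne : XX w ≠ 0 := H345.Chi.XX_ne (by linarith) (by linarith)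
  have hzne : riemannZeta w ≠ 0 := by
    have := (hA w (by linarith)).2
    intro h
    rw [h, norm_zero] at this
    have : 0 < 1 / A := by positivity
    linarith
  refine ⟨u_an (by linarith), ?_, ?_⟩
  · rw [u_eq (by linarith)]
    exact mul_ne_zero hXne hzne
  have hev : refl riemannZeta =ᶠ[𝓝 w] fun z => XX z * riemannZeta z := by
    have ho : {z : ℂ | 0 < z.im} ∈ 𝓝 w :=
      (isOpen_lt continuous_const Complex.continuous_im).mem_nhds (by show 0 < w.im; linarith)
    filter_upwards [ho] with z hz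
    exact u_eq hz
  have hld1 : logDeriv (refl riemannZeta) w = logDeriv (fun z => XX z * riemannZeta z) w :=
    (logDeriv_congr_nhds hev).self_of_nhds
  have hXd := H345.Chi.hasDerivAt_XX (s := w) (by linarith) (by linarith)
  have hzd := zeta_diff (s := w) (by linarith)
  have hld2 : logDeriv (fun z => XX z * riemannZeta z) w = logDeriv XX w + logDeriv riemannZeta w :=
    logDeriv_mul w hXne hzne hXd.differentiableAt hzd
  have hld3 : logDeriv XX w = H345.Chi.L2 w := by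
    rw [logDeriv_apply, hXd.deriv]
    field_simp
  have hz' : ‖logDeriv riemannZeta w‖ ≤ A / ρ * A := by
    have hcau := Complex.norm_deriv_le_of_forall_mem_sphere_norm_le (c := w) (R := ρ)
      (C := A) (f := riemannZeta) hρ0 (by
        apply DifferentiableOn.diffContOnCl
        rw [closure_ball _ hρ0.ne']
        intro z hz
        have := abs_le.1 (ball_coord hz).2
        exact (zeta_diff (by linarith)).differentiableWithinAt) (by
        intro z hz
        have := abs_le.1 (ball_coord (sphere_subset_closedBall hz)).1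
        exact (hA z (by linarith)).1)
    rw [logDeriv_apply, norm_div, div_le_iff₀ (norm_pos_iff.2 hzne)]
    have h4 := (hA w (by linarith)).2
    have h5 : 1 ≤ A * ‖riemannZeta w‖ := by
      rw [div_le_iff₀ (by linarith)] at h4
      linarith
    have h6 : 0 ≤ A / ρ := by positivity
    calc ‖deriv riemannZeta w‖ ≤ A / ρ * 1 := by rw [mul_one]; exact hcau
      _ ≤ A / ρ * (A * ‖riemannZeta w‖) := by gcongr
      _ = _ := by ring
  have hlog : ‖((Real.log w.im : ℝ) : ℂ) - ((Real.log w₀.im : ℝ) : ℂ)‖ ≤ 1 := by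
    rw [← Complex.ofReal_sub, Complex.norm_real, Real.norm_eq_abs, abs_le]
    have hw0 : 0 < w₀.im := by linarith
    have hwi : 0 < w.im := by linarith
    constructor
    · rw [← Real.log_div hwi.ne' hw0.ne']
      rw [Real.le_log_iff_exp_le (by positivity)]
      have : Real.exp (-1) ≤ 1 / 2 := by
        rw [Real.exp_neg, ← one_div]
        apply one_div_le_one_div_of_le (by norm_num)
        linarith [Real.add_one_le_exp (1:ℝ)]
      refine this.trans ?_
      rw [le_div_iff₀ hw0]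
      linarith
    · rw [← Real.log_div hwi.ne' hw0.ne']
      rw [Real.log_le_iff_le_exp (by positivity)]
      have : 2 ≤ Real.exp 1 := by linarith [Real.add_one_le_exp (1:ℝ)]
      refine le_trans ?_ this
      rw [div_le_iff₀ hw0]
      linarith
  have hL' := hL w (by linarith) hre4 (by linarith)
  rw [hld1, hld2, hld3]
  calc ‖H345.Chi.L2 w + logDeriv riemannZeta w - ((Real.log w₀.im : ℝ) : ℂ)‖
      = ‖(H345.Chi.L2 w - ((Real.log w.im : ℝ) : ℂ)) +
        (((Real.log w.im : ℝ) : ℂ) - ((Real.log w₀.im : ℝ) : ℂ)) + logDeriv riemannZeta w‖ := by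
        congr 1; ring
    _ ≤ K + 1 + A / ρ * A :=
        (norm_add_le _ _).trans (add_le_add ((norm_add_le _ _).trans (add_le_add hL' hlog)) hz')

/-- lower bound far to the left -/
lemma left_lower (Q : Polynomial ℂ) (hQ : Q ≠ 0) {a₁ : ℝ} (ha : 1 < a₁) :
    ∃ c : ℝ, 0 < c ∧ ∀ᶠ T : ℝ in atTop, ∀ w : ℂ, a₁ ≤ w.re → w.re ≤ 3 → T / 2 ≤ w.im → w.im ≤ 2 * T →
      c * T ^ (w.re - 1 / 2) ≤ ‖PD Q (refl riemannZeta) w‖ := by
  obtain ⟨r, C₀, hr, hr1, hC₀, hld⟩ := ld_bound ha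
  obtain ⟨c, Λ₁, hc, hΛ₁, hlow⟩ := PD_lower Q hQ hr hC₀
  obtain ⟨K, hK, hX⟩ := XX_T
  obtain ⟨A, hA1, hA⟩ := DH31.zeta_bounds (a := a₁) ha
  refine ⟨c * (K⁻¹ * (1 / A)), by positivity, ?_⟩
  filter_upwards [eventually_ge_atTop (2 * Real.exp Λ₁), eventually_ge_atTop 8] with T hT hT8 w h1 h2 h3 h4
  have h5 := hlow (refl riemannZeta) w (Real.log w.im) (by
    rw [Real.le_log_iff_exp_le (by linarith)]
    linarith) (hld w h1 h2 (by linarith))
  refine le_trans ?_ h5
  rw [u_eq (by linarith), norm_mul]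
  have h6 := (hX T w (by linarith) h3 h4 (by linarith) (by linarith)).1
  have h7 := (hA w h1).2
  calc c * (K⁻¹ * (1 / A)) * T ^ (w.re - 1 / 2) = c * ((K⁻¹ * T ^ (w.re - 1 / 2)) * (1 / A)) := by ring
    _ ≤ _ := by gcongr

/-- upper bound on the left -/
lemma left_upper (Q : Polynomial ℂ) {ρ : ℝ} (hρ : 0 < ρ) : ∃ C : ℝ, 1 ≤ C ∧ ∀ (T M : ℝ) (w : ℂ), 4 ≤ T →
    T / 2 + ρ ≤ w.im → w.im ≤ 2 * T - ρ → 1 / 2 + ρ ≤ w.re → w.re ≤ 4 - ρ → 0 ≤ M →
    (∀ z ∈ closedBall w ρ, ‖riemannZeta z‖ ≤ M) →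
    ‖PD Q (refl riemannZeta) w‖ ≤ C * T ^ (w.re - 1 / 2 + ρ) * M := by
  obtain ⟨K, hK, hX⟩ := XX_T
  have hD := CP_nonneg Q hρ
  refine ⟨1 + CP Q ρ * K, by nlinarith [mul_nonneg hD (by linarith : 0 ≤ K)], ?_⟩
  intro T M w hT h1 h2 h3 h4 hM h
  have hT0 : 0 < T := by linarith
  have h5 := PD_bound Q (f := refl riemannZeta) (s := w) (ρ := ρ) (M := K * T ^ (w.re - 1 / 2 + ρ) * M) hρ
    (fun z hz => (u_an (by have := abs_le.1 (ball_coord hz).2; linarith)).differentiableAt)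
    (by
      intro z hz
      have e1 := abs_le.1 (ball_coord hz).1
      have e2 := abs_le.1 (ball_coord hz).2
      rw [u_eq (by linarith), norm_mul]
      have h6 := (hX T z (by linarith) (by linarith) (by linarith) (by linarith) (by linarith)).2
      have h7 : T ^ (z.re - 1 / 2) ≤ T ^ (w.re - 1 / 2 + ρ) :=
        Real.rpow_le_rpow_of_exponent_le (by linarith) (by linarith)
      have h8 := h z hz
      calc ‖XX z‖ * ‖riemannZeta z‖ ≤ (K * T ^ (z.re - 1 / 2)) * M := by gcongr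
        _ ≤ _ := by gcongr)
  have h9 : 0 ≤ T ^ (w.re - 1 / 2 + ρ) * M := by positivity
  calc _ ≤ _ := h5
    _ = CP Q ρ * K * (T ^ (w.re - 1 / 2 + ρ) * M) := by ring
    _ ≤ _ := by nlinarith

/-- from `P(d/ds) ζ` on the left of the critical line to `ζ` on the line -/
lemma left_inv (Q : Polynomial ℂ) (hQ : Q ≠ 0) {y : ℝ} (hy : 0 < y) (hy1 : y ≤ 1 / 20) :
    ∃ C : ℝ, 1 ≤ C ∧ ∀ T M G : ℝ, 10 ≤ T → 0 ≤ M → 1 ≤ G →
      (∀ s : ℂ, 1 / 2 ≤ s.re → s.re ≤ 3 / 2 → |s.im - T| ≤ 2 → ‖riemannZeta s‖ ≤ M) →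
      (∀ w : ℂ, 1 / 2 + y / 10 ≤ w.re → w.re ≤ 1 / 2 + y → |w.im - T| ≤ 1 →
        ‖PD Q (refl riemannZeta) w‖ ≤ G * T ^ y) →
      ‖riemannZeta ⟨1 / 2, T⟩‖ ≤ C * T ^ (3 / 5 * y) * (T ^ (-(17 / 20 * y)) * M + G) := by
  obtain ⟨C₁, hC₁, hinv⟩ := invert Q hQ (ℓ := 1) one_pos
  obtain ⟨C₂, hC₂, h3⟩ := three_lines
  obtain ⟨K, hK, hX⟩ := XX_T
  set Y : ℝ := ∑ j ∈ Finset.range (Q.natDegree + 1), (j.factorial : ℝ) / (y / 20) ^ j * K with hY
  have hY0 : 0 ≤ Y := Finset.sum_nonneg fun _ _ => by positivity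
  set D : ℝ := 1 + K * C₁ * (Y + 1) with hD
  have hD1 : 1 ≤ D := by
    have : 0 ≤ K * C₁ * (Y + 1) := by positivity
    linarith
  refine ⟨C₂ * D, by nlinarith, ?_⟩
  intro T M G hT hM hG hz h
  have hT0 : 0 < T := by linarith
  have hmain : ∀ t : ℝ, |t - T| ≤ 1 → ‖riemannZeta ⟨1 / 2 + y, t⟩‖ ≤ D * (T ^ (-(17 / 20 * y)) * M + G) := by
    intro t ht
    have ht' := abs_le.1 ht
    set z₀ : ℂ := ⟨1 / 2 + y / 10, t⟩ with hz₀
    set z₁ : ℂ := ⟨1 / 2 + y, t⟩ with hz₁
    have e0r : z₀.re = 1 / 2 + y / 10 := rfl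
    have e0i : z₀.im = t := rfl
    have e1r : z₁.re = 1 / 2 + y := rfl
    have e1i : z₁.im = t := rfl
    have hseg : ∀ x : ℝ, z₀ + x * (z₁ - z₀) = ⟨1 / 2 + y / 10 + x * (9 / 10 * y), t⟩ := by
      intro x
      apply Complex.ext
      · rw [Complex.add_re, Complex.re_ofReal_mul, Complex.sub_re, e0r, e1r]
        show _ = 1 / 2 + y / 10 + x * (9 / 10 * y)
        ring
      · rw [Complex.add_im, Complex.im_ofReal_mul, Complex.sub_im, e0i]
        show _ = t
        ring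
    have hnorm : ‖z₁ - z₀‖ ≤ 1 := by
      apply norm_le_of_sq (by norm_num)
      rw [Complex.sub_re, Complex.sub_im, e0r, e1r, e0i]
      nlinarith
    -- bound of the derivatives at the left end
    have hρ : 0 < y / 20 := by positivity
    have hj : ∀ j < Q.natDegree, ‖iteratedDeriv j (refl riemannZeta) z₀‖ ≤ Y * (T ^ (3 / 20 * y) * M) := by
      intro j hj
      have h5 := iter_bound (f := refl riemannZeta) (s := z₀) (ρ := y / 20) (M := K * T ^ (3 / 20 * y) * M) hρ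
        (fun z hz => (u_an (by
            have := abs_le.1 (ball_coord hz).2
            linarith)).differentiableAt)
        (by
          intro z hzz
          have e1 := abs_le.1 (ball_coord hzz).1
          have e2 := abs_le.1 (ball_coord hzz).2
          rw [e0r] at e1
          rw [e0i] at e2
          rw [u_eq (by linarith), norm_mul]
          have h6 := (hX T z (by linarith) (by linarith) (by linarith) (by linarith) (by linarith)).2
          have h7 : T ^ (z.re - 1 / 2) ≤ T ^ (3 / 20 * y) :=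
            Real.rpow_le_rpow_of_exponent_le (by linarith) (by linarith)
          have h8 := hz z (by linarith) (by linarith) (by rw [abs_le]; constructor <;> linarith)
          calc ‖XX z‖ * ‖riemannZeta z‖ ≤ (K * T ^ (z.re - 1 / 2)) * M := by gcongr
            _ ≤ _ := by gcongr) j
      refine h5.trans ?_
      have h6 : (j.factorial : ℝ) / (y / 20) ^ j * K ≤ Y :=
        Finset.single_le_sum (f := fun j : ℕ => (j.factorial : ℝ) / (y / 20) ^ j * K)
          (fun _ _ => by positivity) (Finset.mem_range.2 (by omega))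
      calc (j.factorial : ℝ) / (y / 20) ^ j * (K * T ^ (3 / 20 * y) * M)
          = ((j.factorial : ℝ) / (y / 20) ^ j * K) * (T ^ (3 / 20 * y) * M) := by ring
        _ ≤ _ := by gcongr
    have h4 := hinv (refl riemannZeta) z₀ z₁ (Y * (T ^ (3 / 20 * y) * M)) (G * T ^ y) hnorm
      (by positivity) (by positivity)
      (by
        intro x hx
        rw [hseg]
        exact u_an (by show 1 ≤ t; linarith)) hj
      (by
        intro x hx
        rw [hseg]
        refine h _ ?_ ?_ ht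
        · show 1 / 2 + y / 10 ≤ 1 / 2 + y / 10 + x * (9 / 10 * y)
          nlinarith [hx.1, hx.2]
        · show 1 / 2 + y / 10 + x * (9 / 10 * y) ≤ 1 / 2 + y
          nlinarith [hx.1, hx.2])
    rw [u_eq (by rw [e1i]; linarith), norm_mul] at h4
    have h5 := (hX T z₁ (by linarith) (by rw [e1i]; linarith) (by rw [e1i]; linarith) (by rw [e1r]; linarith)
      (by rw [e1r]; linarith)).1
    rw [e1r] at h5
    have e6 : (1 / 2 + y - 1 / 2 : ℝ) = y := by ring
    rw [e6] at h5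
    have hTy : 0 < T ^ y := by positivity
    have hK0 : 0 < K := by linarith
    have h6 : ‖riemannZeta z₁‖ * T ^ y ≤ K * (C₁ * (Y * (T ^ (3 / 20 * y) * M) + G * T ^ y)) := by
      have h7 : K⁻¹ * T ^ y * ‖riemannZeta z₁‖ ≤ C₁ * (Y * (T ^ (3 / 20 * y) * M) + G * T ^ y) :=
        (mul_le_mul_of_nonneg_right h5 (norm_nonneg _)).trans h4
      calc ‖riemannZeta z₁‖ * T ^ y = K * (K⁻¹ * T ^ y * ‖riemannZeta z₁‖) := by
            field_simp
        _ ≤ _ := by gcongr
    have h8 : T ^ (3 / 20 * y) = T ^ (-(17 / 20 * y)) * T ^ y := by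
      rw [← Real.rpow_add hT0]; congr 1; ring
    have h9 : ‖riemannZeta z₁‖ ≤ K * (C₁ * (Y * (T ^ (-(17 / 20 * y)) * M) + G)) := by
      have : K * (C₁ * (Y * (T ^ (3 / 20 * y) * M) + G * T ^ y)) =
          K * (C₁ * (Y * (T ^ (-(17 / 20 * y)) * M) + G)) * T ^ y := by
        rw [h8]; ring
      rw [this] at h6
      exact le_of_mul_le_mul_right h6 hTy
    refine h9.trans ?_
    have h10 : 0 ≤ T ^ (-(17 / 20 * y)) * M := by positivity
    have h11 : Y * (T ^ (-(17 / 20 * y)) * M) + G ≤ (Y + 1) * (T ^ (-(17 / 20 * y)) * M + G) := by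
      nlinarith
    calc K * (C₁ * (Y * (T ^ (-(17 / 20 * y)) * M) + G))
        ≤ K * (C₁ * ((Y + 1) * (T ^ (-(17 / 20 * y)) * M + G))) := by gcongr
      _ = K * C₁ * (Y + 1) * (T ^ (-(17 / 20 * y)) * M + G) := by ring
      _ ≤ D * (T ^ (-(17 / 20 * y)) * M + G) := by
          apply mul_le_mul_of_nonneg_right _ (by positivity)
          linarith
  have h10 : 0 ≤ T ^ (-(17 / 20 * y)) * M := by positivity
  have h6 := h3 y T (D * (T ^ (-(17 / 20 * y)) * M + G)) hy hy1 (by linarith) (by nlinarith) hmain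
  refine h6.trans (le_of_eq ?_)
  ring

end Pool.Agent.V7H88.BS
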