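import Mathlib
import Pool.Agent.V7H88.BS.G

/-!
The values of `P(d/ds) ζ` to the left of the critical line.
-/

set_option autoImplicit false
set_option maxHeartbeats 4000000

open Complex Filter Topology Metric Set
open H370
open H345 (XX)

namespace Pool.Agent.V7H88.BS

/-- the reflected function, normalised -/
noncomputable def hh (P : Polynomial ℂ) (a : ℂ) (w : ℂ) : ℂ :=
  (PD (QQ P) (DL.refl riemannZeta) w - (starRingEnd ℂ) a) / XX w

lemma osc_osc (s : ℂ) : 1 - (starRingEnd ℂ) (1 - (starRingEnd ℂ) s) = s := by simp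

lemma mult_left (P : Polynomial ℂ) (hP : P ≠ 0) (a : ℂ) {s : ℂ} (h1 : s.re < 1) (h2 : 1 < s.im) :
    mult (fun z => PD P riemannZeta z - a) s = mult (hh P a) (1 - (starRingEnd ℂ) s) := by
  set w := 1 - (starRingEnd ℂ) s with hw
  have hwre : w.re = 1 - s.re := by rw [hw, Complex.sub_re, Complex.conj_re, Complex.one_re]
  have hwim : w.im = s.im := by rw [hw, Complex.sub_im, Complex.conj_im, Complex.one_im]; ring
  have hws : 1 - (starRingEnd ℂ) w = s := by rw [hw]; exact osc_osc s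
  have e1 : DL.refl (fun z => PD P riemannZeta z - a) =
      fun w => PD (QQ P) (DL.refl riemannZeta) w - (starRingEnd ℂ) a := by
    funext w
    rw [PD_refl P hP]
    show (starRingEnd ℂ) (PD P riemannZeta (1 - (starRingEnd ℂ) w) - a) = _
    rw [map_sub]
    rfl
  have hF : AnalyticAt ℂ (fun z => PD P riemannZeta z - a) (1 - (starRingEnd ℂ) w) := by
    rw [hws]
    exact (PD_analytic P (zeta_an h2.le)).sub analyticAt_const
  have e2 := DL.order_refl hF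
  rw [hws, e1] at e2
  have hXan : AnalyticAt ℂ XX w := XX_an (by linarith) (by linarith)
  have hXne : XX w ≠ 0 := H345.Chi.XX_ne (by linarith) (by linarith)
  have hg : AnalyticAt ℂ (fun w => PD (QQ P) (DL.refl riemannZeta) w - (starRingEnd ℂ) a) w :=
    (PD_analytic _ (u_an (by linarith))).sub analyticAt_const
  have e3 : hh P a = (fun w => PD (QQ P) (DL.refl riemannZeta) w - (starRingEnd ℂ) a) * XX⁻¹ := by
    funext w
    simp only [hh, Pi.mul_apply, Pi.inv_apply]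
    rw [div_eq_mul_inv]
  have hXi : AnalyticAt ℂ XX⁻¹ w := hXan.inv hXne
  have e4 : analyticOrderAt XX⁻¹ w = 0 := by
    rw [hXi.analyticOrderAt_eq_zero]
    simp [hXne]
  have e5 : analyticOrderAt (hh P a) w =
      analyticOrderAt (fun w => PD (QQ P) (DL.refl riemannZeta) w - (starRingEnd ℂ) a) w := by
    rw [e3, analyticOrderAt_mul hg hXi, e4, add_zero]
  unfold mult analyticOrderNatAt
  rw [e5, e2]

lemma hh_an (P : Polynomial ℂ) (a : ℂ) {w : ℂ} (h0 : 0 < w.re) (h1 : 1 < w.im) :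
    AnalyticAt ℂ (hh P a) w :=
  ((PD_analytic _ (u_an h1.le)).sub analyticAt_const).div (XX_an h0 h1) (H345.Chi.XX_ne h0 h1.le)

lemma hh_zero {P : Polynomial ℂ} (hP : P ≠ 0) {a w : ℂ} (h0 : 0 < w.re) (h1 : 1 < w.im) (h : hh P a w = 0) :
    PD P riemannZeta (1 - (starRingEnd ℂ) w) = a ∧
      PD (QQ P) (DL.refl riemannZeta) w = (starRingEnd ℂ) a := by
  unfold hh at h
  rw [div_eq_zero_iff] at h
  rcases h with h | h
  · have h2 := sub_eq_zero.1 h
    refine ⟨?_, h2⟩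
    rw [PD_refl P hP] at h2
    have h3 : (starRingEnd ℂ) (PD P riemannZeta (1 - (starRingEnd ℂ) w)) = (starRingEnd ℂ) a := h2
    exact (starRingEnd ℂ).injective h3
  · exact absurd h (H345.Chi.XX_ne h0 h1.le)

/-- the reflection is injective -/
lemma osc_inj : Function.Injective (fun w : ℂ => 1 - (starRingEnd ℂ) w) := by
  intro u v huv
  have h := congrArg (fun w : ℂ => 1 - (starRingEnd ℂ) w) huv
  simpa using h

lemma osc_re (w : ℂ) : (1 - (starRingEnd ℂ) w).re = 1 - w.re := by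
  rw [Complex.sub_re, Complex.conj_re, Complex.one_re]

lemma osc_im (w : ℂ) : (1 - (starRingEnd ℂ) w).im = w.im := by
  rw [Complex.sub_im, Complex.conj_im, Complex.one_im]; ring

/-- upper bound for the normalised reflected function -/
lemma hh_upper (P : Polynomial ℂ) {ρ : ℝ} (hρ : 0 < ρ) : ∃ C : ℝ, 1 ≤ C ∧
    ∀ (T η M : ℝ) (a z : ℂ), 4 ≤ T → ‖a‖ ≤ T ^ η → T / 2 + ρ ≤ z.im → z.im ≤ 2 * T - ρ →
    1 / 2 + ρ ≤ z.re → z.re ≤ 4 - ρ → 0 ≤ M → (∀ v ∈ closedBall z ρ, ‖riemannZeta v‖ ≤ M) →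
    ‖hh P a z‖ ≤ C * T ^ ρ * M + C * T ^ (η - (z.re - 1 / 2)) := by
  obtain ⟨K, hK, hX⟩ := XX_T
  obtain ⟨C₁, hC₁, hupp⟩ := left_upper (QQ P) hρ
  have hK0 : 0 < K := by linarith
  refine ⟨K * C₁, ra8 hK hC₁, ?_⟩
  intro T η M a z hT ha h1 h2 h3 h4 hM h
  have hT0 : 0 < T := by linarith
  have h5 := hupp T M z hT h1 h2 h3 h4 hM h
  have h6 := (hX T z (by linarith) (by linarith) (by linarith) (by linarith) (by linarith)).1
  have hTp : 0 < T ^ (z.re - 1 / 2) := by positivity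
  have hX0 : 0 < ‖XX z‖ := lt_of_lt_of_le (by positivity) h6
  unfold hh
  rw [norm_div, div_le_iff₀ hX0]
  have e1 : T ^ (z.re - 1 / 2 + ρ) = T ^ ρ * T ^ (z.re - 1 / 2) := by
    rw [← Real.rpow_add hT0]; congr 1; ring
  have e2 : T ^ η = T ^ (η - (z.re - 1 / 2)) * T ^ (z.re - 1 / 2) := by
    rw [← Real.rpow_add hT0]; congr 1; ring
  have hbn : ‖(starRingEnd ℂ) a‖ ≤ T ^ η := by rw [Complex.norm_conj]; exact ha
  have e3 : 0 ≤ T ^ (η - (z.re - 1 / 2)) := by positivity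
  calc ‖PD (QQ P) (DL.refl riemannZeta) z - (starRingEnd ℂ) a‖
      ≤ ‖PD (QQ P) (DL.refl riemannZeta) z‖ + ‖(starRingEnd ℂ) a‖ := norm_sub_le _ _
    _ ≤ C₁ * T ^ (z.re - 1 / 2 + ρ) * M + T ^ η := add_le_add h5 hbn
    _ = (K * C₁ * T ^ ρ * M + K * T ^ (η - (z.re - 1 / 2))) * (K⁻¹ * T ^ (z.re - 1 / 2)) := by
        rw [e1, e2]; field_simp
    _ ≤ (K * C₁ * T ^ ρ * M + K * C₁ * T ^ (η - (z.re - 1 / 2))) * (K⁻¹ * T ^ (z.re - 1 / 2)) := by
        have : K ≤ K * C₁ := le_mul_of_one_le_right hK0.le hC₁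
        gcongr
    _ ≤ _ := by gcongr

/-- the normalised reflected function is not small at `3/2 + it` -/
lemma hh_centre (P : Polynomial ℂ) (hP : P ≠ 0) : ∃ c : ℝ, 0 < c ∧ ∀ᶠ T : ℝ in atTop, ∀ a : ℂ,
    ‖a‖ ≤ T ^ (1 / 2 : ℝ) → ∀ t : ℝ, T / 2 ≤ t → t ≤ 2 * T → c ≤ ‖hh P a ⟨3 / 2, t⟩‖ := by
  obtain ⟨c₀, hc₀, hlow⟩ := left_lower (QQ P) (QQ_ne P hP) (a₁ := 5 / 4) (by norm_num)
  obtain ⟨K, hK, hX⟩ := XX_T
  refine ⟨c₀ / (2 * K), by positivity, ?_⟩
  filter_upwards [hlow, eventually_ge_atTop 4, ev_rpow (2 / c₀) (p := 1 / 2) (by norm_num)]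
    with T hlow hT g3 a ha t ht1 ht2
  have hT0 : 0 < T := by linarith
  set c : ℂ := ⟨3 / 2, t⟩ with hc
  have ecr : c.re = 3 / 2 := rfl
  have eci : c.im = t := rfl
  have h1 := hlow c (by rw [ecr]; norm_num) (by rw [ecr]; norm_num) (by rw [eci]; exact ht1)
    (by rw [eci]; exact ht2)
  rw [ecr, show (3 / 2 - 1 / 2 : ℝ) = 1 by norm_num, Real.rpow_one] at h1
  have h2 := (hX T c (by linarith) (by rw [eci]; exact ht1) (by rw [eci]; exact ht2)
    (by rw [ecr]; norm_num) (by rw [ecr]; norm_num))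
  rw [ecr, show (3 / 2 - 1 / 2 : ℝ) = 1 by norm_num, Real.rpow_one] at h2
  have hX0 : 0 < ‖XX c‖ := lt_of_lt_of_le (by positivity) h2.1
  unfold hh
  rw [norm_div, le_div_iff₀ hX0]
  have h5 : T = T ^ (1 / 2 : ℝ) * T ^ (1 / 2 : ℝ) := by
    rw [← Real.rpow_add hT0]; norm_num
  have h6 : T ^ (1 / 2 : ℝ) ≤ c₀ / 2 * T := by
    have h7 : 1 ≤ c₀ / 2 * T ^ (1 / 2 : ℝ) := by
      rw [div_le_iff₀ hc₀] at g3
      linarith
    calc T ^ (1 / 2 : ℝ) = 1 * T ^ (1 / 2 : ℝ) := by ring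
      _ ≤ (c₀ / 2 * T ^ (1 / 2 : ℝ)) * T ^ (1 / 2 : ℝ) := by gcongr
      _ = c₀ / 2 * (T ^ (1 / 2 : ℝ) * T ^ (1 / 2 : ℝ)) := by ring
      _ = c₀ / 2 * T := by rw [← h5]
  have hbn : ‖(starRingEnd ℂ) a‖ ≤ T ^ (1 / 2 : ℝ) := by rw [Complex.norm_conj]; exact ha
  have h8 : ‖PD (QQ P) (DL.refl riemannZeta) c‖ ≤
      ‖PD (QQ P) (DL.refl riemannZeta) c - (starRingEnd ℂ) a‖ + ‖(starRingEnd ℂ) a‖ := by
    calc _ = ‖(PD (QQ P) (DL.refl riemannZeta) c - (starRingEnd ℂ) a) + (starRingEnd ℂ) a‖ := by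
          congr 1; ring
      _ ≤ _ := norm_add_le _ _
  have h9 : c₀ / (2 * K) * ‖XX c‖ ≤ c₀ / 2 * T := by
    calc c₀ / (2 * K) * ‖XX c‖ ≤ c₀ / (2 * K) * (K * T) := by gcongr; exact h2.2
      _ = c₀ / 2 * T := by field_simp
  linarith

/-- there are no values of moderate size far to the left -/
lemma hh_free (P : Polynomial ℂ) (hP : P ≠ 0) {a₁ : ℝ} (ha₁ : 1 < a₁) : ∀ᶠ T : ℝ in atTop, ∀ a : ℂ,
    ‖a‖ ≤ T ^ (1 / 4 : ℝ) → ∀ z : ℂ, a₁ ≤ z.re → z.re ≤ 3 → T / 2 ≤ z.im → z.im ≤ 2 * T → hh P a z ≠ 0 := by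
  obtain ⟨c₁, hc₁, hlow⟩ := left_lower (QQ P) (QQ_ne P hP) ha₁
  filter_upwards [hlow, eventually_ge_atTop 4, ev_rpow (2 / c₁) (p := 1 / 4) (by norm_num)]
    with T hlow hT g6 a ha z h1 h2 h3 h4 h0
  have hT0 : 0 < T := by linarith
  have hT1' : 1 ≤ T := by linarith
  have h7 := (hh_zero hP (by linarith) (by linarith) h0).2
  have h8 := hlow z h1 h2 h3 h4
  rw [h7, Complex.norm_conj] at h8
  have h9 : T ^ (1 / 2 : ℝ) ≤ T ^ (z.re - 1 / 2) :=
    Real.rpow_le_rpow_of_exponent_le hT1' (by linarith)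
  have h10 : T ^ (1 / 2 : ℝ) = T ^ (1 / 4 : ℝ) * T ^ (1 / 4 : ℝ) := by
    rw [← Real.rpow_add hT0]; norm_num
  have h11 : 0 < T ^ (1 / 4 : ℝ) := by positivity
  have h12 : 2 * T ^ (1 / 4 : ℝ) ≤ c₁ * T ^ (1 / 2 : ℝ) := by
    rw [div_le_iff₀ hc₁] at g6
    rw [h10]
    exact re3 h11 g6
  have h13 : c₁ * T ^ (1 / 2 : ℝ) ≤ c₁ * T ^ (z.re - 1 / 2) := by gcongr
  linarith

/-- from the reflected function back -/
lemma sum_refl (P : Polynomial ℂ) (hP : P ≠ 0) (a : ℂ) [DecidableEq ℂ] (S : Finset ℂ)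
    (hS : ∀ w ∈ S, 0 < w.re ∧ 1 < w.im) :
    ∑ w ∈ S, (mult (hh P a) w : ℝ) =
      ∑ s ∈ S.image (fun w : ℂ => 1 - (starRingEnd ℂ) w), (mult (fun z => PD P riemannZeta z - a) s : ℝ) := by
  rw [Finset.sum_image (fun x _ y _ h => osc_inj h)]
  refine Finset.sum_congr rfl fun w hw => ?_
  obtain ⟨h1, h2⟩ := hS w hw
  rw [mult_left P hP a (by rw [osc_re]; linarith) (by rw [osc_im]; exact h2), osc_osc]

/-- doubling -/
lemma double {T T₀ p : ℝ} (hT : 0 < T) (hT₀ : 0 < T₀) (h : T ≤ 2 * T₀) (hp : 0 ≤ p) (hp1 : p ≤ 1) :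
    T ^ p ≤ 2 * T₀ ^ p := by
  calc T ^ p ≤ (2 * T₀) ^ p := Real.rpow_le_rpow hT.le h hp
    _ = 2 ^ p * T₀ ^ p := Real.mul_rpow (by norm_num) hT₀.le
    _ ≤ 2 ^ (1:ℝ) * T₀ ^ p := by
        apply mul_le_mul_of_nonneg_right _ (by positivity)
        exact Real.rpow_le_rpow_of_exponent_le (by norm_num) hp1
    _ = 2 * T₀ ^ p := by rw [Real.rpow_one]

/-- few zeros of the reflected function imply that it is small -/
lemma left_small (P : Polynomial ℂ) (hP : P ≠ 0) {y ε : ℝ} (hy0 : 0 < y) (hy1 : y ≤ 1 / 20) (hε0 : 0 < ε) :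
    ∃ η : ℝ, 0 < η ∧ ∀ᶠ T : ℝ in atTop, ∀ t : ℝ, |t - T| ≤ T / 4 → ∀ a : ℂ, ‖a‖ ≤ T ^ (1 / 4 : ℝ) →
      (∀ S : Finset ℂ, (∀ z ∈ S, z ∈ closedBall (⟨3 / 2, t⟩ : ℂ) (1 - y / 20) ∧ hh P a z = 0) →
        ∑ z ∈ S, (mult (hh P a) z : ℝ) ≤ η * Real.log T) →
      ∀ w : ℂ, w.im = t → 1 / 2 + y / 10 ≤ w.re → w.re ≤ 1 / 2 + y → ‖hh P a w‖ ≤ T ^ ε := by
  set R : ℝ := 1 - y / 20 with hR
  set r : ℝ := 1 - y / 10 with hr
  obtain ⟨ηb, L₀, hηb, hL₀, hback⟩ := backlund (R := R) (r := r) (l := 1 / 8) (B := 3) (ε := ε) (by norm_num)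
    (by rw [hr]; linarith) (by rw [hr, hR]; linarith) (by norm_num) hε0
  set ρ : ℝ := min (y / 40) (ηb / 4) with hρ
  have hρ0 : 0 < ρ := lt_min (by positivity) (by positivity)
  have hρ1 : ρ ≤ y / 40 := min_le_left _ _
  have hρ2 : ρ ≤ ηb / 4 := min_le_right _ _
  obtain ⟨C, hC, hupp⟩ := hh_upper P hρ0
  obtain ⟨c₀, hc₀, hcen⟩ := hh_centre P hP
  have hfree := hh_free P hP (a₁ := 5 / 4) (by norm_num)
  obtain ⟨A, hA1, hA⟩ := DH31.zeta_bounds (a := 9 / 8) (by norm_num)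
  refine ⟨ηb, hηb, ?_⟩
  filter_upwards [hcen, hfree, eventually_ge_atTop 100, ev_log L₀,
    ev_rpow (18 * C + C) (p := 1) one_pos, ev_rpow (C * A + C) (p := ηb / 2) (by positivity),
    ev_rpow (1 / c₀) hηb]
    with T hcen hfree hT hL g1 g2 g4 t ht a ha hcount w hwt hw1 hw2
  rw [Real.rpow_one] at g1
  have hT0 : 0 < T := by linarith
  have hT1' : 1 ≤ T := by linarith
  have ht' := abs_le.1 ht
  set L := Real.log T with hLdef
  set c : ℂ := ⟨3 / 2, t⟩ with hc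
  have ecr : c.re = 3 / 2 := rfl
  have eci : c.im = t := rfl
  have ha2 : ‖a‖ ≤ T ^ (1 / 2 : ℝ) :=
    ha.trans (Real.rpow_le_rpow_of_exponent_le hT1' (by norm_num))
  have hbig : ∀ z ∈ closedBall c R, 1 / 2 + y / 20 ≤ z.re ∧ z.re ≤ 5 / 2 ∧ t - 1 ≤ z.im ∧ z.im ≤ t + 1 := by
    intro z hz
    obtain ⟨h1, h2⟩ := ball_coord hz
    have h1' := abs_le.1 h1
    have h2' := abs_le.1 h2
    rw [ecr] at h1'
    rw [eci] at h2'
    exact ⟨by linarith, by linarith, by linarith, by linarith⟩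
  have key := hback (hh P a) c L hL
    (fun z hz => by
      obtain ⟨h1, h2, h3, h4⟩ := hbig z hz
      exact hh_an P a (by linarith) (by linarith))
    (by
      intro z hz
      obtain ⟨h1, h2, h3, h4⟩ := hbig z hz
      have h5 := hupp T (1 / 4) (18 * T) a z (by linarith) ha (by linarith) (by linarith) (by linarith)
        (by linarith) (by linarith) (by
        intro v hv
        have e1 := abs_le.1 (ball_coord hv).1
        have e2 := abs_le.1 (ball_coord hv).2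
        refine (Pool.Agent.H388LH.zeta_growth (by linarith) (by linarith)).trans ?_
        have h6 : ‖v‖ ≤ 3 * T := by
          refine (Complex.norm_le_abs_re_add_abs_im v).trans ?_
          rw [abs_of_nonneg (by linarith), abs_of_nonneg (by linarith)]
          linarith
        linarith)
      refine h5.trans ?_
      have h7 : Real.exp (3 * L) = T ^ 3 := by
        rw [show (3:ℝ) * L = ((3:ℕ):ℝ) * L by norm_num, Real.exp_nat_mul, hLdef, Real.exp_log hT0]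
      rw [h7]
      have h8 : T ^ ρ ≤ T := by
        calc T ^ ρ ≤ T ^ (1:ℝ) := Real.rpow_le_rpow_of_exponent_le hT1' (by linarith)
          _ = T := Real.rpow_one T
      have h9 : T ^ (1 / 4 - (z.re - 1 / 2)) ≤ T := by
        calc T ^ (1 / 4 - (z.re - 1 / 2)) ≤ T ^ (1:ℝ) :=
              Real.rpow_le_rpow_of_exponent_le hT1' (by linarith)
          _ = T := Real.rpow_one T
      calc C * T ^ ρ * (18 * T) + C * T ^ (1 / 4 - (z.re - 1 / 2))
          ≤ C * T * (18 * T) + C * T := by gcongr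
        _ ≤ C * T * (18 * T) + C * T * T := by
            have : C * T ≤ C * T * T := le_mul_of_one_le_right (by positivity) hT1'
            linarith
        _ = (18 * C + C) * T ^ 2 := by ring
        _ ≤ T * T ^ 2 := by gcongr
        _ = T ^ 3 := by ring)
    (by
      intro z hz
      have e1 := abs_le.1 (ball_coord hz).1
      have e2 := abs_le.1 (ball_coord hz).2
      rw [ecr] at e1
      rw [eci] at e2
      have h4 := hupp T (1 / 4) A a z (by linarith) ha (by linarith) (by linarith) (by linarith) (by linarith)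
        (by linarith) (by
          intro v hv
          have e3 := abs_le.1 (ball_coord hv).1
          exact (hA v (by linarith)).1)
      refine h4.trans ?_
      have h3 : Real.exp (ηb * L) = T ^ (ηb / 2) * T ^ (ηb / 2) := by
        rw [← Real.rpow_add hT0, rpow_eq_exp hT0]; congr 1; ring
      rw [h3]
      have h8 : T ^ ρ ≤ T ^ (ηb / 2) := Real.rpow_le_rpow_of_exponent_le hT1' (by linarith)
      have h8' : 1 ≤ T ^ (ηb / 2) := Real.one_le_rpow hT1' (by positivity)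
      have h9 : T ^ (1 / 4 - (z.re - 1 / 2)) ≤ 1 := Real.rpow_le_one_of_one_le_of_nonpos hT1' (by linarith)
      calc C * T ^ ρ * A + C * T ^ (1 / 4 - (z.re - 1 / 2))
          ≤ C * T ^ (ηb / 2) * A + C * 1 := by gcongr
        _ ≤ C * T ^ (ηb / 2) * A + C * T ^ (ηb / 2) := by gcongr
        _ = (C * A + C) * T ^ (ηb / 2) := by ring
        _ ≤ T ^ (ηb / 2) * T ^ (ηb / 2) := by gcongr)
    (by
      have h1 := hcen a ha2 t (by linarith) (by linarith)
      rw [← hc] at h1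
      have h3 : Real.exp (-(ηb * L)) = (T ^ ηb)⁻¹ := by
        rw [rpow_eq_exp hT0, Real.exp_neg]
      have h4 : (T ^ ηb)⁻¹ ≤ c₀ := by
        rw [inv_le_comm₀ (by positivity) hc₀, ← one_div]
        exact g4
      rw [h3]
      exact h4.trans h1)
    (by
      intro z hz
      have e1 := abs_le.1 (ball_coord (ball_subset_closedBall hz)).1
      have e2 := abs_le.1 (ball_coord (ball_subset_closedBall hz)).2
      rw [ecr] at e1
      rw [eci] at e2
      exact hfree a ha z (by linarith) (by linarith) (by linarith) (by linarith))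
    hcount
  have hin : w ∈ closedBall c r := by
    rw [mem_closedBall, dist_eq_norm]
    apply norm_le_of_sq (by rw [hr]; linarith)
    rw [Complex.sub_re, Complex.sub_im, ecr, eci, hr, hwt]
    exact re4 hy0 hy1 hw1 hw2 t
  have h1 := key w hin
  have h2 : Real.exp (ε * L) = T ^ ε := by rw [rpow_eq_exp hT0]
  rwa [h2] at h1

/-- **many values to the left of the critical line** -/
theorem left_many (P : Polynomial ℂ) (hP : P ≠ 0) {κ β : ℝ} (hκ : 0 < κ) (hβ : 0 < β) :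
    ∃ η : ℝ, 0 < η ∧ η ≤ 1 ∧ ∀ᶠ T : ℝ in atTop, T ^ κ ≤ ‖riemannZeta ⟨1 / 2, T⟩‖ →
      ∀ a : ℂ, ‖a‖ ≤ T ^ η → ∃ S : Finset ℂ,
        (∀ s ∈ S, -β ≤ s.re ∧ s.re ≤ 1 / 2 - η ∧ |s.im - T| ≤ 1 / η ∧ PD P riemannZeta s = a) ∧
        η * Real.log T ≤ ∑ s ∈ S, (mult (fun z => PD P riemannZeta z - a) s : ℝ) := by
  set y : ℝ := min (1 / 20) (κ / 3) with hy
  have hy0 : 0 < y := lt_min (by norm_num) (by positivity)
  have hy1 : y ≤ 1 / 20 := min_le_left _ _
  have hy2 : y ≤ κ / 3 := min_le_right _ _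
  set ε : ℝ := κ / 8 with hε
  have hε0 : 0 < ε := by positivity
  set Q := QQ P with hQ
  have hQ0 : Q ≠ 0 := QQ_ne P hP
  obtain ⟨W, T₁, hW, hT₁, hpeak⟩ := peak (ε := y / 20) (by positivity) (by linarith)
  obtain ⟨ηb, hηb, hsmall⟩ := left_small P hP hy0 hy1 hε0
  obtain ⟨K, hK, hX⟩ := XX_T
  obtain ⟨C, hC, hinv⟩ := left_inv Q hQ0 hy0 hy1
  set η : ℝ := min (min (y / 20) ηb) (min ε (1 / (W + 4))) with hη
  have hη0 : 0 < η := lt_min (lt_min (by positivity) hηb) (lt_min hε0 (by positivity))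
  have hηy : η ≤ y / 20 := (min_le_left _ _).trans (min_le_left _ _)
  have hηηb : η ≤ ηb := (min_le_left _ _).trans (min_le_right _ _)
  have hηε : η ≤ ε := (min_le_right _ _).trans (min_le_left _ _)
  have hηW : η ≤ 1 / (W + 4) := (min_le_right _ _).trans (min_le_right _ _)
  have h1η : W + 4 ≤ 1 / η := by
    rw [le_div_iff₀ hη0]
    rw [le_div_iff₀ (by linarith)] at hηW
    linarith
  have hfree := hh_free P hP (a₁ := 1 + β) (by linarith)
  clear_value y ε η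
  refine ⟨η, hη0, by linarith, ?_⟩
  filter_upwards [hsmall, hfree, eventually_ge_atTop T₁, eventually_ge_atTop (4 * W + 100),
    ev_rpow (8 * C) (p := y / 5) (by positivity),
    ev_rpow (8 * C * (K + 1) + 1) (p := κ / 2) (by positivity)]
    with T hsmall hfree hTT hT g7 g8 hlarge a ha
  have hT0 : 0 < T := by linarith
  have hT1' : 1 ≤ T := by linarith
  set L := Real.log T with hLdef
  have hLpos : 0 < L := Real.log_pos (by linarith)
  by_contra hcon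
  push Not at hcon
  have hTκ1 : 1 ≤ T ^ κ := Real.one_le_rpow hT1' hκ.le
  obtain ⟨T₀, hT₀1, hT₀2, hT₀3⟩ := hpeak T hTT (hTκ1.trans hlarge)
  have hT₀' := abs_le.1 hT₀1
  have hbn : ‖(starRingEnd ℂ) a‖ ≤ T ^ η := by rw [Complex.norm_conj]; exact ha
  have hTη4 : T ^ η ≤ T ^ (1 / 4 : ℝ) := Real.rpow_le_rpow_of_exponent_le hT1' (by linarith)
  have hTηε : T ^ η ≤ T ^ ε := Real.rpow_le_rpow_of_exponent_le hT1' hηε
  have hTε1 : 1 ≤ T ^ ε := Real.one_le_rpow hT1' hε0.le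
  have hT₀0 : 0 < T₀ := by linarith
  -- the main estimate
  have hGb : ∀ w : ℂ, 1 / 2 + y / 10 ≤ w.re → w.re ≤ 1 / 2 + y → |w.im - T₀| ≤ 1 →
      ‖PD Q (DL.refl riemannZeta) w‖ ≤ (2 * (K + 1) * T ^ ε) * T₀ ^ y := by
    intro w₁ hw1 hw2 hw3
    classical
    have hw3' := abs_le.1 hw3
    have h1 := hsmall w₁.im (by rw [abs_le]; constructor <;> linarith) a (ha.trans hTη4) (by
      intro S hS
      have hSb : ∀ w ∈ S, 1 / 2 + y / 20 ≤ w.re ∧ w.re ≤ 1 + β ∧ |w.im - T| ≤ W + 2 := by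
        intro w hw
        obtain ⟨h2, h3⟩ := hS w hw
        have e1 := abs_le.1 (ball_coord h2).1
        have e2 := abs_le.1 (ball_coord h2).2
        have ecr : (⟨3 / 2, w₁.im⟩ : ℂ).re = 3 / 2 := rfl
        have eci : (⟨3 / 2, w₁.im⟩ : ℂ).im = w₁.im := rfl
        rw [ecr] at e1
        rw [eci] at e2
        refine ⟨by linarith, ?_, by rw [abs_le]; constructor <;> linarith⟩
        by_contra hlt
        push Not at hlt
        exact hfree a (ha.trans hTη4) w hlt.le (by linarith) (by linarith) (by linarith) h3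
      rw [sum_refl P hP a S (fun w hw => by
        obtain ⟨h4, h5, h6⟩ := hSb w hw
        have h6' := abs_le.1 h6
        exact ⟨by linarith, by linarith⟩)]
      have h1 := hcon (S.image (fun w : ℂ => 1 - (starRingEnd ℂ) w)) (by
        intro s hs
        obtain ⟨w, hw, rfl⟩ := Finset.mem_image.1 hs
        obtain ⟨h4, h5, h6⟩ := hSb w hw
        have h6' := abs_le.1 h6
        rw [osc_re, osc_im]
        exact ⟨by linarith, by linarith, by linarith,
          (hh_zero hP (by linarith) (by linarith) (hS w hw).2).1⟩)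
      have h3 : η * L ≤ ηb * L := mul_le_mul_of_nonneg_right hηηb hLpos.le
      exact h1.le.trans h3) w₁ rfl hw1 hw2
    have h3 := (hX T w₁ (by linarith) (by linarith) (by linarith) (by linarith) (by linarith))
    have hX0 : 0 < ‖XX w₁‖ := lt_of_lt_of_le (by positivity) h3.1
    unfold hh at h1
    rw [norm_div, div_le_iff₀ hX0] at h1
    have h4 : T ^ (w₁.re - 1 / 2) ≤ T ^ y := Real.rpow_le_rpow_of_exponent_le hT1' (by linarith)
    have h5 : T ^ y ≤ 2 * T₀ ^ y := double hT0 hT₀0 (by linarith) hy0.le (by linarith)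
    have h6 : 1 ≤ T ^ y := Real.one_le_rpow hT1' hy0.le
    have h7 : ‖XX w₁‖ ≤ K * T ^ y := h3.2.trans (by gcongr)
    calc ‖PD Q (DL.refl riemannZeta) w₁‖
        = ‖(PD Q (DL.refl riemannZeta) w₁ - (starRingEnd ℂ) a) + (starRingEnd ℂ) a‖ := by congr 1; ring
      _ ≤ ‖PD Q (DL.refl riemannZeta) w₁ - (starRingEnd ℂ) a‖ + ‖(starRingEnd ℂ) a‖ := norm_add_le _ _
      _ ≤ T ^ ε * ‖XX w₁‖ + T ^ η := add_le_add h1 hbn
      _ ≤ T ^ ε * (K * T ^ y) + T ^ ε * T ^ y := by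
          refine add_le_add (by gcongr) ?_
          exact re5 hTηε (by linarith) h6
      _ = (K + 1) * T ^ ε * T ^ y := by ring
      _ ≤ (K + 1) * T ^ ε * (2 * T₀ ^ y) := by gcongr
      _ = _ := by ring
  set M₀ : ℝ := ‖riemannZeta ⟨1 / 2, T₀⟩‖ with hM₀
  have hM₀κ : T ^ κ ≤ M₀ := hlarge.trans hT₀2
  have hM₀0 : 0 < M₀ := by linarith
  have hfin := hinv T₀ (T ^ (y / 20) * M₀) (2 * (K + 1) * T ^ ε) (by linarith) (by positivity)
    (re6 hK hTε1) hT₀3 hGb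
  clear hGb hcon hsmall hfree hT₀3 hinv hpeak
  have k1 : T ^ (y / 20) ≤ 2 * T₀ ^ (y / 20) := double hT0 hT₀0 (by linarith) (by positivity) (by linarith)
  have k2 : T₀ ^ (3 / 5 * y) * (T₀ ^ (-(17 / 20 * y)) * (2 * T₀ ^ (y / 20))) = 2 * (T₀ ^ (y / 5))⁻¹ := by
    rw [← Real.rpow_neg hT₀0.le]
    have : T₀ ^ (3 / 5 * y) * (T₀ ^ (-(17 / 20 * y)) * T₀ ^ (y / 20)) = T₀ ^ (-(y / 5)) := by
      rw [← Real.rpow_add hT₀0, ← Real.rpow_add hT₀0]; congr 1; ring
    rw [← this]; ring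
  have k3 : 4 * C ≤ T₀ ^ (y / 5) := by
    have h1 : T ^ (y / 5) ≤ 2 * T₀ ^ (y / 5) := double hT0 hT₀0 (by linarith) (by positivity) (by linarith)
    linarith
  have k4 : C * T₀ ^ (3 / 5 * y) * (T₀ ^ (-(17 / 20 * y)) * (T ^ (y / 20) * M₀)) ≤ M₀ / 2 := by
    calc C * T₀ ^ (3 / 5 * y) * (T₀ ^ (-(17 / 20 * y)) * (T ^ (y / 20) * M₀))
        ≤ C * T₀ ^ (3 / 5 * y) * (T₀ ^ (-(17 / 20 * y)) * (2 * T₀ ^ (y / 20) * M₀)) := by gcongr
      _ = C * (T₀ ^ (3 / 5 * y) * (T₀ ^ (-(17 / 20 * y)) * (2 * T₀ ^ (y / 20)))) * M₀ := by ring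
      _ = C * (2 * (T₀ ^ (y / 5))⁻¹) * M₀ := by rw [k2]
      _ ≤ C * (2 * (4 * C)⁻¹) * M₀ := by gcongr
      _ = M₀ / 2 := by field_simp; norm_num
  have k5 : C * T₀ ^ (3 / 5 * y) * (2 * (K + 1) * T ^ ε) ≤ 4 * C * (K + 1) * T ^ (κ / 2) := by
    have h1 : T₀ ^ (3 / 5 * y) ≤ 2 * T ^ (3 / 5 * y) :=
      double hT₀0 hT0 (by linarith) (by positivity) (by linarith)
    have h2 : T ^ (3 / 5 * y) * T ^ ε ≤ T ^ (κ / 2) := by
      rw [← Real.rpow_add hT0]
      apply Real.rpow_le_rpow_of_exponent_le hT1'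
      rw [hε]; linarith
    calc C * T₀ ^ (3 / 5 * y) * (2 * (K + 1) * T ^ ε) ≤ C * (2 * T ^ (3 / 5 * y)) * (2 * (K + 1) * T ^ ε) := by
          gcongr
      _ = 4 * C * (K + 1) * (T ^ (3 / 5 * y) * T ^ ε) := by ring
      _ ≤ _ := by gcongr
  have k6 : M₀ ≤ 8 * C * (K + 1) * T ^ (κ / 2) := by
    rw [mul_add] at hfin
    linarith
  have k7 : T ^ κ = T ^ (κ / 2) * T ^ (κ / 2) := by rw [← Real.rpow_add hT0]; congr 1; ring
  have k8 : 0 < T ^ (κ / 2) := by positivity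
  have k9 : 8 * C * (K + 1) * T ^ (κ / 2) < T ^ κ := by
    rw [k7]
    apply mul_lt_mul_of_pos_right _ k8
    linarith
  linarith

end Pool.Agent.V7H88.BS
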