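import Mathlib
import Pool.Agent.V7H88.BS.H

/-!
Few values to the left of the critical line.
-/

set_option autoImplicit false
set_option maxHeartbeats 4000000

open Complex Filter Topology Metric Set
open H370
open H345 (XX)

namespace Pool.Agent.V7H88.BS

/-- sums over a set covered by finitely many pieces -/
lemma cover_sum {S : Finset ℂ} {m : ℂ → ℝ} (hm : ∀ s, 0 ≤ m s) {N : ℕ} {p : ℕ → ℂ → Prop}
    [∀ k, DecidablePred (p k)] {X : ℝ} (hcov : ∀ s ∈ S, ∃ k < N, p k s)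
    (hX : ∀ k < N, ∑ s ∈ S.filter (p k), m s ≤ X) : ∑ s ∈ S, m s ≤ N * X := by
  have h1 : ∑ s ∈ S, m s ≤ ∑ s ∈ S, ∑ k ∈ Finset.range N, if p k s then m s else 0 := by
    refine Finset.sum_le_sum fun s hs => ?_
    obtain ⟨k, hk, hp⟩ := hcov s hs
    calc m s = if p k s then m s else 0 := (if_pos hp).symm
      _ ≤ _ := by
        refine Finset.single_le_sum (f := fun k => if p k s then m s else 0) (fun i _ => ?_)
          (Finset.mem_range.2 hk)
        show 0 ≤ if p i s then m s else 0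
        split_ifs
        · exact hm s
        · exact le_rfl
  refine h1.trans ?_
  rw [Finset.sum_comm]
  calc ∑ k ∈ Finset.range N, ∑ s ∈ S, (if p k s then m s else 0)
      ≤ ∑ k ∈ Finset.range N, X := by
        refine Finset.sum_le_sum fun k hk => ?_
        rw [← Finset.sum_filter]
        exact hX k (Finset.mem_range.1 hk)
    _ = N * X := by rw [Finset.sum_const, Finset.card_range, nsmul_eq_mul]

/-- values in one disc -/
lemma left_disc (P : Polynomial ℂ) (hP : P ≠ 0) {δ ρ κ : ℝ} (hδ : 0 < δ) (hδ1 : δ ≤ 1 / 2) (hρ0 : 0 < ρ)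
    (hρ1 : ρ ≤ δ / 4) (hκ0 : 0 < κ) (hκ1 : κ ≤ 1 / 2) :
    ∃ D : ℝ, 0 ≤ D ∧ ∀ᶠ T : ℝ in atTop,
      (∀ s : ℂ, 1 / 2 ≤ s.re → |s.im - T| ≤ 4 → ‖riemannZeta s‖ ≤ T ^ (2 * κ)) →
      ∀ (a : ℂ), ‖a‖ ≤ T ^ κ → ∀ t : ℝ, |t - T| ≤ 1 → ∀ (S : Finset ℂ),
        (∀ s ∈ S, -1 ≤ s.re ∧ s.re ≤ 1 / 2 - δ ∧ |s.im - t| ≤ δ / 4 ∧ PD P riemannZeta s = a) →
        ∑ s ∈ S, (mult (fun z => PD P riemannZeta z - a) s : ℝ) ≤
          (D + (ρ + 2 * κ) * Real.log T) / Real.log ((1 - δ / 2) / (1 - 3 * δ / 4)) := by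
  set R : ℝ := 1 - δ / 2 with hR
  set r : ℝ := 1 - 3 * δ / 4 with hr
  have hr0 : 0 < r := by rw [hr]; linarith
  have hrR : r < R := by rw [hr, hR]; linarith
  have hq0 : 0 < Real.log (R / r) := Real.log_pos (by rw [lt_div_iff₀ hr0]; linarith)
  obtain ⟨C, hC, hupp⟩ := hh_upper P hρ0
  obtain ⟨c₀, hc₀, hcen⟩ := hh_centre P hP
  set D : ℝ := 2 * C / c₀ with hD
  have hD0 : 0 < D := by positivity
  refine ⟨|Real.log D|, abs_nonneg _, ?_⟩
  filter_upwards [hcen, eventually_ge_atTop 100] with T hcen hT hzs a ha t ht S hS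
  classical
  have hT0 : 0 < T := by linarith
  have hT1' : 1 ≤ T := by linarith
  have ht' := abs_le.1 ht
  set L := Real.log T with hLdef
  set c : ℂ := ⟨3 / 2, t⟩ with hc
  have ecr : c.re = 3 / 2 := rfl
  have eci : c.im = t := rfl
  have hbig : ∀ z ∈ closedBall c R, 1 / 2 + δ / 2 ≤ z.re ∧ z.re ≤ 5 / 2 ∧ |z.im - T| ≤ 2 := by
    intro z hz
    obtain ⟨h1, h2⟩ := ball_coord hz
    have h1' := abs_le.1 h1
    have h2' := abs_le.1 h2
    rw [ecr] at h1'
    rw [eci] at h2'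
    refine ⟨by linarith, by linarith, ?_⟩
    rw [abs_le]; constructor <;> linarith
  have hlc' : c₀ ≤ ‖hh P a c‖ := hcen a (ha.trans (Real.rpow_le_rpow_of_exponent_le hT1' hκ1)) t
    (by linarith) (by linarith)
  have hhc0 : 0 < ‖hh P a c‖ := by linarith
  have hhc : hh P a c ≠ 0 := norm_pos_iff.1 hhc0
  have hexp1 : 1 ≤ T ^ (ρ + 2 * κ) := Real.one_le_rpow hT1' (by positivity)
  have hj := H370.Loc.jensen_mult (f := hh P a) (c := c) (r := r) (R := R)
    (M := 2 * C * T ^ (ρ + 2 * κ)) hr0 hrR (by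
      have : 1 ≤ C * T ^ (ρ + 2 * κ) := ra8 hC hexp1
      linarith)
    (fun z hz => by
      obtain ⟨h1, h2, h3⟩ := hbig z hz
      have h3' := abs_le.1 h3
      exact hh_an P a (by linarith) (by linarith)) hhc
    (fun z hz => by
      obtain ⟨h1, h2, h3⟩ := hbig z hz
      have h3' := abs_le.1 h3
      have h4 := hupp T κ (T ^ (2 * κ)) a z (by linarith) ha (by linarith) (by linarith) (by linarith)
        (by linarith) (by positivity) (fun v hv => by
          have e1 := abs_le.1 (ball_coord hv).1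
          have e2 := abs_le.1 (ball_coord hv).2
          exact hzs v (by linarith) (by rw [abs_le]; constructor <;> linarith))
      refine h4.trans ?_
      have h5 : T ^ (κ - (z.re - 1 / 2)) ≤ T ^ (ρ + 2 * κ) :=
        Real.rpow_le_rpow_of_exponent_le hT1' (by linarith)
      have h6 : C * T ^ ρ * T ^ (2 * κ) = C * T ^ (ρ + 2 * κ) := by
        rw [Real.rpow_add hT0]; ring
      have h7 : C * T ^ (κ - (z.re - 1 / 2)) ≤ C * T ^ (ρ + 2 * κ) := by gcongr
      linarith)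
    (S.image (fun w : ℂ => 1 - (starRingEnd ℂ) w)) (by
      intro w hw
      obtain ⟨s, hs, rfl⟩ := Finset.mem_image.1 hw
      obtain ⟨h1, h2, h5, h4⟩ := hS s hs
      have h5' := abs_le.1 h5
      rw [mem_closedBall, dist_eq_norm]
      have e1 : (1 - (starRingEnd ℂ) s - c).re = -1 / 2 - s.re := by
        rw [Complex.sub_re, osc_re, ecr]; ring
      have e2 : (1 - (starRingEnd ℂ) s - c).im = s.im - t := by
        rw [Complex.sub_im, osc_im, eci]
      refine (Complex.norm_le_abs_re_add_abs_im _).trans ?_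
      rw [e1, e2]
      have h6 : |-1 / 2 - s.re| ≤ 1 - δ := by rw [abs_le]; constructor <;> linarith
      rw [hr]
      linarith)
  rw [sum_refl P hP a _ (by
    intro w hw
    obtain ⟨s, hs, rfl⟩ := Finset.mem_image.1 hw
    obtain ⟨h1, h2, h5, h4⟩ := hS s hs
    have h5' := abs_le.1 h5
    rw [osc_re, osc_im]
    constructor <;> linarith)] at hj
  have himg : (S.image (fun w : ℂ => 1 - (starRingEnd ℂ) w)).image (fun w : ℂ => 1 - (starRingEnd ℂ) w) = S := by
    rw [Finset.image_image]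
    have : (fun w : ℂ => 1 - (starRingEnd ℂ) w) ∘ (fun w : ℂ => 1 - (starRingEnd ℂ) w) = id := by
      funext w
      exact osc_osc w
    rw [this, Finset.image_id]
  rw [himg] at hj
  refine hj.trans ?_
  apply div_le_div_of_nonneg_right _ hq0.le
  have h3 : Real.log (2 * C * T ^ (ρ + 2 * κ) / ‖hh P a c‖) ≤ Real.log (D * T ^ (ρ + 2 * κ)) := by
    apply Real.log_le_log (by positivity)
    calc 2 * C * T ^ (ρ + 2 * κ) / ‖hh P a c‖ ≤ 2 * C * T ^ (ρ + 2 * κ) / c₀ := by gcongr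
      _ = D * T ^ (ρ + 2 * κ) := by rw [hD]; ring
  rw [Real.log_mul hD0.ne' (by positivity), Real.log_rpow hT0, ← hLdef] at h3
  have h4 := le_abs_self (Real.log D)
  linarith

/-- **few values to the left of the critical line** -/
theorem left_few (P : Polynomial ℂ) (hP : P ≠ 0) {δ θ : ℝ} (hδ : 0 < δ) (hδ1 : δ ≤ 1 / 2) (hθ : 0 < θ) :
    ∃ κ H : ℝ, 0 < κ ∧ κ ≤ 1 ∧ 0 < H ∧ ∀ᶠ T : ℝ in atTop,
      (∀ t : ℝ, |t - T| ≤ H → ‖riemannZeta ⟨1 / 2, t⟩‖ ≤ T ^ κ) →
      ∀ (a : ℂ), ‖a‖ ≤ T ^ κ → ∀ (S : Finset ℂ),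
        (∀ s ∈ S, -1 ≤ s.re ∧ s.re ≤ 1 / 2 - δ ∧ |s.im - T| ≤ 1 ∧ PD P riemannZeta s = a) →
        ∑ s ∈ S, (mult (fun z => PD P riemannZeta z - a) s : ℝ) ≤ θ * Real.log T := by
  set q : ℝ := Real.log ((1 - δ / 2) / (1 - 3 * δ / 4)) with hq
  have hq0 : 0 < q := Real.log_pos (by rw [lt_div_iff₀ (by linarith)]; linarith)
  set N : ℕ := ⌊8 / δ⌋₊ + 1 with hN
  have hN0 : (0:ℝ) < N := by rw [hN]; positivity
  set κ : ℝ := min (1 / 2) (θ * q / (8 * N)) with hκ
  have hκ0 : 0 < κ := lt_min (by norm_num) (by positivity)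
  have hκ1 : κ ≤ 1 / 2 := min_le_left _ _
  have hκ2 : κ ≤ θ * q / (8 * N) := min_le_right _ _
  set ρ : ℝ := min (δ / 4) (θ * q / (4 * N)) with hρ
  have hρ0 : 0 < ρ := lt_min (by positivity) (by positivity)
  have hρ1 : ρ ≤ δ / 4 := min_le_left _ _
  have hρ2 : ρ ≤ θ * q / (4 * N) := min_le_right _ _
  obtain ⟨H, T₁, hH, hT₁, hsm⟩ := right_small (κ := κ) (V := 4) hκ0 (by linarith) (by norm_num)
  obtain ⟨D, hD0, hdisc⟩ := left_disc P hP hδ hδ1 hρ0 hρ1 hκ0 hκ1
  refine ⟨κ, H, hκ0, by linarith, by linarith, ?_⟩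
  filter_upwards [hdisc, eventually_ge_atTop T₁, eventually_ge_atTop 100, ev_log (D * (2 * N) / (θ * q))]
    with T hdisc hTT hT hL hsmall a ha S hS
  set L := Real.log T with hLdef
  have hLpos : 0 < L := Real.log_pos (by linarith)
  have hone := hdisc (hsm T hTT hsmall) a ha
  clear hdisc hsm hsmall
  have hδ4 : 0 < δ / 4 := by positivity
  have hfin := cover_sum (S := S) (m := fun s => (mult (fun z => PD P riemannZeta z - a) s : ℝ))
    (fun s => by positivity) (N := N) (p := fun k s => |s.im - (T - 1 + k * (δ / 4))| ≤ δ / 4)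
    (X := (D + (ρ + 2 * κ) * L) / q) (by
      intro s hs
      obtain ⟨h1, h2, h3, h4⟩ := hS s hs
      have h3' := abs_le.1 h3
      refine ⟨⌊(s.im - (T - 1)) / (δ / 4)⌋₊, ?_, ?_⟩
      · rw [hN, Nat.lt_succ_iff]
        apply Nat.floor_le_floor
        rw [div_le_div_iff₀ hδ4 hδ]
        calc (s.im - (T - 1)) * δ ≤ 2 * δ := by
              apply mul_le_mul_of_nonneg_right _ hδ.le
              linarith
          _ = 8 * (δ / 4) := by ring
      · have h5 : 0 ≤ (s.im - (T - 1)) / (δ / 4) := div_nonneg (by linarith) hδ4.le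
        have h6 := Nat.floor_le h5
        have h7 := Nat.lt_floor_add_one ((s.im - (T - 1)) / (δ / 4))
        rw [le_div_iff₀ hδ4] at h6
        rw [div_lt_iff₀ hδ4] at h7
        rw [abs_le]
        constructor <;> linarith) (by
      intro k hk
      have hkN : (k : ℝ) * (δ / 4) ≤ 2 := by
        have h1 : k ≤ ⌊8 / δ⌋₊ := by omega
        have h2 : (k : ℝ) ≤ 8 / δ := (Nat.cast_le.2 h1).trans (Nat.floor_le (by positivity))
        rw [le_div_iff₀ hδ] at h2
        linarith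
      have hk0 : 0 ≤ (k : ℝ) * (δ / 4) := by positivity
      refine hone (T - 1 + k * (δ / 4)) (by rw [abs_le]; constructor <;> linarith) _ ?_
      intro s hs
      rw [Finset.mem_filter] at hs
      obtain ⟨h1, h2, h3, h4⟩ := hS s hs.1
      exact ⟨h1, h2, hs.2, h4⟩)
  refine hfin.trans ?_
  rw [← mul_div_assoc, div_le_iff₀ hq0]
  have h1 : N * (ρ + 2 * κ) ≤ θ * q / 2 := by
    have h2 : ρ + 2 * κ ≤ θ * q / (2 * N) := by
      have e : θ * q / (2 * N) = θ * q / (4 * N) + 2 * (θ * q / (8 * N)) := by field_simp; ring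
      linarith
    rw [le_div_iff₀ (by positivity)] at h2
    linarith
  have h3 : N * D ≤ θ * q / 2 * L := by
    rw [div_le_iff₀ (by positivity)] at hL
    linarith
  have h4 : N * (ρ + 2 * κ) * L ≤ θ * q / 2 * L := mul_le_mul_of_nonneg_right h1 hLpos.le
  linarith

end Pool.Agent.V7H88.BS
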