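import Mathlib
import Pool.Agent.V7H88.BS.I
import Pool.Agent.TH804.MS4

/-!
Backlund's criterion for `P(d/ds) ζ` on both sides of the critical line.
-/

set_option autoImplicit false
set_option maxHeartbeats 4000000

open Complex Filter Topology Metric Set
open H370

namespace Pool.Agent.V7H88.BS

/-- few values `a` of `P(d/ds) ζ` in the strip `x₁ ≤ Re s ≤ x₂` -/
def FewV (P : Polynomial ℂ) (a : ℂ) (x₁ x₂ : ℝ) : Prop := ∀ ε : ℝ, 0 < ε → ∃ T₁ : ℝ, ∀ T : ℝ, T₁ ≤ T →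
  ∀ S : Finset ℂ, (∀ s ∈ S, x₁ ≤ s.re ∧ s.re ≤ x₂ ∧ T ≤ s.im ∧ s.im ≤ T + 1 ∧ PD P riemannZeta s = a) →
    ∑ s ∈ S, (mult (fun z => PD P riemannZeta z - a) s : ℝ) ≤ ε * Real.log T

lemma Z_eq (t : ℝ) : ‖riemannZeta ⟨1 / 2, t⟩‖ = Pool.Agent.TH804.MS.Z t := by
  unfold Pool.Agent.TH804.MS.Z
  congr 2
  apply Complex.ext <;> simp

lemma few_contra {P : Polynomial ℂ} {a : ℂ} {x₁ x₂ η : ℝ} (hη : 0 < η) (h : FewV P a x₁ x₂) :
    ∀ᶠ T : ℝ in atTop, ∀ S : Finset ℂ,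
      (∀ s ∈ S, x₁ ≤ s.re ∧ s.re ≤ x₂ ∧ |s.im - T| ≤ 1 / η ∧ PD P riemannZeta s = a) →
      ∑ s ∈ S, (mult (fun z => PD P riemannZeta z - a) s : ℝ) < η * Real.log T := by
  set N : ℕ := ⌊2 / η⌋₊ + 1 with hN
  have hN0 : (0:ℝ) < N := by rw [hN]; positivity
  obtain ⟨T₁, hT₁⟩ := h (η / (4 * N)) (by positivity)
  filter_upwards [eventually_ge_atTop (T₁ + 1 / η), eventually_ge_atTop (2 + 2 / η)] with T h1 h2 S hS
  classical
  have h1η : 0 < 1 / η := by positivity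
  have h2η : 2 / η = 2 * (1 / η) := by ring
  have hT0 : 0 < T := by rw [h2η] at h2; linarith
  have hL : 0 < Real.log T := Real.log_pos (by rw [h2η] at h2; linarith)
  have hfin := cover_sum (S := S) (m := fun s => (mult (fun z => PD P riemannZeta z - a) s : ℝ))
    (fun s => by positivity) (N := N)
    (p := fun k s => T - 1 / η + k ≤ s.im ∧ s.im ≤ T - 1 / η + k + 1)
    (X := η / (4 * N) * (2 * Real.log T)) (by
      intro s hs
      obtain ⟨-, -, h3, -⟩ := hS s hs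
      have h3' := abs_le.1 h3
      have h5 : 0 ≤ s.im - (T - 1 / η) := by linarith
      refine ⟨⌊s.im - (T - 1 / η)⌋₊, ?_, ?_⟩
      · rw [hN, Nat.lt_succ_iff]
        apply Nat.floor_le_floor
        linarith
      · have h6 := Nat.floor_le h5
        have h7 := Nat.lt_floor_add_one (s.im - (T - 1 / η))
        constructor <;> linarith) (by
      intro k hk
      have hk1 : (k : ℝ) ≤ 2 / η := by
        have h3 : k ≤ ⌊2 / η⌋₊ := by omega
        exact (Nat.cast_le.2 h3).trans (Nat.floor_le (by positivity))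
      have hk0 : (0:ℝ) ≤ k := Nat.cast_nonneg k
      have h4 := hT₁ (T - 1 / η + k) (by linarith) (S.filter
        (fun s => T - 1 / η + k ≤ s.im ∧ s.im ≤ T - 1 / η + k + 1)) (by
          intro s hs
          rw [Finset.mem_filter] at hs
          obtain ⟨h5, h6, -, h8⟩ := hS s hs.1
          exact ⟨h5, h6, hs.2.1, hs.2.2, h8⟩)
      refine h4.trans ?_
      have h9 : Real.log (T - 1 / η + k) ≤ 2 * Real.log T := by
        rw [← Real.log_rpow hT0]
        apply Real.log_le_log (by linarith)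
        have h10 : T ^ (2:ℝ) = T * T := by
          rw [show (2:ℝ) = ((2:ℕ):ℝ) by norm_num, Real.rpow_natCast]; ring
        rw [h10]
        have h11 : T - 1 / η + k ≤ 2 * T := by linarith
        nlinarith
      gcongr)
  refine lt_of_le_of_lt hfin ?_
  have e : (N : ℝ) * (η / (4 * N) * (2 * Real.log T)) = η * Real.log T / 2 := by
    field_simp; ring
  rw [e]
  have : 0 < η * Real.log T := by positivity
  linarith

lemma LH_small (h : Pool.Agent.TH804.MS.Exponent 0) {κ H : ℝ} (hκ : 0 < κ) (hH : 0 < H) :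
    ∀ᶠ T : ℝ in atTop, ∀ t : ℝ, |t - T| ≤ H → ‖riemannZeta ⟨1 / 2, t⟩‖ ≤ T ^ κ := by
  obtain ⟨C, hC⟩ := h (κ / 2) (by positivity)
  filter_upwards [eventually_ge_atTop (H + 1), ev_rpow (|C| * 4 ^ (κ / 2)) (p := κ / 2) (by positivity)]
    with T h1 h2 t ht
  have ht' := abs_le.1 ht
  have hT0 : 0 < T := by linarith
  rw [Z_eq]
  refine (hC t).trans ?_
  rw [zero_add]
  have h3 : 1 + |t| ≤ 4 * T := by
    rw [abs_of_nonneg (by linarith)]; linarith
  have h4 : (1 + |t|) ^ (κ / 2) ≤ 4 ^ (κ / 2) * T ^ (κ / 2) := by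
    rw [← Real.mul_rpow (by norm_num) hT0.le]
    exact Real.rpow_le_rpow (by positivity) h3 (by positivity)
  have h5 : 0 ≤ (1 + |t|) ^ (κ / 2) := by positivity
  calc C * (1 + |t|) ^ (κ / 2) ≤ |C| * (1 + |t|) ^ (κ / 2) := by
        apply mul_le_mul_of_nonneg_right (le_abs_self C) h5
    _ ≤ |C| * (4 ^ (κ / 2) * T ^ (κ / 2)) := by gcongr
    _ = |C| * 4 ^ (κ / 2) * T ^ (κ / 2) := by ring
    _ ≤ T ^ (κ / 2) * T ^ (κ / 2) := by gcongr
    _ = T ^ κ := by rw [← Real.rpow_add hT0]; congr 1; ring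

lemma FewV.mono {P : Polynomial ℂ} {a : ℂ} {x₁ x₂ y₁ y₂ : ℝ} (h : FewV P a x₁ x₂) (h1 : x₁ ≤ y₁) (h2 : y₂ ≤ x₂) :
    FewV P a y₁ y₂ := by
  intro ε hε
  obtain ⟨T₁, hT₁⟩ := h ε hε
  refine ⟨T₁, fun T hT S hS => hT₁ T hT S fun s hs => ?_⟩
  obtain ⟨h3, h4, h5⟩ := hS s hs
  exact ⟨by linarith, by linarith, h5⟩

theorem crit_right (P : Polynomial ℂ) (hP : P ≠ 0) (a : ℂ) :
    Pool.Agent.TH804.MS.Exponent 0 ↔ ∀ δ B : ℝ, 0 < δ → FewV P a (1 / 2 + δ) B := by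
  constructor
  · intro h
    have key : ∀ δ B : ℝ, 0 < δ → δ ≤ 1 → FewV P a (1 / 2 + δ) B := by
      intro δ B hδ hδ1 ε hε
      obtain ⟨κ, H, hκ, -, hH, hev⟩ := right_few P hP B hδ hδ1 hε
      obtain ⟨T₁, hT₁⟩ := eventually_atTop.1 (hev.and (LH_small h hκ hH))
      refine ⟨T₁, fun T hT S hS => ?_⟩
      obtain ⟨h1, h2⟩ := hT₁ T hT
      refine h1 h2 a S fun s hs => ?_
      obtain ⟨h3, h4, h5, h6, h7⟩ := hS s hs
      exact ⟨h3, h4, by rw [abs_le]; constructor <;> linarith, h7⟩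
    intro δ B hδ
    rcases le_total δ 1 with h1 | h1
    · exact key δ B hδ h1
    · exact (key 1 B one_pos le_rfl).mono (by linarith) le_rfl
  · intro h
    apply Pool.Agent.TH804.MS.exponent_of_large le_rfl
    intro ε hε
    obtain ⟨η, hη, hη1, hev⟩ := right_many P hP hε
    obtain ⟨T₁, hT₁⟩ := eventually_atTop.1 ((hev.and (few_contra hη (h η (1 / η) hη))).and
      (ev_rpow ‖a‖ hη))
    refine ⟨T₁, fun t ht => ?_⟩
    obtain ⟨⟨h1, h2⟩, h3⟩ := hT₁ t ht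
    rw [zero_add]
    by_contra hcon
    push Not at hcon
    rw [← Z_eq] at hcon
    obtain ⟨S, hS1, hS2⟩ := h1 hcon.le a h3
    have := h2 S hS1
    linarith

theorem crit_left (P : Polynomial ℂ) (hP : P ≠ 0) (a : ℂ) :
    Pool.Agent.TH804.MS.Exponent 0 ↔ ∀ δ : ℝ, 0 < δ → FewV P a (-1) (1 / 2 - δ) := by
  constructor
  · intro h
    have key : ∀ δ : ℝ, 0 < δ → δ ≤ 1 / 2 → FewV P a (-1) (1 / 2 - δ) := by
      intro δ hδ hδ1 ε hε
      obtain ⟨κ, H, hκ, -, hH, hev⟩ := left_few P hP hδ hδ1 hε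
      obtain ⟨T₁, hT₁⟩ := eventually_atTop.1 ((hev.and (LH_small h hκ hH)).and (ev_rpow ‖a‖ hκ))
      refine ⟨T₁, fun T hT S hS => ?_⟩
      obtain ⟨⟨h1, h2⟩, h2'⟩ := hT₁ T hT
      refine h1 h2 a h2' S fun s hs => ?_
      obtain ⟨h3, h4, h5, h6, h7⟩ := hS s hs
      exact ⟨h3, h4, by rw [abs_le]; constructor <;> linarith, h7⟩
    intro δ hδ
    rcases le_total δ (1 / 2) with h1 | h1
    · exact key δ hδ h1
    · exact (key (1 / 2) (by norm_num) le_rfl).mono le_rfl (by linarith)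
  · intro h
    apply Pool.Agent.TH804.MS.exponent_of_large le_rfl
    intro ε hε
    obtain ⟨η, hη, hη1, hev⟩ := left_many P hP hε (one_pos : (0:ℝ) < 1)
    obtain ⟨T₁, hT₁⟩ := eventually_atTop.1 ((hev.and (few_contra hη (h η hη))).and
      (ev_rpow ‖a‖ hη))
    refine ⟨T₁, fun t ht => ?_⟩
    obtain ⟨⟨h1, h2⟩, h3⟩ := hT₁ t ht
    rw [zero_add]
    by_contra hcon
    push Not at hcon
    rw [← Z_eq] at hcon
    obtain ⟨S, hS1, hS2⟩ := h1 hcon.le a h3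
    have := h2 S hS1
    linarith

end Pool.Agent.V7H88.BS
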